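import Pool.Agent.MP_9694c2_lc.PS.Force

/-!
A job done without loss of time starts at an allowed slot.
-/

set_option autoImplicit false

namespace Pool.Agent.MP_9694c2_lc.PS

namespace Sys

open Finset

variable {S : Sys} {Q : S.G.Play S.k}

open Classical in
variable (S) in
/-- The number of clean vertices in the marked segment of job `J`. -/
noncomputable def ca (A : Set VE) (J : ℕ) : ℕ :=
  ((Ico ((3 * J + 1) * S.h) ((3 * J + 2) * S.h)).filter (fun i => VE.r (.job J) i ∉ A)).card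

theorem seg_le (hS : S.WF) {J : ℕ} (hJ : J < S.N) : (3 * J + 3) * S.h ≤ S.len (.job J) := by
  refine le_trans ?_ (hS.len_job hJ)
  unfold U
  exact Nat.mul_le_mul_right _ (by omega)

theorem seg_lt (hS : S.WF) {J i : ℕ} (hJ : J < S.N) (hi : i < (3 * J + 2) * S.h) :
    i < S.len (.job J) := by
  have := seg_le hS hJ
  nlinarith

theorem ca_le_cc (hS : S.WF) {J : ℕ} (hJ : J < S.N) (A : Set VE) :
    S.ca A J ≤ S.cc A (.job J) := by
  classical
  refine card_le_card fun i hi => ?_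
  rw [mem_filter, mem_Ico] at hi
  exact mem_filter.2 ⟨mem_range.2 (seg_lt hS hJ hi.1.2), hi.2⟩

theorem cc_ca (hS : S.WF) {J : ℕ} (hJ : J < S.N) (A : Set VE) :
    S.cc A (.job J) + S.h ≤ S.len (.job J) + S.ca A J := by
  classical
  have h1 : Ico ((3 * J + 1) * S.h) ((3 * J + 2) * S.h) ⊆ range (S.len (.job J)) := fun i hi =>
    mem_range.2 (seg_lt hS hJ (mem_Ico.1 hi).2)
  have h2 := card_sdiff_add_card_eq_card h1
  have h3 : S.cc A (.job J) ≤ (range (S.len (.job J)) \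
      Ico ((3 * J + 1) * S.h) ((3 * J + 2) * S.h)).card + S.ca A J := by
    refine le_trans (card_le_card fun i hi => ?_) (card_union_le _ _)
    rw [mem_filter] at hi
    by_cases h : i ∈ Ico ((3 * J + 1) * S.h) ((3 * J + 2) * S.h)
    · exact mem_union_right _ (mem_filter.2 ⟨h, hi.2⟩)
    · exact mem_union_left _ (mem_sdiff.2 ⟨hi.1, h⟩)
  rw [Nat.card_Ico, card_range] at h2
  have h4 : (3 * J + 2) * S.h = (3 * J + 1) * S.h + S.h := by ring
  omega

theorem seg_shots (hS : S.WF) {J : ℕ} (hJ : J < S.N) (j : ℕ) :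
    ((Ico ((3 * J + 1) * S.h) ((3 * J + 2) * S.h)).filter
      (fun i => VE.r (.job J) i ∈ Q.X j)).card ≤ S.k := by
  refine le_trans (card_le_card fun i hi => ?_) (sh_le Q j (.job J))
  rw [mem_filter, mem_Ico] at hi
  exact mem_filter.2 ⟨mem_range.2 (seg_lt hS hJ hi.1.2), hi.2⟩

theorem ca_step (hS : S.WF) {J : ℕ} (hJ : J < S.N) (j : ℕ) :
    S.ca (Q.A (j + 1)) J ≤ S.ca (Q.A j) J + S.k := by
  classical
  refine le_trans ?_ (Nat.add_le_add_left (seg_shots (Q := Q) hS hJ j) _)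
  refine le_trans (card_le_card fun i hi => ?_) (card_union_le _ _)
  rw [mem_filter] at hi
  by_cases h : VE.r (.job J) i ∈ Q.X j
  · exact mem_union_right _ (mem_filter.2 ⟨hi.1, h⟩)
  · exact mem_union_left _ (mem_filter.2 ⟨hi.1, fun h' => hi.2 (Q.a0 j _ h h')⟩)

theorem ca_steps (hS : S.WF) {J : ℕ} (hJ : J < S.N) (j n : ℕ) :
    S.ca (Q.A (j + n)) J ≤ S.ca (Q.A j) J + n * S.k := by
  induction n with
  | zero => simp
  | succ n ih =>
    have := ca_step (Q := Q) hS hJ (j + n)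
    rw [← add_assoc, Nat.succ_mul]
    omega

theorem ca_nd (hS : S.WF) {J j : ℕ} (hJ : J < S.N) (h : VO.al J ∈ Q.B j) :
    S.ca (Q.A (j + 1)) J ≤ S.k := by
  classical
  refine le_trans (card_le_card fun i hi => ?_) (seg_shots (Q := Q) hS hJ j)
  rw [mem_filter] at hi ⊢
  refine ⟨hi.1, ?_⟩
  by_contra hc
  exact hi.2 (Q.a3 j _ _ hc h (eo.al J i hJ (mem_Ico.1 hi.1).1 (mem_Ico.1 hi.1).2))

theorem seg_clean {A : Set VE} {J : ℕ} (h : 0 < S.ca A J) :
    ∃ i, ((3 * J + 1) * S.h ≤ i ∧ i < (3 * J + 2) * S.h) ∧ VE.r (.job J) i ∉ A := by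
  classical
  obtain ⟨i, hi⟩ := card_pos.1 h
  rw [mem_filter, mem_Ico] at hi
  exact ⟨i, hi⟩

theorem seg_dirty {A : Set VE} {J : ℕ} (h : S.ca A J < S.h) :
    ∃ i, ((3 * J + 1) * S.h ≤ i ∧ i < (3 * J + 2) * S.h) ∧ VE.r (.job J) i ∈ A := by
  classical
  by_contra hc
  unfold ca at h
  rw [filter_true_of_mem (p := fun i => VE.r (.job J) i ∉ A)
    (fun i hi hA => hc ⟨i, mem_Ico.1 hi, hA⟩), Nat.card_Ico] at h
  have h4 : (3 * J + 2) * S.h = (3 * J + 1) * S.h + S.h := by ring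
  omega

theorem busy_le {c : Bool} {s y : ℕ} (h : S.busy c s y) : S.sy s y + 3 * S.h ≤ S.L c := by
  obtain ⟨h1, h2, -⟩ := h
  have h3 : 3 * y * S.h + 3 * S.h ≤ S.U := by
    unfold U
    nlinarith
  have h4 : (s + 1) * S.U ≤ S.ln c * S.U := Nat.mul_le_mul_right _ h1
  unfold sy L
  rw [Nat.succ_mul] at h4
  omega

namespace Good

variable {a f : ℕ} (hG : S.Good Q a f)
include hG

/-- A busy symbol burns at once while the marked segment is cleaned. -/
theorem jump (hS : S.WF) {c : Bool} {J j s y : ℕ} (hJ : J < S.N) (h1 : a ≤ j) (h2 : j ≤ f)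
    (hb : S.busy c s y) (hT : ∀ d i, VE.t d i ∉ Q.X (j + 1))
    (h3 : S.ca (Q.A (j + 1)) J < S.h) (h4 : S.k < S.ca (Q.A (j + 2)) J)
    (h5 : S.sy s y ≤ S.F (Q.A (j + 1)) c) (h6 : S.F (Q.A (j + 1)) c < S.sy s y + 3 * S.h) :
    S.sy s y + 3 * S.h ≤ S.F (Q.A (j + 2)) c + 1 := by
  obtain ⟨i, hi, hA⟩ := seg_dirty h3
  have h7 : VO.al J ∈ Q.Y j := by
    by_contra hc
    exact absurd (ca_nd hS hJ (Q.b3 j _ _ hc hA (eo.al J i hJ hi.1 hi.2))) (not_le.2 h4)
  have h8 : VO.gO (.job J) ∈ Q.Y j :=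
    forcedO (.g _) ⟨i, seg_lt hS hJ hi.2, hA⟩ (h4.trans_le (ca_le_cc hS hJ _))
  have h9 : VO.be c s y ∉ Q.Y j := by
    intro h
    have := hG.bO hS h1 h2 [.al J, .gO (.job J), .be c s y] (by simp) (by simp [h, h7, h8])
    simp [wO] at this
  have hU := hS.U_ge
  have hh := hS.h_ge
  have hd := hS.dl_ge
  have hk := hS.k_ge
  have hr := r_ge (S := S)
  have h10 : 0 < S.F (Q.A (j + 1)) c := by
    unfold sy at h5
    omega
  have h11 := Q.b3 j _ _ h9 (F_mem h10) (eo.be c s y _ hb h5 h6)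
  have h12 := busy_le hb
  have : S.sy s y + 3 * S.h - 1 ≤ S.F (Q.A (j + 2)) c := le_F (by omega)
    (Q.a3 (j + 1) _ _ (hT _ _) h11 (eo.be c s y _ hb (by omega) (by omega)))
  omega

theorem align (hS : S.WF) {c : Bool} {J u w s : ℕ} (hJ : J < S.N)
    (h : Sweep Q (.job J) u (w + 2)) (ha : a ≤ u) (hv : w ≤ f) (hs : s + S.sz J ≤ S.ln c)
    (h1 : S.r + s * S.U ≤ S.F (Q.A (u + 1)) c + 2 * S.dl)
    (h2 : S.F (Q.A (u + 1)) c ≤ S.r + s * S.U + 2 * S.dl)
    (h3 : S.F (Q.A w) c ≤ S.F (Q.A (u + 1)) c + S.len (.job J) + 2 * S.dl) :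
    S.ok c s J = true := by
  classical
  have hU := hS.U_ge
  have hh := hS.h_ge
  have hd := hS.dl_ge
  have hk := hS.k_ge
  have hr := r_ge (S := S)
  have hhk : S.h = 10 * (S.k * S.dl) := by unfold Sys.h; ring
  have hX : work (.job J) := trivial
  have h0 : 0 < S.F (Q.A (u + 1)) c := by omega
  have hu : S.ca (Q.A u) J ≤ S.k := (ca_le_cc hS hJ _).trans h.nd
  obtain ⟨b, hb1, hbw, hb2, hb3⟩ : ∃ b, u ≤ b ∧ b ≤ w + 2 ∧ S.ca (Q.A b) J ≤ S.k ∧
      ∀ j, b < j → j ≤ w + 2 → S.k < S.ca (Q.A j) J :=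
    ⟨_, Nat.le_findGreatest (P := fun j => S.ca (Q.A j) J ≤ S.k) h.lt.le hu,
      Nat.findGreatest_le _,
      Nat.findGreatest_spec (P := fun j => S.ca (Q.A j) J ≤ S.k) h.lt.le hu, fun j hj hj' =>
        not_le.1 (Nat.findGreatest_is_greatest (P := fun j => S.ca (Q.A j) J ≤ S.k) hj hj')⟩
  have hca : ∀ n ≤ 4 * S.dl, S.ca (Q.A (b + n)) J + 4 * S.k ≤ S.h := by
    intro n hn
    have h4 := ca_steps (Q := Q) hS hJ b n
    have h5 : n * S.k ≤ 4 * S.dl * S.k := Nat.mul_le_mul_right _ hn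
    have h6 : S.k ≤ S.k * S.dl := Nat.le_mul_of_pos_right _ (by omega)
    nlinarith
  have hlong : b + 3 * S.dl ≤ w := by
    by_contra hc
    have h4 := hca (w + 2 - b) (by omega)
    rw [Nat.add_sub_cancel' hbw] at h4
    obtain ⟨i, hi, hA⟩ := seg_dirty (S := S) (A := Q.A (w + 2)) (J := J) (by omega)
    exact h.cl ⟨i, seg_lt hS hJ hi.2, hA⟩
  have hfirst := h.first
  have hlast := h.last
  have hlo : ∀ j, u < j → j ≤ w → S.cc (Q.A j) (.job J) + S.F (Q.A (u + 1)) c ≤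
      S.F (Q.A j) c + 2 * S.k ∧ 0 < S.F (Q.A j) c := by
    intro j hj hj'
    have := hG.gain hS hX h ha (by omega) (x := u + 1) (y := j) (by omega) hj (by omega) h0
    omega
  have hhi : ∀ j, u < j → j ≤ w → S.F (Q.A j) c ≤
      S.cc (Q.A j) (.job J) + S.F (Q.A (u + 1)) c + 2 * S.dl + 2 * S.k ∧
      S.len (.job J) + S.F (Q.A j) c ≤ S.cc (Q.A j) (.job J) + S.L c + 2 * S.k := by
    intro j hj hj'
    have := hG.gain hS hX h ha (by omega) (x := j) (y := w) hj hj' (by omega) (hlo j hj hj').2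
    have := F_le (S := S) (Q.A w) c
    omega
  obtain ⟨n, hn, hbd⟩ : ∃ n, n + 2 ≤ 3 * S.dl ∧ S.bd (Q.A (b + n + 1)) (.job J) ≤ 1 := by
    by_contra hc
    push Not at hc
    have key : ∀ n, n + 1 ≤ 3 * S.dl → S.cc (Q.A (b + n + 1)) (.job J) + n + S.F (Q.A (b + 1)) c ≤
        S.cc (Q.A (b + 1)) (.job J) + S.F (Q.A (b + n + 1)) c := by
      intro n hn
      induction n with
      | zero => simp
      | succ n ih =>
        have h4 := ih (by omega)
        have h5 := hc n (by omega)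
        have h6 := hlo (b + n + 1) (by omega) (by omega)
        have h7 := hhi (b + n + 1) (by omega) (by omega)
        have h8 := hG.deep hS hX h ha (by omega) (j := b + n + 1) (by omega) (by omega) h6.2
        have h9 := F_free (h8.1 c) h6.2
        have h10 := hca (n + 1) (by omega)
        have h11 := cc_ca hS hJ (Q.A (b + (n + 1)))
        rw [show b + (n + 1) = b + n + 1 from rfl] at h10 h11 ⊢
        omega
    have h4 := key (3 * S.dl - 1) (by omega)
    have h5 := hlo (b + 1) (by omega) (by omega)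
    have h6 := hhi (b + (3 * S.dl - 1) + 1) (by omega) (by omega)
    omega
  have h4 := hca (n + 1) (by omega)
  rw [← add_assoc] at h4
  have h5 := hb3 (b + n + 1) (by omega) (by omega)
  obtain ⟨x, hx, hx'⟩ := seg_clean (lt_of_le_of_lt (Nat.zero_le _) h5)
  obtain ⟨y, hy, hy'⟩ := seg_dirty (S := S) (A := Q.A (b + n + 1)) (J := J) (by omega)
  have hseg := seg_le hS hJ
  have e1 : (3 * J + 1) * S.h = 3 * J * S.h + S.h := by ring
  have e2 : (3 * J + 2) * S.h = 3 * J * S.h + 2 * S.h := by ring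
  have e3 : (3 * J + 3) * S.h = 3 * J * S.h + 3 * S.h := by ring
  have h6 := bd_one hbd (by have := h.nn (b + n + 1) (by omega) (by omega); omega)
    (by omega) hx hy hx' hy'
  have h7 := hlo (b + n + 1) (by omega) (by omega)
  have h8 := hhi (b + n + 1) (by omega) (by omega)
  have h9 := hhi (b + n + 2) (by omega) (by omega)
  have h10 := hG.deep hS hX h ha (by omega) (j := b + n + 1) (by omega) (by omega) h7.2
  have h11 : S.cc (Q.A (b + n + 2)) (.job J) ≤ S.cc (Q.A (b + n + 1)) (.job J) + S.k :=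
    cc_step Q (b + n + 1) (.job J)
  have hz := hS.sz_pos J hJ
  have key : ∀ s' y', S.busy c s' y' → S.sy s' y' ≤ S.F (Q.A (b + n + 1)) c →
      S.F (Q.A (b + n + 1)) c < S.sy s' y' + 3 * S.h →
      S.sy s' y' + 3 * S.h ≤ S.F (Q.A (b + n + 2)) c + 1 := fun s' y' hb =>
    hG.jump hS hJ (j := b + n) (by omega) (by omega) hb h10.1 (by omega)
      (hb3 _ (by omega) (by omega))
  rcases h6 with h6 | h6
  · by_contra hc
    have h12 := key s J ⟨by omega, by omega, fun h => hc h.2⟩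
    unfold sy at h12
    omega
  · exfalso
    obtain ⟨z, hz'⟩ : ∃ z, S.sz J = z + 1 := ⟨S.sz J - 1, by omega⟩
    obtain ⟨y', hy'⟩ : ∃ y', 2 * S.N = y' + J + 1 := ⟨2 * S.N - J - 1, by omega⟩
    have h12 := key (s + z) y' ⟨by omega, by omega, fun h => by omega⟩
    have e4 : S.U = 3 * y' * S.h + 3 * J * S.h + 3 * S.h := by
      unfold U
      rw [show 6 * S.N = 3 * (2 * S.N) by ring, hy']
      ring
    have e5 : S.len (.job J) = z * S.U + S.U := by rw [len_job_eq hJ, hz']; ring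
    unfold sy at h12
    rw [add_mul] at h12
    omega

end Good

end Sys

end Pool.Agent.MP_9694c2_lc.PS
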