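import Pool.Agent.MP_9694c2_lc.PS.CBase

/-!
The moves give completeness.
-/

set_option autoImplicit false

namespace Pool.Agent.MP_9694c2_lc.PS

namespace Glue

open Finset

/-- A win from a state gives a win from every smaller state. -/
theorem win_mono {VE VO : Type} {G : TG VE VO} {k : ℕ} {S T : Set VE × Set VO}
    (h : G.Reach k S (∅, ∅)) (h1 : T.1 ⊆ S.1) (h2 : T.2 ⊆ S.2) : G.Reach k T (∅, ∅) := by
  rcases Relation.ReflTransGen.cases_head h with rfl | ⟨S', h3, h4⟩
  · obtain ⟨A, B⟩ := T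
    obtain rfl : A = ∅ := Set.subset_empty_iff.1 h1
    obtain rfl : B = ∅ := Set.subset_empty_iff.1 h2
    exact TG.Reach.refl _
  · exact (h3.mono h1 h2 rfl).reach.trans h4

variable {S : Sys}

theorem cl_le (c : Bool) (f : ℕ) (D : Finset ℕ) (X : Reg) :
    (S.Pu c f D).cl X ≤ (S.Ph c f D).cl X := by
  cases X with
  | lat d =>
    simp only [Sys.Pu, Sys.Ph, Sys.clD]
    split_ifs <;> simp_all
  | _ => exact le_rfl

theorem win_Ph {c : Bool} {f : ℕ} {D : Finset ℕ} (h : S.G.Reach S.k (S.st (S.Pu c f D)) (∅, ∅)) :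
    S.G.Reach S.k (S.st (S.Ph c f D)) (∅, ∅) := by
  refine win_mono h (fun v hv => ?_) fun v hv => ?_
  · cases v with
    | t d i => exact hv
    | r X i => exact ⟨(cl_le c f D X).trans hv.1, hv.2⟩
    | gE X => exact ⟨hv.1, Nat.le_zero.1 ((cl_le c f D X).trans hv.2.le)⟩
    | _ => exact False.elim hv
  · cases v with
    | gO X => exact ⟨hv.1, Nat.le_zero.1 ((cl_le c f D X).trans hv.2.le)⟩
    | al j => exact hv
    | be d s y => exact hv
    | _ => exact False.elim hv

theorem til (h : CJob) (hS : S.WF) (c : Bool) (l : List ℕ) :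
    ∀ (s : ℕ) (D : Finset ℕ), l.Nodup → (∀ j ∈ l, j < S.N ∧ j ∉ D) →
      s + (l.map S.sz).sum ≤ S.ln c → S.Til c s l →
      S.G.Reach S.k (S.st (S.Ph c (S.r + s * S.U) D))
        (S.st (S.Ph c (S.r + (s + (l.map S.sz).sum) * S.U) (D ∪ l.toFinset))) := by
  induction l with
  | nil =>
    intro s D _ _ _ _
    simpa using TG.Reach.refl _
  | cons j l ih =>
    intro s D hn hm hs ht
    rw [List.nodup_cons] at hn
    rw [List.map_cons, List.sum_cons, ← add_assoc] at hs
    have hj := hm j List.mem_cons_self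
    have e : D ∪ (j :: l).toFinset = insert j D ∪ l.toFinset := by
      rw [List.toFinset_cons, union_insert, insert_union]
    rw [List.map_cons, List.sum_cons, ← add_assoc, e]
    refine (h S hS c s j D hj.1 hj.2 (by omega) ht.1).trans (ih _ _ hn.2 (fun i hi => ?_) hs ht.2)
    have hi' := hm i (List.mem_cons_of_mem _ hi)
    refine ⟨hi'.1, fun z => ?_⟩
    rcases mem_insert.1 z with rfl | z
    · exact hn.1 hi
    · exact hi'.2 z

theorem mem_bank {c : Bool} {j : ℕ} : j ∈ S.bank c ↔ S.inb c j := by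
  rw [Sys.bank, mem_filter, mem_range]
  exact ⟨fun h => h.2, fun h => ⟨h.2.1, h⟩⟩

theorem phase (h : CJob) (hS : S.WF) {c : Bool} {E O : Finset ℕ} (hE : ∀ j ∈ E, S.inb c j)
    (sE : ∑ j ∈ E, S.sz j = S.M) (hO : ∀ j ∈ O, j < S.N ∧ ¬ S.inb c j)
    (sO : ∑ j ∈ O, S.sz j = S.M) (ht : S.Tiling c E O) :
    S.G.Reach S.k (S.st (S.Ph c S.r E)) (S.st (S.Ph c (S.L c) (S.bank c ∪ O))) := by
  obtain ⟨l, hn, hm, ht⟩ := ht
  have hEb : E ⊆ S.bank c := fun j hj => mem_bank.2 (hE j hj)
  have e1 : l.toFinset = (S.bank c \ E) ∪ O := by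
    ext j
    rw [List.mem_toFinset, hm, mem_union, mem_sdiff, mem_bank]
  have e2 : (l.map S.sz).sum = S.ln c := by
    rw [← List.sum_toFinset _ hn, e1, sum_union, sO, ← sE, sum_sdiff hEb, hS.ln_eq]
    exact disjoint_left.2 fun j hj z => (hO j z).2 (mem_bank.1 (mem_sdiff.1 hj).1)
  have e3 : E ∪ l.toFinset = S.bank c ∪ O := by
    rw [e1, ← union_assoc, union_sdiff_of_subset hEb]
  have := til h hS c l 0 E hn (fun j hj => ?_) (by omega) ht
  · rwa [zero_mul, add_zero, zero_add, e2, e3] at this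
  · rcases (hm j).1 hj with z | z
    · exact ⟨z.1.2.1, z.2⟩
    · exact ⟨(hO j z).1, fun y => (hO j z).2 (hE j y)⟩

theorem rest (h : CJob0) (hS : S.WF) (c : Bool) (D T : Finset ℕ) (hT : ∀ j ∈ T, j < S.N) :
    S.G.Reach S.k (S.st (S.Ph c 0 D)) (S.st (S.Ph c 0 (T ∪ D))) := by
  induction T using Finset.induction_on with
  | empty => simpa using TG.Reach.refl _
  | insert j T _ ih =>
    have ih' := ih fun i hi => hT i (mem_insert_of_mem hi)
    rw [insert_union]
    by_cases z : j ∈ T ∪ D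
    · rwa [insert_eq_of_mem z]
    · exact ih'.trans (h S hS c j _ (hT j (mem_insert_self _ _)) z)

theorem not_inb {c : Bool} {j : ℕ} (h : S.inb (!c) j) : ¬ S.inb c j := fun z => by
  have := h.2.2.symm.trans z.2.2
  simp at this

/-- The change of phase. -/
theorem turn (hP : CPush) (hL : CLat) (hS : S.WF) {c : Bool} {O : Finset ℕ}
    (hO : ∀ j ∈ O, S.inb (!c) j) :
    S.G.Reach S.k (S.st (S.Pu c (S.L c) (S.bank c ∪ O))) (S.st (S.Ph (!c) S.r O)) := by
  have e : (S.bank c ∪ O) \ S.bank c = O :=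
    union_sdiff_cancel_left (disjoint_left.2 fun j hj z => not_inb (hO j z) (mem_bank.1 hj))
  have := hL S hS c (S.bank c ∪ O)
  rw [e] at this
  exact (hP S hS c _ _ le_rfl subset_union_left).trans this

end Glue

open Glue in
theorem cGlue : CGlue := by
  intro hJ hJ0 hP hL hL0 hE h1 h2 S hS hA
  obtain ⟨c, E, hR, hT⟩ := hA
  have key : (∀ j ∈ E, S.inb c j) ∧ ∑ j ∈ E, S.sz j = S.M ∧
      (S.G.Reach S.k (S.st (S.Ph c S.r E)) (∅, ∅) → S.G.Win S.k) := by
    clear hT
    induction hR with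
    | init =>
      have h0 : ∀ j ∈ S.E0, S.inb false j := fun j hj => by
        rw [Sys.E0, Finset.mem_filter, Finset.mem_range] at hj
        exact hS.e0_inb j hj.1 hj.2
      exact ⟨h0, hS.e0_sum, fun h =>
        (h1 S hS).trans ((h2 S hS).trans ((turn hP hL hS (c := true) h0).trans h))⟩
    | step c E O _ hO sO ht ih =>
      exact ⟨hO, sO, fun h => ih.2.2
        ((phase hJ hS ih.1 ih.2.1 (fun j hj => ⟨(hO j hj).2.1, not_inb (hO j hj)⟩) sO ht).trans
          (win_Ph ((turn hP hL hS hO).trans h)))⟩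
  refine key.2.2 ((phase hJ hS key.1 key.2.1 (fun j hj => ?_) (by simp [hS.sz_zero]) hT).trans
    (win_Ph ((hP S hS c _ _ le_rfl Finset.subset_union_left).trans
      ((hL0 S hS c _ (by simp)).trans
        ((rest hJ0 hS c _ (Finset.range S.N) fun j hj => Finset.mem_range.1 hj).trans
          (hE S hS c _ Finset.subset_union_left))))))
  obtain rfl := Finset.mem_singleton.1 hj
  exact ⟨hS.N_pos, fun z => lt_irrefl _ z.1⟩

end Pool.Agent.MP_9694c2_lc.PS
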