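import Pool.Agent.MP_9694c2_lc.PS.CBase

/-!
Doing a job.
-/

set_option autoImplicit false

namespace Pool.Agent.MP_9694c2_lc.PS

namespace CJ

variable {S : Sys}

/-- The state while job `j` is swept. -/
def J (S : Sys) (c : Bool) (g : ℕ) (D : Finset ℕ) (j i : ℕ) : Cf :=
  ⟨fun _ => 0, fun d => if d = c then g else 0,
    fun X => if X = .job j then i else S.clD D (fun _ => true) true X, ∅, ∅⟩

theorem cl0 {D : Finset ℕ} {X : Reg} {m : ℕ} (h1 : S.clD D (fun _ => true) true X ≤ m)
    (h2 : m < S.len X) : S.clD D (fun _ => true) true X = 0 ∧ S.vR X ∧ X ≠ .P ∧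
      ∀ c, X ≠ .lat c := by
  cases X with
  | job j =>
    have hj : j < S.N := by
      by_contra h
      simp [Sys.len, h] at h2
    by_cases h : j ∈ D
    · simp only [Sys.clD, h, if_true] at h1
      omega
    · simp [Sys.clD, Sys.vR, h, hj]
  | lat c => simp only [Sys.clD, Sys.len, if_true] at h1 h2; omega
  | P => simp only [Sys.clD, Sys.len, if_true] at h1 h2; omega
  | Om => simp [Sys.clD, Sys.vR]

theorem start {c : Bool} {g j : ℕ} {D : Finset ℕ} (h : j ∉ D) : J S c g D j 0 = S.Ph c g D := by
  simp only [J, Sys.Ph, Cf.mk.injEq, true_and, and_true]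
  funext X
  split_ifs with h1
  · simp [h1, Sys.clD, h]
  · rfl

theorem stop {c : Bool} {g j : ℕ} {D : Finset ℕ} :
    J S c g D j (S.len (.job j)) = S.Ph c g (insert j D) := by
  simp only [J, Sys.Ph, Cf.mk.injEq, true_and, and_true]
  funext X
  split_ifs with h1
  · simp [h1, Sys.clD]
  · cases X with
    | job i =>
      have : i ≠ j := fun h => h1 (by rw [h])
      simp [Sys.clD, this]
    | _ => rfl

theorem round (hS : S.WF) {c : Bool} {j g g' i : ℕ} {D : Finset ℕ} {z : VO} (hj : j < S.N)
    (hz : S.wO z ≤ 7) (hg : g ≤ g') (hg1 : 0 < g → g + 1 ≤ g') (hL : g ≤ S.L c)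
    (hal : (3 * j + 1) * S.h ≤ i → i < (3 * j + 2) * S.h → z = .al j)
    (hbe : ∀ s y, S.busy c s y → S.sy s y < g' → g' < S.sy s y + 3 * S.h → z = .be c s y) :
    S.G.Rnd S.k (S.st (J S c g D j i)) (S.st (J S c g' D j (i + 1))) := by
  have hk := hS.k_ge
  have hh := hS.h_pos
  have mt : ∀ g i d m, VE.t d m ∈ (S.st (J S c g D j i)).1 ↔ d = c ∧ m < g := by
    intro g i d m
    by_cases h : d = c <;> simp [Sys.st, Sys.dE, J, h]
  have mr : ∀ g i X m, VE.r X m ∈ (S.st (J S c g D j i)).1 ↔
      (if X = .job j then i else S.clD D (fun _ => true) true X) ≤ m ∧ m < S.len X :=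
    fun _ _ _ _ => Iff.rfl
  have mg : ∀ g i X, VE.gE X ∈ (S.st (J S c g D j i)).1 ↔
      S.vR X ∧ (if X = .job j then i else S.clD D (fun _ => true) true X) = 0 :=
    fun _ _ _ => Iff.rfl
  have mo : ∀ g i X, VO.gO X ∈ (S.st (J S c g D j i)).2 ↔
      S.vR X ∧ (if X = .job j then i else S.clD D (fun _ => true) true X) = 0 :=
    fun _ _ _ => Iff.rfl
  have ma : ∀ g i a, VO.al a ∈ (S.st (J S c g D j i)).2 ↔ a < S.N ∧
      (if Reg.job a = .job j then i else S.clD D (fun _ => true) true (.job a)) ≤
        (3 * a + 1) * S.h := fun _ _ _ => Iff.rfl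
  have mb : ∀ g i d s y, VO.be d s y ∈ (S.st (J S c g D j i)).2 ↔
      S.busy d s y ∧ 0 ≤ S.sy s y ∧ S.sy s y + 3 * S.h ≤ if d = c then g else 0 :=
    fun _ _ _ _ _ => Iff.rfl
  have key : ∀ X m, m < S.len X → (X = .job j → m ≠ i) →
      (if X = .job j then i else S.clD D (fun _ => true) true X) ≤ m →
      VE.r X m ∈ (S.st (J S c g' D j (i + 1))).1 := by
    intro X m h1 h2 h3
    rw [mr]
    split_ifs at h3 ⊢ with h
    · have := h2 h
      omega
    · exact ⟨h3, h1⟩
  refine TG.rnd_of_lists [.s false, .s true, .lam false, .lam true, .uE, .gE (.job j),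
    .r (.job j) (i - 1), .r (.job j) i] [.om false, .om true, .sg, .pi, .uO, .gO (.job j), z]
    ?_ ?_ ?_ ?_ ?_ ?_ ?_ ?_ ?_ ?_
  · simp [Sys.G, Sys.wE]
    omega
  · simp only [Sys.G, List.map_cons, List.sum_cons, List.map_nil, List.sum_nil]
    generalize S.wO z = w at hz
    simp only [Sys.wO]
    omega
  · intro v hv h
    cases v with
    | t d m => rw [mt] at h ⊢; exact ⟨h.1, by omega⟩
    | r X m => exact key X m h.2 (by rintro rfl rfl; simp at hv) h.1
    | gE X =>
      have : X ≠ .job j := by rintro rfl; simp at hv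
      rw [mg, if_neg this] at h ⊢
      exact h
    | _ => exact h
  · intro u v he hv h
    cases he with
    | tt d m _ => rw [mt] at h ⊢; exact ⟨h.1, by omega⟩
    | rr X m hm => exact key X _ hm (by rintro rfl rfl; simp at hv) (h.1.trans (by omega))
    | ap a X m ha hm =>
      cases ha with
      | g => exact key X _ hm (by rintro rfl rfl; simp at hv) (h.2.trans_le (by omega))
      | _ => exact h.elim
    | _ => exact h.elim
  · intro u v he hv h
    cases he with
    | tt d m _ => rw [mt] at h ⊢; exact ⟨h.1, by omega⟩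
    | rr X m hm =>
      refine key X _ (by omega) (by rintro rfl rfl; simp at hv) ?_
      rw [mr] at h
      split_ifs at h ⊢ with h1
      · have : m ≠ i - 1 := by rintro rfl; simp [h1] at hv
        omega
      · rw [(cl0 h.1 h.2).1]
        omega
    | ap a X m ha hm =>
      rw [mr] at h
      cases ha with
      | g =>
        have : X ≠ .job j := by rintro rfl; simp at hv
        rw [if_neg this] at h
        rw [mg, if_neg this]
        exact ⟨(cl0 h.1 h.2).2.1, (cl0 h.1 h.2).1⟩
      | pP =>
        rw [if_neg (by simp)] at h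
        exact absurd rfl (cl0 h.1 h.2).2.2.1
      | sj d => cases d <;> simp at hv
      | sl d => cases d <;> simp at hv
      | sP d => cases d <;> simp at hv
      | ll d => cases d <;> simp at hv
      | lO d => cases d <;> simp at hv
      | uP => simp at hv
      | uO => simp at hv
    | st d => cases d <;> simp at hv
    | sl d => cases d <;> simp at hv
    | pl d m hm =>
      rw [mt] at h
      obtain ⟨rfl, h⟩ := h
      omega
  · intro u v he hv h
    cases he with
    | ap b X m hb hm =>
      cases hb with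
      | g => exact key X _ hm (by rintro rfl rfl; simp at hv) (h.2.trans_le (by omega))
      | _ => exact h.elim
    | al a m ha h1 h2 =>
      have := Sys.seg_le' hS ha
      refine key _ _ (by nlinarith) (fun e => ?_) (h.2.trans h1)
      rintro rfl
      simp [e] at hv
    | om => exact h.elim
    | be d s y m hb h1 h2 =>
      rw [mb] at h
      rw [mt]
      split_ifs at h with h3
      · exact ⟨h3, by omega⟩
      · omega
  · intro v hv h
    cases v with
    | gO X =>
      have : X ≠ .job j := by rintro rfl; simp at hv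
      rw [mo, if_neg this] at h ⊢
      exact h
    | al a =>
      rw [ma] at h ⊢
      split_ifs at h ⊢ with h1
      · obtain rfl : a = j := by simpa using h1
        refine ⟨h.1, ?_⟩
        by_contra hc
        have := hal (by omega) (by nlinarith [h.2])
        simp [this] at hv
      · exact h
    | be d s y =>
      rw [mb] at h ⊢
      split_ifs at h ⊢ with h1
      · exact ⟨h.1, h.2.1, by omega⟩
      · exact h
    | _ => exact h
  · intro u v he hv h
    cases he
    exact h.elim
  · intro u v he hv h
    cases he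
    exact h.elim
  · intro u v he hv h
    cases he with
    | ap b X m hb hm =>
      rw [mr] at h
      cases hb with
      | g =>
        have : X ≠ .job j := by rintro rfl; simp at hv
        rw [if_neg this] at h
        rw [mo, if_neg this]
        exact ⟨(cl0 h.1 h.2).2.1, (cl0 h.1 h.2).1⟩
      | pl d =>
        rw [if_neg (by simp)] at h
        exact absurd rfl ((cl0 h.1 h.2).2.2.2 d)
      | pP =>
        rw [if_neg (by simp)] at h
        exact absurd rfl (cl0 h.1 h.2).2.2.1
      | oj d => cases d <;> simp at hv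
      | oO d => cases d <;> simp at hv
      | _ => simp at hv
    | al a m ha h1 h2 =>
      rw [mr] at h
      rw [ma]
      split_ifs at h ⊢ with h3
      · obtain rfl : a = j := by simpa using h3
        refine ⟨ha, ?_⟩
        by_contra hc
        have := hal (by omega) (by omega)
        simp [this] at hv
      · rw [(cl0 h.1 h.2).1]
        exact ⟨ha, by omega⟩
    | om d e => cases e <;> simp at hv
    | be d s y m hb h1 h2 =>
      rw [mt] at h
      obtain ⟨rfl, h⟩ := h
      rw [mb, if_pos rfl]
      refine ⟨hb, by omega, ?_⟩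
      by_contra hc
      have := hbe s y hb (by omega) (by omega)
      simp [this] at hv

end CJ

theorem cJob0 : CJob0 := by
  intro S hS c j D hj hD
  rw [← CJ.start hD, ← CJ.stop]
  exact TG.reach_iter (fun i => S.st (CJ.J S c 0 D j i)) _ fun i _ =>
    CJ.round (z := .al j) hS hj le_rfl le_rfl (by omega) (by omega) (fun _ _ => rfl)
      fun _ _ _ h => by omega

theorem cJob : CJob := by
  intro S hS c s j D hj hD hs hok
  have e : S.r + (s + S.sz j) * S.U = S.r + s * S.U + S.len (.job j) := by
    rw [Sys.len_job_eq hj]; ring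
  have hL : S.r + s * S.U + S.len (.job j) ≤ S.L c := by
    rw [← e]
    exact Nat.add_le_add_left (Nat.mul_le_mul_right _ hs) _
  rw [← CJ.start hD, ← CJ.stop, e]
  refine TG.reach_iter (fun i => S.st (CJ.J S c (S.r + s * S.U + i) D j i)) _ fun i hi => ?_
  by_cases ha : (3 * j + 1) * S.h ≤ i ∧ i < (3 * j + 2) * S.h
  · refine CJ.round (z := .al j) hS hj le_rfl (by omega) (by omega) (by omega) (fun _ _ => rfl)
      fun s' y hb h1 h2 => ?_
    obtain ⟨rfl, rfl⟩ := Sys.sym_unique (S := S) (i := S.r + s * S.U + i) (s := s') (s' := s)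
      (y' := j) hb.2.1 (by omega) (by omega) (by omega)
      (by unfold Sys.sy; nlinarith [ha.1]) (by unfold Sys.sy; nlinarith [ha.2])
    exact absurd ⟨hj, hok⟩ hb.2.2
  · obtain ⟨s0, y0, h0, h1, h2⟩ := Sys.exists_sym hS (i := S.r + s * S.U + i) (by omega)
    refine CJ.round (z := .be c s0 y0) hS hj le_rfl (by omega) (by omega) (by omega)
      (fun h3 h4 => absurd ⟨h3, h4⟩ ha) fun s' y hb h3 h4 => ?_
    obtain ⟨rfl, rfl⟩ := Sys.sym_unique (s := s') hb.2.1 h0 (by omega) (by omega) h1 h2
    rfl

end Pool.Agent.MP_9694c2_lc.PS
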