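import Pool.Agent.MP_9694c2_lc.PS.CBase

/-!
Cleaning a latch.
-/

set_option autoImplicit false

namespace Pool.Agent.MP_9694c2_lc.PS

namespace Sys

variable (S : Sys)

/-- The clean parts of the rails while latch `c` is swept. -/
def clatCl (c : Bool) (D : Finset ℕ) (i : ℕ) (X : Reg) : ℕ :=
  if X = .lat c then i else S.clD D (fun _ => true) true X

/-- The states while latch `c` is swept, with fire if `b`. -/
def clatC (c b : Bool) (D : Finset ℕ) (i : ℕ) : Cf :=
  ⟨fun _ => 0, fun d => if b = true ∧ d = !c then i else 0, S.clatCl c D i,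
    {v | v = .lam c ∧ i = 0}, {v | v = .om c ∧ b = true ∧ i < S.r}⟩

variable {S}

theorem clat_lat (c : Bool) (D : Finset ℕ) (i : ℕ) : S.clatCl c D i (.lat c) = i := by
  simp [clatCl]

theorem clat_ne {c : Bool} {D : Finset ℕ} {X : Reg} (h : X ≠ .lat c) (i i' : ℕ) :
    S.clatCl c D i X = S.clatCl c D i' X := by
  simp [clatCl, h]

theorem clat_two {c : Bool} {D : Finset ℕ} {X : Reg} (h : X ≠ .lat c) (i : ℕ) :
    S.clatCl c D i X = 0 ∨ S.clatCl c D i X = S.len X := by
  rw [clatCl, if_neg h]
  cases X with
  | job j => by_cases hj : j ∈ D <;> simp [clD, hj]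
  | lat d => simp [clD, len]
  | P => simp [clD, len]
  | Om => simp [clD]

theorem clat_P (c : Bool) (D : Finset ℕ) (i : ℕ) : S.clatCl c D i .P = S.len .P := by
  simp [clatCl, clD, len]

theorem clat_Om (c : Bool) (D : Finset ℕ) (i : ℕ) : S.clatCl c D i .Om = 0 := by
  simp [clatCl, clD]

theorem clat_lat' {c d : Bool} (h : d ≠ c) (D : Finset ℕ) (i : ℕ) :
    S.clatCl c D i (.lat d) = S.len (.lat d) := by
  simp [clatCl, clD, len, h]

theorem clat_in {c : Bool} {D : Finset ℕ} {j : ℕ} (h : j ∈ D) (i : ℕ) :
    S.clatCl c D i (.job j) = S.len (.job j) := by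
  simp [clatCl, clD, h]

theorem clat_out {c : Bool} {D : Finset ℕ} {j : ℕ} (h : j ∉ D) (i : ℕ) :
    S.clatCl c D i (.job j) = 0 := by
  simp [clatCl, clD, h]

theorem clat_vR {X : Reg} {j : ℕ} (h : j < S.len X) : S.vR X := by
  cases X with
  | job j' =>
    by_contra h'
    simp only [vR] at h'
    simp [len, h'] at h
  | lat d => trivial
  | P => trivial
  | Om => trivial

/-- A vertex of a rail that stays dirty. -/
theorem clat_rail {c : Bool} {D : Finset ℕ} {X : Reg} {i j : ℕ}
    (h1 : VE.r X j ≠ .r (.lat c) (i - 1)) (h2 : VE.r X j ≠ .r (.lat c) i) (hj : j < S.len X)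
    (h : S.clatCl c D i X ≤ j ∨ (S.clatCl c D i X ≤ j + 1 ∧ j + 1 < S.len X)) :
    S.clatCl c D (i + 1) X ≤ j := by
  by_cases hX : X = .lat c
  · subst hX
    rw [clat_lat] at h ⊢
    have h3 : j ≠ i - 1 := fun h => h1 (by rw [h])
    have h4 : j ≠ i := fun h => h2 (by rw [h])
    omega
  · rw [clat_ne hX (i + 1) i]
    rcases clat_two (S := S) (D := D) hX i with h3 | h3 <;> omega

/-- A dirty rail other than the latch is dirty everywhere. -/
theorem clat_zero {c : Bool} {D : Finset ℕ} {X : Reg} {i j : ℕ} (i' : ℕ) (hX : X ≠ .lat c)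
    (h : S.clatCl c D i X ≤ j) (hj : j < S.len X) : S.vR X ∧ S.clatCl c D i' X = 0 := by
  refine ⟨clat_vR hj, ?_⟩
  rw [clat_ne hX i' i]
  rcases clat_two (S := S) (D := D) hX i with h3 | h3 <;> omega

/-- One round of the sweep. -/
theorem clat_rnd (hS : S.WF) (c b : Bool) (D : Finset ℕ) (i : ℕ) (hi : i < S.r)
    (hD1 : b = true → ∀ j, S.inb c j → j ∉ D) (hD0 : b = false → 0 ∈ D) (Y : List VO)
    (hY : (Y.map S.wO).sum ≤ S.k) (y1 : VO.p c ∈ Y) (y2 : VO.sg ∈ Y) (y3 : VO.uO ∈ Y)
    (y4 : VO.om (!c) ∈ Y) (y5 : b = false ∨ i + 1 = S.r → VO.om c ∈ Y)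
    (y6 : b = true → VO.pi ∈ Y) (y7 : i + 1 < S.r → VO.gO (.lat c) ∈ Y) :
    S.G.Rnd S.k (S.st (S.clatC c b D i)) (S.st (S.clatC c b D (i + 1))) := by
  have hk := hS.k_ge
  have hh := hS.h_pos
  have hU := hS.U_ge
  have hr := r_ge (S := S)
  have hL := L_ge (S := S)
  have hlen : S.len (.lat c) = S.r := rfl
  have hom : ∀ d, VO.om d ∉ Y → S.dO (S.clatC c b D (i + 1)) (.om d) := by
    intro d hd
    have h1 : d = c := by
      by_contra h
      apply hd
      have : d = !c := by cases c <;> cases d <;> simp_all
      rwa [this]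
    subst h1
    have h2 : ¬ (b = false ∨ i + 1 = S.r) := fun h => hd (y5 h)
    refine ⟨rfl, by simpa using fun h => h2 (Or.inl h), ?_⟩
    have := fun h => h2 (Or.inr h)
    omega
  have hbe : ∀ d s y j, j ≤ S.r → ¬ S.dO (S.clatC c b D j) (.be d s y) := by
    rintro d s y j hj ⟨h1, -, h3⟩
    have h4 := busy_le' h1
    simp only [clatC] at h3
    split_ifs at h3 <;> omega
  refine TG.rnd_of_lists [.s false, .s true, .lam false, .lam true, .uE, .gE (.lat c),
    .r (.lat c) (i - 1), .r (.lat c) i] Y ?_ hY ?_ ?_ ?_ ?_ ?_ ?_ ?_ ?_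
  · simp only [G, List.map_cons, List.map_nil, List.sum_cons, List.sum_nil, wE]
    omega
  · intro v hv h
    simp only [List.mem_cons, List.not_mem_nil, or_false, not_or] at hv
    obtain ⟨v1, v2, v3, v4, v5, v6, v7, v8⟩ := hv
    change S.dE _ v at h
    change S.dE _ v
    cases v with
    | s d => cases d <;> simp_all
    | lam d => cases d <;> simp_all
    | pT => simp [dE, clatC] at h
    | uE => simp_all
    | t d j =>
      simp only [dE, clatC] at h ⊢
      split_ifs at h ⊢ <;> omega
    | r X j => exact ⟨clat_rail v7 v8 h.2 (Or.inl h.1), h.2⟩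
    | gE X =>
      have hX : X ≠ .lat c := fun h => v6 (by rw [h])
      exact ⟨h.1, (clat_ne hX _ _).trans h.2⟩
  · intro u v e hv h
    simp only [List.mem_cons, List.not_mem_nil, or_false, not_or] at hv
    obtain ⟨v1, v2, v3, v4, v5, v6, v7, v8⟩ := hv
    change S.dE _ u at h
    change S.dE _ v
    change S.ee u v at e
    cases e with
    | tt d j hj =>
      simp only [dE, clatC] at h ⊢
      split_ifs at h ⊢ <;> omega
    | rr X j hj => exact ⟨clat_rail v7 v8 hj (Or.inl (h.1.trans (Nat.le_succ j))), hj⟩
    | ap a X j ha hj =>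
      refine ⟨clat_rail v7 v8 hj (Or.inl ?_), hj⟩
      cases ha with
      | sj d j' h' => simp [dE, clatC] at h
      | sl d d' h' => simp [dE, clatC] at h
      | sP d => simp [dE, clatC] at h
      | ll d =>
        simp only [dE, clatC, Set.mem_ofPred_eq, VE.lam.injEq] at h
        rw [h.1, clat_lat]
        omega
      | lO d => simp [clat_Om]
      | pP => simp [dE, clatC] at h
      | uP => simp [dE, clatC] at h
      | uO => simp [clat_Om]
      | g X => exact (le_of_eq h.2).trans (Nat.zero_le _)
    | st d d' j h' hj => simp [dE, clatC] at h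
    | sl d j hj => simp [dE, clatC] at h
    | pl d j hj => simp [dE, clatC] at h
  · intro u v e hv h
    simp only [List.mem_cons, List.not_mem_nil, or_false, not_or] at hv
    obtain ⟨v1, v2, v3, v4, v5, v6, v7, v8⟩ := hv
    change S.dE _ u at h
    change S.dE _ v
    change S.ee v u at e
    cases e with
    | tt d j hj =>
      simp only [dE, clatC] at h ⊢
      split_ifs at h ⊢ <;> omega
    | rr X j hj => exact ⟨clat_rail v7 v8 (by omega) (Or.inr ⟨h.1, hj⟩), by omega⟩
    | ap a X j ha hj =>
      cases ha with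
      | sj d j' h' => cases d <;> simp_all
      | sl d d' h' => cases d <;> simp_all
      | sP d => cases d <;> simp_all
      | ll d => cases d <;> simp_all
      | lO d => cases d <;> simp_all
      | pP =>
        have h1 : S.clatCl c D i .P ≤ j := h.1
        rw [clat_P] at h1
        omega
      | uP => simp_all
      | uO => simp_all
      | g X => exact clat_zero _ (fun h => v6 (by rw [h])) h.1 hj
    | st d d' j h' hj => cases d <;> simp_all
    | sl d j hj => cases d <;> simp_all
    | pl d j hj =>
      have := hL d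
      simp only [dE, clatC] at h
      split_ifs at h <;> omega
  · intro u v e hv h
    simp only [List.mem_cons, List.not_mem_nil, or_false, not_or] at hv
    obtain ⟨v1, v2, v3, v4, v5, v6, v7, v8⟩ := hv
    change S.dO _ u at h
    change S.dE _ v
    change S.eo v u at e
    cases e with
    | ap a X j ha hj =>
      refine ⟨clat_rail v7 v8 hj (Or.inl ?_), hj⟩
      cases ha with
      | oj d j' h' =>
        simp only [dO, clatC, Set.mem_ofPred_eq, VO.om.injEq] at h
        obtain ⟨rfl, h1, -⟩ := h
        rw [clat_out (hD1 h1 _ h')]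
        omega
      | oO d => simp [clat_Om]
      | g0 => simp [dO, clatC] at h
      | gj j' h' h'' => simp [dO, clatC] at h
      | gl => simp [dO, clatC] at h
      | gO => simp [dO, clatC] at h
      | i0 => simp [dO, clatC] at h
      | iP => simp [dO, clatC] at h
      | pl d => simp [dO, clatC] at h
      | pP d => simp [dO, clatC] at h
      | uP => simp [dO, clatC] at h
      | uO => simp [dO, clatC] at h
      | g X => exact (le_of_eq h.2).trans (Nat.zero_le _)
    | al j j' hj h1 h2 =>
      have h3 := seg_le' hS hj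
      have h4 : j' < S.len (.job j) := by nlinarith
      exact ⟨clat_rail v7 v8 h4 (Or.inl (h.2.trans h1)), h4⟩
    | om d d' h' =>
      simp only [dO, clatC, Set.mem_ofPred_eq, VO.om.injEq] at h
      obtain ⟨rfl, h1, -⟩ := h
      have h2 : d = !d' := by rw [h', Bool.not_not]
      simp only [dE, clatC]
      rw [if_pos ⟨h1, h2⟩]
      omega
    | be d s y j h' h1 h2 => exact absurd h (hbe _ _ _ _ hi.le)
  · intro v hv h
    change S.dO _ v at h
    change S.dO _ v
    cases v with
    | om d => exact hom d hv
    | sg => exact absurd y2 hv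
    | pi => simp [dO, clatC] at h
    | p d => simp [dO, clatC] at h
    | uO => exact absurd y3 hv
    | gO X =>
      by_cases hX : X = .lat c
      · subst hX
        have h1 : S.clatCl c D i (.lat c) = 0 := h.2
        rw [clat_lat] at h1
        exact absurd (y7 (by omega)) hv
      · exact ⟨h.1, (clat_ne hX _ _).trans h.2⟩
    | al j => exact ⟨h.1, (clat_ne (c := c) (X := .job j) (by simp) (i + 1) i).trans_le h.2⟩
    | be d s y => exact absurd h (hbe _ _ _ _ hi.le)
  · intro u v e hv h
    change S.dO _ u at h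
    change oo u v at e
    cases e with
    | op d =>
      simp only [dO, clatC, Set.mem_ofPred_eq, VO.om.injEq] at h
      obtain ⟨rfl, -⟩ := h
      exact absurd y1 hv
  · intro u v e hv h
    change S.dO _ u at h
    change oo v u at e
    cases e with
    | op d => simp [dO, clatC] at h
  · intro u v e hv h
    change S.dE _ u at h
    change S.dO _ v
    change S.eo u v at e
    cases e with
    | ap a X j ha hj =>
      have hP : S.clatCl c D (i + 1) .P ≤ j → j < S.len .P → False := by
        rw [clat_P]
        omega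
      cases ha with
      | oj d j' h' => exact hom d hv
      | oO d => exact hom d hv
      | g0 => exact absurd y2 hv
      | gj j' h' h'' => exact absurd y2 hv
      | gl => exact absurd y2 hv
      | gO => exact absurd y2 hv
      | i0 =>
        cases b with
        | true => exact absurd (y6 rfl) hv
        | false =>
          have h1 : S.clatCl c D (i + 1) (.job 0) ≤ j := h.1
          rw [clat_in (hD0 rfl)] at h1
          omega
      | iP => exact (hP h.1 hj).elim
      | pl d =>
        by_cases hd : d = c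
        · subst hd
          exact absurd y1 hv
        · have h1 : S.clatCl c D (i + 1) (.lat d) ≤ j := h.1
          rw [clat_lat' hd] at h1
          omega
      | pP d => exact (hP h.1 hj).elim
      | uP => exact absurd y3 hv
      | uO => exact absurd y3 hv
      | g X =>
        by_cases hX : X = .lat c
        · subst hX
          have h1 : S.clatCl c D (i + 1) (.lat c) ≤ j := h.1
          rw [clat_lat] at h1
          exact absurd (y7 (by omega)) hv
        · exact clat_zero _ hX h.1 hj
    | al j j' hj h1 h2 =>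
      exact ⟨hj, (clat_zero (c := c) (D := D) (X := .job j) (i := i + 1) (i + 1) (by simp)
        h.1 h.2).2.trans_le (Nat.zero_le _)⟩
    | om d d' h' => exact hom d' hv
    | be d s y j h' h1 h2 =>
      have h4 := busy_le' h'
      simp only [dE, clatC] at h
      split_ifs at h <;> omega

/-- The start of the sweep. -/
theorem clat_start (c b : Bool) {D D' : Finset ℕ} (hD : D' ⊆ D) (hh : 0 < S.h) :
    (S.st (S.Pu c 0 D)).1 ⊆ (S.st (S.clatC c b D' 0)).1 ∧
      (S.st (S.Pu c 0 D)).2 ⊆ (S.st (S.clatC c b D' 0)).2 := by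
  have hcl : ∀ X, S.clatCl c D' 0 X ≤ S.clD D (fun d => d != c) true X := by
    intro X
    cases X with
    | job j =>
      by_cases hj : j ∈ D'
      · simp [clatCl, clD, hj, hD hj]
      · simp [clatCl, clD, hj]
    | lat d => by_cases hd : d = c <;> simp [clatCl, clD, hd]
    | P => simp [clatCl, clD]
    | Om => simp [clatCl, clD]
  constructor
  · intro v h
    change S.dE _ v at h
    change S.dE _ v
    cases v with
    | s d => simp [dE, Pu] at h
    | lam d => simpa [dE, Pu, clatC] using h
    | pT => simp [dE, Pu] at h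
    | uE => simp [dE, Pu] at h
    | t d j => simp [dE, Pu] at h
    | r X j => exact ⟨(hcl X).trans h.1, h.2⟩
    | gE X => exact ⟨h.1, Nat.eq_zero_of_le_zero ((hcl X).trans_eq h.2)⟩
  · intro v h
    change S.dO _ v at h
    change S.dO _ v
    cases v with
    | om d => simp [dO, Pu] at h
    | sg => simp [dO, Pu] at h
    | pi => simp [dO, Pu] at h
    | p d => simp [dO, Pu] at h
    | uO => simp [dO, Pu] at h
    | gO X => exact ⟨h.1, Nat.eq_zero_of_le_zero ((hcl X).trans_eq h.2)⟩
    | al j => exact ⟨h.1, (hcl (.job j)).trans h.2⟩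
    | be d s y =>
      have h1 := h.2.2
      simp only [Pu, ite_self] at h1
      omega

theorem clat_cl_end (c : Bool) (D : Finset ℕ) :
    S.clatCl c D S.r = S.clD D (fun _ => true) true := by
  funext X
  by_cases hX : X = .lat c
  · subst hX
    simp [clatCl, clD]
  · simp [clatCl, hX]

theorem clat_end1 (c : Bool) (D : Finset ℕ) (hr : 0 < S.r) :
    S.clatC c true D S.r = S.Ph (!c) S.r D := by
  simp [clatC, Ph, clat_cl_end, hr.ne']

theorem clat_end0 (c : Bool) (D : Finset ℕ) (hr : 0 < S.r) :
    S.clatC c false D S.r = S.Ph c 0 D := by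
  simp [clatC, Ph, clat_cl_end, hr.ne']

end Sys

theorem cLat : CLat := by
  intro S hS c D
  have hk := hS.k_ge
  have hh := hS.h_pos
  have hU := hS.U_ge
  have hr := Sys.r_ge (S := S)
  have h0 := Sys.clat_start (S := S) c true (Finset.sdiff_subset (s := D) (t := S.bank c)) hh
  refine TG.reach_iter' (fun i => S.st (S.clatC c true (D \ S.bank c) i)) S.r (by omega)
    (fun i hi => ?_) h0.1 h0.2 (by rw [Sys.clat_end1 _ _ (by omega)])
  have hD : true = true → ∀ j, S.inb c j → j ∉ D \ S.bank c := by
    intro _ j hj h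
    exact (Finset.mem_sdiff.1 h).2
      (Finset.mem_filter.2 ⟨Finset.mem_range.2 hj.2.1, hj⟩)
  by_cases h : i + 1 = S.r
  · refine Sys.clat_rnd hS c true _ i hi hD (by simp)
      [.p c, .om c, .om (!c), .sg, .pi, .uO] ?_ (by simp) (by simp) (by simp) (by simp)
      (by simp) (by simp) (by omega)
    simp only [List.map_cons, List.map_nil, List.sum_cons, List.sum_nil, Sys.wO]
    omega
  · refine Sys.clat_rnd hS c true _ i hi hD (by simp)
      [.p c, .gO (.lat c), .om (!c), .sg, .pi, .uO] ?_ (by simp) (by simp) (by simp) (by simp)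
      (by simp [h]) (by simp) (by simp)
    simp only [List.map_cons, List.map_nil, List.sum_cons, List.sum_nil, Sys.wO]
    omega

theorem cLat0 : CLat0 := by
  intro S hS c D hD
  have hk := hS.k_ge
  have hh := hS.h_pos
  have hU := hS.U_ge
  have hr := Sys.r_ge (S := S)
  have h0 := Sys.clat_start (S := S) c false (Finset.Subset.refl D) hh
  refine TG.reach_iter' (fun i => S.st (S.clatC c false D i)) S.r (by omega)
    (fun i hi => ?_) h0.1 h0.2 (by rw [Sys.clat_end0 _ _ (by omega)])
  refine Sys.clat_rnd hS c false _ i hi (by simp) (fun _ => hD)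
    [.p c, .gO (.lat c), .om c, .om (!c), .sg, .uO] ?_ (by simp) (by simp) (by simp) (by simp)
    (by simp) (by simp) (by simp)
  simp only [List.map_cons, List.map_nil, List.sum_cons, List.sum_nil, Sys.wO]
  omega

end Pool.Agent.MP_9694c2_lc.PS
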