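import Pool.Agent.MP_9694c2_lc.PS.CBase

/-!
Preparation, second part.
-/

set_option autoImplicit false

namespace Pool.Agent.MP_9694c2_lc.PS

namespace CP2

open Sys

variable {S : Sys}

/-- fuse `false` is clean, fuse `true` is burnt below `H` -/
def cg (H : ℕ) (cl : Reg → ℕ) (e : Set VE) (o : Set VO) : Cf :=
  ⟨fun _ => 0, fun d => if d = true then H else 0, cl, e, o⟩

/-- A round in which the apexes of the fuses are shot. -/
theorem rnd (hS : S.WF) {H : ℕ} {cl cl' : Reg → ℕ} {e e' : Set VE} {o o' : Set VO} (X : List VE)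
    (Y : List VO) (hX : (X.map S.wE).sum ≤ S.k) (hY : (Y.map S.wO).sum ≤ S.k)
    (xs : ∀ c, .s c ∈ X) (xp : .pT ∈ X) (xu : .uE ∈ X) (yo : ∀ c, .om c ∈ Y) (yu : .uO ∈ Y)
    (hH : H = S.L true + 1 ∨ H = S.L true ∧ .t true (S.L true) ∈ X)
    (ns : ∀ c, .s c ∉ e) (np : .pT ∉ e) (no : .om true ∉ o)
    (xl : ∀ c, .lam c ∈ X ∨ .lam c ∈ e') (yg : .sg ∈ Y ∨ .sg ∈ o') (yi : .pi ∈ Y ∨ .pi ∈ o')
    (yp : ∀ c, .p c ∈ Y ∨ .p c ∈ o' ∨
      .p c ∉ o ∧ .om c ∉ o ∧ S.r ≤ cl' (.lat c) ∧ 20 * S.k ≤ cl' .P)
    (xg : ∀ Z, .gE Z ∈ X ∨ cl' Z = 0 ∨ cl Z ≠ 0 ∧ S.len Z ≤ cl Z)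
    (yZ : ∀ Z, .gO Z ∈ Y ∨ cl' Z = 0 ∨ cl Z ≠ 0 ∧ S.len Z ≤ cl' Z)
    (ya : ∀ j < S.N, .al j ∈ Y ∨ cl' (.job j) = 0 ∨
      S.len (.job j) ≤ cl (.job j) ∧ S.len (.job j) ≤ cl' (.job j))
    (r1 : ∀ Z m, cl Z < S.len Z → cl Z ≤ m + 1 → .r Z m ∈ X ∨ cl' Z ≤ m)
    (r2 : ∀ a Z, S.apE a Z → a ∈ e → cl Z = 0)
    (r3 : ∀ b Z, S.apO b Z → b ∈ o → cl Z = 0) :
    S.G.Rnd S.k (S.st (cg (S.L true + 1) cl e o)) (S.st (cg H cl' e' o')) := by
  have hh := hS.h_pos
  have vr : ∀ Z m, m < S.len Z → S.vR Z := fun Z m h => by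
    cases Z <;> simp only [vR, len] at h ⊢
    split_ifs at h
    · assumption
    · omega
  have sg := fun j => @seg_le' S hS j
  have e1 : ∀ c, S.len (.lat c) = S.r := fun _ => rfl
  have e2 : S.len .P = 20 * S.k := rfl
  have dr : ∀ Z m, .r Z m ∉ X → m < S.len Z → cl Z = 0 → cl' Z ≤ m ∧ m < S.len Z :=
    fun Z m a b c => ⟨(r1 Z m (by omega) (by omega)).resolve_left a, b⟩
  refine TG.rnd_of_lists X Y hX hY ?_ ?_ ?_ ?_ ?_ ?_ ?_ ?_
  · intro v hv h
    cases v <;> simp only [st, dE, cg, Set.mem_ofPred_eq] at h ⊢ <;> grind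
  · intro u v h hv hu
    cases h with
    | ap a Z i h hi =>
      refine dr Z i hv hi ?_
      have := r2 u Z h
      cases h <;> simp only [st, dE, cg, Set.mem_ofPred_eq] at hu <;> grind
    | _ => simp only [st, dE, cg, Set.mem_ofPred_eq] at hu ⊢; grind
  · intro u v h hv hu
    cases h with
    | ap a Z i h hi =>
      have := vr Z i hi
      cases h <;> simp only [st, dE, cg, Set.mem_ofPred_eq] at hu ⊢ <;> grind
    | _ => simp only [st, dE, cg, Set.mem_ofPred_eq] at hu ⊢; grind
  · intro u v h hv hu
    cases h with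
    | ap a Z i h hi =>
      refine dr Z i hv hi ?_
      have := r3 u Z h
      cases h <;> simp only [st, dO, cg, Set.mem_ofPred_eq] at hu <;> grind
    | be c s y i h h1 h2 =>
      have := busy_le' h
      simp only [st, dE, dO, cg, Set.mem_ofPred_eq] at hu ⊢
      grind
    | _ => simp only [st, dE, dO, cg, Set.mem_ofPred_eq] at hu ⊢; grind
  · intro v hv h
    cases v with
    | be c s y =>
      have := busy_le' h.1
      simp only [st, dO, cg, Set.mem_ofPred_eq] at h ⊢
      grind
    | _ => simp only [st, dO, cg, Set.mem_ofPred_eq] at h ⊢; grind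
  · intro u v h hv hu
    cases h
    simp only [st, dO, cg, Set.mem_ofPred_eq] at hu ⊢
    grind
  · intro u v h hv hu
    cases h
    exact absurd (yo _) hv
  · intro u v h hv hu
    cases h with
    | ap a Z i h hi =>
      have := vr Z i hi
      cases h <;> simp only [st, dE, dO, cg, Set.mem_ofPred_eq] at hu ⊢ <;> grind
    | be c s y i h h1 h2 =>
      have := busy_le' h
      simp only [st, dE, dO, cg, Set.mem_ofPred_eq] at hu ⊢
      grind
    | _ => simp only [st, dE, dO, cg, Set.mem_ofPred_eq] at hu ⊢; grind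

/-- A rail is swept. -/
theorem sweep (hS : S.WF) (Z : Reg) {cl cl' : Reg → ℕ} {e e' : Set VE} {o o' : Set VO}
    (X : List VE) (Y : List VO) (hz : cl Z = 0) (hl : 0 < S.len Z)
    (hc : ∀ W, cl W = 0 ∨ S.len W ≤ cl W) (hc' : Function.update cl Z (S.len Z) = cl')
    (hX : ∀ i, ((VE.gE Z :: .r Z (i - 1) :: .r Z i :: X).map S.wE).sum ≤ S.k)
    (hY : (Y.map S.wO).sum ≤ S.k) (he : e' ⊆ e) (ho : o' ⊆ o)
    (xs : ∀ c, .s c ∈ X) (xp : .pT ∈ X) (xu : .uE ∈ X) (yo : ∀ c, .om c ∈ Y) (yu : .uO ∈ Y)
    (ns : ∀ c, .s c ∉ e) (np : .pT ∉ e) (no : .om true ∉ o)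
    (xl : ∀ c, .lam c ∈ X ∨ .lam c ∈ e') (yg : .sg ∈ Y ∨ .sg ∈ o') (yi : .pi ∈ Y ∨ .pi ∈ o')
    (yp : ∀ c, .p c ∈ Y ∨ .p c ∈ o') (yZ : .gO Z ∈ Y) (ya : ∀ j, Z = .job j → .al j ∈ Y)
    (r2 : ∀ a W, S.apE a W → a ∈ e → cl W = 0) (r2' : ∀ a, S.apE a Z → a ∉ e')
    (r3 : ∀ b W, S.apO b W → b ∈ o → cl W = 0) (r3' : ∀ b, S.apO b Z → b ∉ o') :
    S.G.Reach S.k (S.st (cg (S.L true + 1) cl e o)) (S.st (cg (S.L true + 1) cl' e' o')) := by
  have e0 : Function.update cl Z 0 = cl := by rw [← hz, Function.update_eq_self]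
  have key := TG.reach_iter (G := S.G) (k := S.k) (fun i => S.st (cg (S.L true + 1)
    (Function.update cl Z i) (if i = 0 then e else e') (if i = 0 then o else o'))) (S.len Z) ?_
  · simpa only [if_pos, if_neg hl.ne', e0, hc'] using key
  intro i hi
  have h1 : (if i = 0 then e else e') ⊆ e := by split_ifs; exacts [subset_rfl, he]
  have h2 : (if i = 0 then o else o') ⊆ o := by split_ifs; exacts [subset_rfl, ho]
  rw [if_neg i.succ_ne_zero, if_neg i.succ_ne_zero]
  refine rnd hS _ Y (hX i) hY (by simp [xs]) (by simp [xp]) (by simp [xu]) yo yu (Or.inl rfl)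
    (fun c h => ns c (h1 h)) (fun h => np (h1 h)) (fun h => no (h2 h)) (by simpa using xl) yg yi
    (fun c => (yp c).imp_right Or.inl) (fun W => ?_) (fun W => ?_) (fun j _ => ?_)
    (fun W m => ?_) (fun a W h h' => ?_) (fun a W h h' => ?_)
  · have := hc W
    grind
  · have := hc W
    grind
  · have := hc (.job j)
    grind
  · have := hc W
    by_cases h : W = Z
    · subst h
      simp only [Function.update_self, List.mem_cons, VE.r.injEq, true_and, reduceCtorEq]
      omega
    · simp only [Function.update_of_ne h]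
      omega
  · have := r2 a W h (h1 h')
    grind
  · have := r3 a W h (h2 h')
    grind

theorem cl_cases (D : Finset ℕ) (a : Bool → Bool) (b : Bool) (W : Reg) :
    S.clD D a b W = 0 ∨ S.len W ≤ S.clD D a b W := by
  cases W <;> simp only [clD, len] <;> grind

theorem e0_mem (hS : S.WF) {j : ℕ} (h : j ∈ S.E0) : S.e0 j = true ∧ S.inb false j := by
  simp only [E0, Finset.mem_filter, Finset.mem_range] at h
  exact ⟨h.2, hS.e0_inb j h.1 h.2⟩

theorem bank_mem {c : Bool} {j : ℕ} (h : j ∈ S.bank c) : S.inb c j := (Finset.mem_filter.1 h).2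

theorem sg_job (hS : S.WF) {F : Finset ℕ} (hF : F ⊆ S.E0) {j : ℕ}
    (h : j = 0 ∨ S.inb false j ∧ S.e0 j = false) : j ∉ S.bank true ∪ F := by
  intro hj
  rcases Finset.mem_union.1 hj with hj | hj
  · have := bank_mem hj
    grind [inb]
  · have := e0_mem hS (hF hj)
    grind [inb]

theorem jobs (hS : S.WF) (F : Finset ℕ) : F ⊆ S.E0 → S.G.Reach S.k
    (S.st (cg (S.L true + 1) (S.clD (S.bank true) (fun _ => false) false)
      {.lam false, .lam true} {.p false, .p true, .sg, .pi}))
    (S.st (cg (S.L true + 1) (S.clD (S.bank true ∪ F) (fun _ => false) false)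
      {.lam false, .lam true} {.p false, .p true, .sg, .pi})) := by
  have hk := hS.k_ge
  induction F using Finset.induction_on with
  | empty => exact fun _ => by rw [Finset.union_empty]; exact TG.Reach.refl _
  | insert j F hj ih =>
    intro hF
    have hF' := (Finset.subset_insert j F).trans hF
    have h1 := e0_mem hS (hF (Finset.mem_insert_self j F))
    have h2 : j ∉ S.bank true := fun h => by
      have := bank_mem h
      grind [inb]
    have h3 := hS.len_job h1.2.2.1
    have h4 := hS.U_ge
    have h5 := hS.h_pos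
    have h6 := @sg_job S hS F hF'
    refine (ih hF').trans (sweep hS (.job j) [.s false, .s true, .pT, .uE]
      [.om false, .om true, .uO, .gO (.job j), .al j] (by simp [clD, hj, h2]) (by omega)
      (cl_cases _ _ _) ?_ (fun i => by simp [wE]; omega) (by simp [wO]; omega) subset_rfl
      subset_rfl (by simp) (by simp) (by simp) (by simp) (by simp) (by simp) (by simp) (by simp)
      (by simp) (by simp) (by simp) (by simp) (by simp) (by simp) ?_ ?_ ?_ ?_)
    · funext W
      cases W <;> simp only [clD, Function.update_apply] <;> grind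
    · intro a W h
      cases h <;> simp [clD]
    · intro a h
      cases h <;> simp
    · intro a W h
      cases h <;> simp only [clD] <;> grind
    · intro a h
      cases h <;> grind [inb]

end CP2

open CP2 Sys in
theorem cPrep2 : CPrep2 := by
  intro S hS
  have hk := hS.k_ge
  have h3 := S.r_ge
  have h4 := hS.U_ge
  have h5 := hS.h_pos
  have h6 := @sg_job S hS _ subset_rfl
  have h7 := @sg_job S hS ∅ (Finset.empty_subset _)
  have a1 := rnd hS (H := S.L true + 1) (cl := S.clD (S.bank true) (fun _ => false) false)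
    (cl' := S.clD (S.bank true) (fun _ => false) false) (e := {.lam false, .lam true})
    (e' := {.lam false, .lam true}) (o := {.om false, .p false, .p true, .sg, .pi})
    (o' := {.p false, .p true, .sg, .pi}) [.s false, .s true, .pT, .uE] [.om false, .om true, .uO]
    (by simp [wE]; omega) (by simp [wO]; omega) (by simp) (by simp) (by simp) (by simp) (by simp)
    (by simp) (by simp) (by simp) (by simp) (by simp) (by simp) (by simp) (by simp)
    (fun W => by have := cl_cases (S := S) (S.bank true) (fun _ => false) false W; grind)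
    (fun W => by have := cl_cases (S := S) (S.bank true) (fun _ => false) false W; grind)
    (fun j _ => by have := cl_cases (S := S) (S.bank true) (fun _ => false) false (.job j); grind)
    (fun W m => by have := cl_cases (S := S) (S.bank true) (fun _ => false) false W; grind)
    (fun a W h => by cases h <;> simp [clD])
    (fun a W h => by
      have := fun j => @bank_mem S true j
      cases h <;> simp only [clD] <;> grind [inb])
  have a3 := sweep hS (.lat false) (cl := S.clD (S.bank true ∪ S.E0) (fun _ => false) false)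
    (cl' := S.clD (S.bank true ∪ S.E0) (fun d => d != true) false) (e := {.lam false, .lam true})
    (e' := {.lam true}) (o := {.p false, .p true, .sg, .pi}) (o' := {.p true, .sg, .pi})
    [.s false, .s true, .pT, .lam false, .uE] [.p false, .gO (.lat false), .om false, .om true, .uO]
    (by simp [clD]) (by simp only [len]; omega) (cl_cases _ _ _)
    (funext fun W => by cases W <;> simp only [clD, len, Function.update_apply] <;> grind)
    (fun i => by simp [wE]; omega) (by simp [wO]; omega) (by simp) (by simp) (by simp) (by simp)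
    (by simp) (by simp) (by simp) (by simp) (by simp) (by simp) (by simp) (by simp) (by simp)
    (by simp) (by simp) (by simp) (fun a W h => by cases h <;> simp [clD])
    (fun a h => by cases h <;> simp) (fun a W h => by cases h <;> simp only [clD] <;> grind)
    (fun a h => by cases h <;> simp)
  have a4 := sweep hS .P (cl := S.clD (S.bank true ∪ S.E0) (fun d => d != true) false)
    (cl' := S.clD (S.bank true ∪ S.E0) (fun d => d != true) true) (e := {.lam true})
    (e' := {.lam true}) (o := {.p true, .sg, .pi}) (o' := {.sg})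
    [.s false, .s true, .pT, .lam false, .uE]
    [.p false, .p true, .pi, .gO .P, .om false, .om true, .uO]
    (by simp [clD]) (by simp only [len]; omega) (cl_cases _ _ _)
    (funext fun W => by cases W <;> simp only [clD, len, Function.update_apply] <;> grind)
    (fun i => by simp [wE]; omega) (by simp [wO]; omega) (by simp) (by simp) (by simp) (by simp)
    (by simp) (by simp) (by simp) (by simp) (by simp) (by simp) (by simp) (by simp) (by simp)
    (by simp) (by simp) (by simp) (fun a W h => by cases h <;> simp only [clD] <;> grind)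
    (fun a h => by cases h <;> simp) (fun a W h => by cases h <;> simp only [clD] <;> grind)
    (fun a h => by cases h <;> simp)
  have c5 := cl_cases (S := S) (S.bank true ∪ S.E0) (fun d => d != true) true
  have a5 := rnd hS (H := S.L true) (cl := S.clD (S.bank true ∪ S.E0) (fun d => d != true) true)
    (cl' := S.clD (S.bank true ∪ S.E0) (fun d => d != true) true) (e := {.lam true})
    (e' := {.lam true}) (o := {.sg}) (o' := ∅)
    [.t true (S.L true), .s false, .s true, .pT, .lam false, .uE]
    [.p true, .om false, .om true, .sg, .pi, .uO]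
    (by simp [wE]; omega) (by simp [wO]; omega) (by simp) (by simp) (by simp) (by simp) (by simp)
    (by simp) (by simp) (by simp) (by simp) (by simp) (by simp) (by simp) (by simp [clD])
    (fun W => by have := c5 W; grind) (fun W => by have := c5 W; grind)
    (fun j _ => by have := c5 (.job j); grind) (fun W m => by have := c5 W; grind)
    (fun a W h => by cases h <;> simp only [clD] <;> grind)
    (fun a W h => by cases h <;> simp only [clD] <;> grind)
  exact a1.reach.trans ((jobs hS _ subset_rfl).trans (a3.trans (a4.trans a5.reach)))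

end Pool.Agent.MP_9694c2_lc.PS
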