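import Pool.Agent.MP_9694c2_lc.PS.CBase

/-!
Two moves of the strategy: pushing the fire back and cleaning the source rail.
-/

set_option autoImplicit false

namespace Pool.Agent.MP_9694c2_lc.PS

namespace Sys

variable {S : Sys}

theorem cpu_sym (hS : S.WF) (f : ℕ) : ∃ s y, ∀ s' y', y' < 2 * S.N → S.sy s' y' ≤ f →
    f < S.sy s' y' + 3 * S.h → s' = s ∧ y' = y := by
  by_cases h : S.r ≤ f
  · obtain ⟨s, y, h1, h2, h3⟩ := exists_sym hS h
    exact ⟨s, y, fun s' y' a b c => sym_unique a h1 b c h2 h3⟩
  · refine ⟨0, 0, fun s' y' _ b _ => ?_⟩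
    unfold sy at b
    omega

/-- A rail with a dirty vertex is a job outside `D`, the dirty latch or the source rail. -/
theorem cpu_dirt {D : Finset ℕ} {c : Bool} {X : Reg} {i : ℕ}
    (h1 : S.clD D (fun d => d != c) true X ≤ i) (h2 : i < S.len X) :
    S.vR X ∧ S.clD D (fun d => d != c) true X = 0 ∧
      ((∃ j, X = .job j ∧ j ∉ D) ∨ X = .lat c ∨ X = .Om) := by
  cases X with
  | job j =>
    by_cases hj : j ∈ D
    · simp only [clD, hj, if_true] at h1
      omega
    · refine ⟨?_, by simp [clD, hj], Or.inl ⟨j, rfl, hj⟩⟩
      by_contra hc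
      simp only [vR] at hc
      simp [len, hc] at h2
  | lat d =>
    by_cases hd : d = c
    · subst hd
      simp [vR, clD]
    · simp only [clD, bne_iff_ne, ne_eq, hd, not_false_eq_true, if_true] at h1
      simp only [len] at h2
      omega
  | P =>
    simp only [clD, if_true] at h1
    simp only [len] at h2
    omega
  | Om => simp [vR, clD]

theorem cpu_rnd (hS : S.WF) (c : Bool) (f : ℕ) (D : Finset ℕ) (hf : f + 1 ≤ S.L c)
    (hD : S.bank c ⊆ D) : S.G.Rnd S.k (S.st (S.Pu c (f + 1) D)) (S.st (S.Pu c f D)) := by
  obtain ⟨s0, y0, hs⟩ := cpu_sym hS f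
  have hk := hS.k_ge
  have hh := hS.h_pos
  have nb : ∀ d : Bool, d ≠ c → d = !c := fun d => by cases d <;> cases c <;> simp
  refine TG.rnd_of_lists [.s (!c), .lam (!c), .uE, .t c (f + 1), .t c f]
    [.p c, .om false, .om true, .sg, .pi, .uO, .be c s0 y0] ?_ ?_ ?_ ?_ ?_ ?_ ?_ ?_ ?_ ?_
  · simp [G, wE]
    omega
  · simp [G, wO]
    omega
  · intro v hv h
    cases v with
    | t d i =>
      by_cases hd : d = c
      · subst hd
        simp [st, dE, Pu] at hv h ⊢
        omega
      · simp [st, dE, Pu, hd] at h
    | _ => exact h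
  · intro u v e hv h
    cases e with
    | tt d i hi =>
      by_cases hd : d = c
      · subst hd
        simp [st, dE, Pu] at hv h ⊢
        omega
      · simp [st, dE, Pu, hd] at h
    | rr X i hi => exact ⟨le_trans h.1 (Nat.le_succ i), hi⟩
    | ap a X i ha hi =>
      cases ha with
      | ll d =>
        obtain rfl : d = c := by simpa [st, dE, Pu] using h
        exact ⟨by simp [Pu, clD], hi⟩
      | lO d => exact ⟨by simp [Pu, clD], hi⟩
      | g X => exact ⟨h.2.le.trans (Nat.zero_le _), hi⟩
      | _ => simp [st, dE, Pu] at h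
    | _ => simp [st, dE, Pu] at h
  · intro u v e hv h
    cases e with
    | tt d i hi =>
      by_cases hd : d = c
      · subst hd
        simp [st, dE, Pu] at hv h ⊢
        omega
      · simp [st, dE, Pu, hd] at h
    | rr X i hi => exact ⟨(cpu_dirt h.1 h.2).2.1.le.trans (Nat.zero_le _), by omega⟩
    | ap a X i ha hi =>
      obtain ⟨h1, h2, h3⟩ := cpu_dirt h.1 h.2
      cases ha with
      | sj d j hj =>
        have hj' : j ∉ D := by simpa using h3
        by_cases hd : d = c
        · subst hd
          exact absurd (hD (Finset.mem_filter.2 ⟨Finset.mem_range.2 hj.2.1, hj⟩)) hj'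
        · simp [nb d hd] at hv
      | sl d e he =>
        obtain rfl : e = c := by simpa using h3
        simp [he] at hv
      | ll d =>
        obtain rfl : d = c := by simpa using h3
        simp [st, dE, Pu]
      | lO d =>
        by_cases hd : d = c
        · subst hd
          simp [st, dE, Pu]
        · simp [nb d hd] at hv
      | uO => simp at hv
      | g X => exact ⟨h1, h2⟩
      | _ => simp at h3
    | st d e i he hi =>
      by_cases hd : e = c
      · subst hd
        simp [he] at hv
      · simp [st, dE, Pu, hd] at h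
    | sl d i hi =>
      by_cases hd : d = c
      · subst hd
        simp [st, dE, Pu] at h
        omega
      · simp [st, dE, Pu, hd] at h
    | pl d i hi =>
      by_cases hd : d = c
      · subst hd
        simp [st, dE, Pu] at h
        omega
      · simp [st, dE, Pu, hd] at h
  · intro u v e hv h
    cases e with
    | ap b X i hb hi =>
      cases hb with
      | g X => exact ⟨h.2.le.trans (Nat.zero_le _), hi⟩
      | _ => simp [st, dO, Pu] at h
    | al j i hj h1 h2 =>
      have := seg_le' hS hj
      exact ⟨h.2.trans h1, by nlinarith⟩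
    | om d e he => simp [st, dO, Pu] at h
    | be d s y i hb h1 h2 =>
      by_cases hd : d = c
      · subst hd
        simp [st, dE, dO, Pu] at hv h ⊢
        omega
      · simp [st, dO, Pu, hd] at h
        omega
  · intro v hv h
    cases v with
    | be d s y =>
      by_cases hd : d = c
      · subst hd
        have := hs s y h.1.2.1
        refine ⟨h.1, h.2.1, ?_⟩
        simp [st, dO, Pu] at hv h ⊢
        omega
      · simp [st, dO, Pu, hd] at h
        omega
    | _ => exact h
  · intro u v e hv h
    cases e
    simp [st, dO, Pu] at h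
  · intro u v e hv h
    cases e
    simp [st, dO, Pu] at h
  · intro u v e hv h
    cases e with
    | ap b X i hb hi =>
      obtain ⟨h1, h2, h3⟩ := cpu_dirt h.1 h.2
      cases hb with
      | oj d j hj => cases d <;> simp at hv
      | oO d => cases d <;> simp at hv
      | pl d =>
        obtain rfl : d = c := by simpa using h3
        simp at hv
      | pP d => simp at h3
      | g X => exact ⟨h1, h2⟩
      | _ => simp at hv
    | al j i hj h1 h2 => exact ⟨hj, (cpu_dirt (c := c) h.1 h.2).2.1.le.trans (Nat.zero_le _)⟩
    | om d e he => cases e <;> simp at hv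
    | be d s y i hb h1 h2 =>
      by_cases hd : d = c
      · subst hd
        have := hs s y hb.2.1
        refine ⟨hb, Nat.zero_le _, ?_⟩
        simp [st, dE, Pu] at hv h ⊢
        omega
      · simp [st, dE, Pu, hd] at h

variable (S) in
/-- The states while the source rail is swept. -/
def cpuE (i : ℕ) : Set VE × Set VO :=
  ({v | (∃ j, i ≤ j ∧ j < 20 * S.k ∧ v = .r .Om j) ∨ (i = 0 ∧ v = .gE .Om)},
    {v | i = 0 ∧ v = .gO .Om})

theorem cpu_end (hS : S.WF) (i : ℕ) : S.G.Rnd S.k (S.cpuE i) (S.cpuE (i + 1)) := by
  have hk := hS.k_ge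
  refine TG.rnd_of_lists [.lam false, .lam true, .uE, .gE .Om, .r .Om (i - 1), .r .Om i]
    [.om false, .om true, .sg, .uO, .gO .Om] ?_ ?_ ?_ ?_ ?_ ?_ ?_ ?_ ?_ ?_
  · simp [G, wE]
    omega
  · simp [G, wO]
    omega
  · rintro v hv (⟨j, h1, h2, rfl⟩ | ⟨-, rfl⟩)
    · simp [cpuE] at hv ⊢
      omega
    · simp at hv
  · rintro u v e hv (⟨j, h1, h2, rfl⟩ | ⟨rfl, rfl⟩)
    · cases e with
      | rr X i hi =>
        simp [cpuE, len] at hi ⊢
        omega
      | ap a X i ha hi => cases ha
    · cases e with
      | ap a X i ha hi =>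
        cases ha
        simp [cpuE, len] at hi hv ⊢
        omega
  · rintro u v e hv (⟨j, h1, h2, rfl⟩ | ⟨rfl, rfl⟩)
    · cases e with
      | rr X i hi =>
        simp [cpuE] at hv ⊢
        omega
      | ap a X i ha hi =>
        cases ha with
        | lO d => cases d <;> simp at hv
        | _ => simp at hv
    · cases e
  · rintro u v e hv ⟨rfl, rfl⟩
    cases e with
    | ap b X i hb hi =>
      cases hb
      simp [cpuE, len] at hi hv ⊢
      omega
  · rintro v hv ⟨-, rfl⟩
    simp at hv
  · rintro u v e hv ⟨-, rfl⟩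
    cases e
  · rintro u v e hv ⟨-, rfl⟩
    cases e
  · rintro u v e hv (⟨j, h1, h2, rfl⟩ | ⟨h, -⟩)
    · cases e with
      | ap b X i hb hi =>
        cases hb with
        | oO d => cases d <;> simp at hv
        | _ => simp at hv
    · omega

end Sys

theorem cPush : CPush := by
  intro S hS c f D hf hD
  induction f with
  | zero => exact TG.Reach.refl _
  | succ f ih => exact (Sys.cpu_rnd hS c f D hf hD).reach.trans (ih (by omega))

theorem cEnd : CEnd := by
  intro S hS c D hD
  have hk := hS.k_ge
  have hh := hS.h_pos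
  have hr := Sys.r_ge (S := S)
  have hU := hS.U_ge
  have key : ∀ X, X ≠ .Om → S.vR X → S.clD D (fun _ => true) true X = S.len X ∧ 0 < S.len X := by
    intro X h1 h2
    cases X with
    | job j =>
      have := Sys.seg_le' hS (j := j) h2
      exact ⟨by simp [Sys.clD, hD (Finset.mem_range.2 h2)], by nlinarith⟩
    | lat d => exact ⟨by simp [Sys.clD, Sys.len], by simp only [Sys.len]; omega⟩
    | P => exact ⟨by simp [Sys.clD, Sys.len], by simp only [Sys.len]; omega⟩
    | Om => exact absurd rfl h1
  refine TG.reach_iter' S.cpuE (20 * S.k) (by omega) (fun i _ => Sys.cpu_end hS i) ?_ ?_ ?_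
  · intro v h
    cases v with
    | r X i =>
      by_cases hX : X = .Om
      · subst hX
        exact Or.inl ⟨i, Nat.zero_le _, h.2, rfl⟩
      · have h1 : S.clD D (fun _ => true) true X ≤ i := h.1
        have h2 : i < S.len X := h.2
        have h3 : S.vR X := by
          cases X with
          | job j =>
            by_contra hc
            simp only [Sys.vR] at hc
            simp [Sys.len, hc] at h2
          | _ => trivial
        have := key X hX h3
        omega
    | gE X =>
      by_cases hX : X = .Om
      · exact Or.inr ⟨rfl, by rw [hX]⟩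
      · have h1 : S.clD D (fun _ => true) true X = 0 := h.2
        have := key X hX h.1
        omega
    | _ => simp [Sys.st, Sys.dE, Sys.Ph] at h
  · intro v h
    cases v with
    | gO X =>
      by_cases hX : X = .Om
      · exact ⟨rfl, by rw [hX]⟩
      · have h1 : S.clD D (fun _ => true) true X = 0 := h.2
        have := key X hX h.1
        omega
    | al j =>
      have h1 : S.clD D (fun _ => true) true (.job j) ≤ (3 * j + 1) * S.h := h.2
      have h2 := key (.job j) (by simp) h.1
      have h3 := Sys.seg_le' hS (j := j) h.1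
      nlinarith [h2.1]
    | be d s y =>
      simp [Sys.st, Sys.dO, Sys.Ph] at h
      omega
    | _ => simp [Sys.st, Sys.dO, Sys.Ph] at h
  · unfold Sys.cpuE
    refine Prod.ext (Set.eq_empty_of_forall_notMem ?_) (Set.eq_empty_of_forall_notMem ?_)
    · rintro v (⟨j, h1, h2, -⟩ | ⟨h, -⟩) <;> omega
    · rintro v ⟨h, -⟩
      omega

end Pool.Agent.MP_9694c2_lc.PS
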