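import Pool.Agent.MP_9694c2_lc.PS.Spec

/-!
The edge list of a job system.
-/

set_option autoImplicit false

namespace Pool.Agent.MP_9694c2_lc.PS

open Pool.Agent.PolyT Pool.Agent.H82

namespace EncR

/-- Names of rails. -/
def cR : Reg → ℕ
  | .job j => j + 4
  | .lat c => cond c 1 0
  | .P => 2
  | .Om => 3

/-- Names of vertices of the first type. -/
def cE : VE → ℕ
  | .s c => Nat.pair 0 (cond c 1 0)
  | .lam c => Nat.pair 1 (cond c 1 0)
  | .pT => Nat.pair 2 0
  | .uE => Nat.pair 3 0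
  | .t c i => Nat.pair (cond c 5 4) i
  | .r X i => Nat.pair 6 (Nat.pair (cR X) i)
  | .gE X => Nat.pair 7 (cR X)

/-- Names of vertices of the second type. -/
def cO : VO → ℕ
  | .om c => Nat.pair 0 (cond c 1 0)
  | .sg => Nat.pair 1 0
  | .pi => Nat.pair 2 0
  | .p c => Nat.pair 3 (cond c 1 0)
  | .uO => Nat.pair 4 0
  | .gO X => Nat.pair 5 (cR X)
  | .al j => Nat.pair 6 j
  | .be c s y => Nat.pair (cond c 8 7) (Nat.pair s y)

theorem cR_inj : Function.Injective cR := by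
  rintro (i | ⟨_ | _⟩ | _ | _) (j | ⟨_ | _⟩ | _ | _) h <;> simp_all [cR]

theorem cB_inj {c d : Bool} {m n : ℕ} (h : m ≠ n) : cond c m n = cond d m n ↔ c = d := by
  cases c <;> cases d <;> simp [h, h.symm]

theorem cB_eq {c : Bool} {m n l : ℕ} (h : m ≠ l) (h' : n ≠ l) :
    (cond c m n = l ↔ False) ∧ (l = cond c m n ↔ False) := by
  cases c <;> simp [h, h.symm, h', h'.symm]

theorem cE_inj : Function.Injective cE := by
  intro a b h
  cases a <;> cases b <;>
    simp (disch := decide) only [cE, Nat.pair_eq_pair, cR_inj.eq_iff, cB_inj, cB_eq, false_and,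
      true_and, Nat.reduceEqDiff] at h <;> simp [h]

theorem cO_inj : Function.Injective cO := by
  intro a b h
  cases a <;> cases b <;>
    simp (disch := decide) only [cO, Nat.pair_eq_pair, cR_inj.eq_iff, cB_inj, cB_eq, false_and,
      true_and, Nat.reduceEqDiff] at h <;> simp [h]

variable (g : ℕ → List ℕ) (S : Sys)

/-- The test for a bank. -/
def inbB (c : Bool) (j : ℕ) : Bool := ltB 0 j && (ltB j S.N && eqB (S.bk j) c)

/-- The rails. -/
def regs : List Reg := (g S.N).map .job ++ [.lat false, .lat true, .P, .Om]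

/-- The length of a rail. -/
def lenB : Reg → ℕ
  | .job j => cond (ltB j S.N) (S.sz j * S.U) 0
  | .lat _ => S.r
  | .P => 20 * S.k
  | .Om => 20 * S.k

/-- The vertices of the first type adjacent to a whole rail. -/
def lapE : Reg → List VE
  | .job j => .gE (.job j) :: (cond (inbB S false j) [.s false] [] ++
      cond (inbB S true j) [.s true] [])
  | .lat d => [.gE (.lat d), .s (!d), .lam d]
  | .P => [.gE .P, .s false, .s true, .pT, .uE]
  | .Om => [.gE .Om, .lam false, .lam true, .uE]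

/-- The vertices of the second type adjacent to a whole rail. -/
def lapO : Reg → List VO
  | .job j => .gO (.job j) :: (cond (inbB S false j) [.om false] [] ++
      (cond (inbB S true j) [.om true] [] ++ (cond (eqB j 0) [.sg, .pi] [] ++
        cond (inbB S false j && !S.e0 j) [.sg] [])))
  | .lat d => .gO (.lat d) :: .p d :: cond d [.sg] []
  | .P => [.gO .P, .pi, .p false, .p true, .uO]
  | .Om => [.gO .Om, .om false, .om true, .sg, .uO]

/-- The busy symbols. -/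
def bes (c : Bool) : List (ℕ × ℕ) :=
  (g (S.ln c)).flatMap fun s => (g (2 * S.N)).flatMap fun y =>
    cond (ltB y S.N && S.ok c s y) [] [(s, y)]

/-- Pairs of the first type at a fuse. -/
def leeF (c : Bool) : List (VE × VE) :=
  List.map (fun i => (VE.t c i, VE.t c (i + 1))) (g (S.L c)) ++
    (List.flatMap (fun i => [(VE.s (!c), VE.t c i), (VE.t c i, VE.t c i)]) (g (S.L c + 1)) ++
      [(VE.s c, VE.t c (S.L c)), (VE.pT, VE.t c (S.L c)), (VE.s c, VE.s c), (VE.lam c, VE.lam c)])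

/-- Pairs of the first type at a vertex of a rail. -/
def leeR (X : Reg) (i : ℕ) : List (VE × VE) :=
  (VE.r X i, VE.r X i) :: (cond (ltB (i + 1) (lenB S X)) [(VE.r X i, VE.r X (i + 1))] [] ++
    List.map (fun a => (a, VE.r X i)) (lapE S X))

/-- Pairs of the first type. -/
def lee : List (VE × VE) :=
  List.flatMap (leeF g S) [false, true] ++ ([(VE.pT, VE.pT), (VE.uE, VE.uE)] ++
    List.flatMap (fun X => (VE.gE X, VE.gE X) :: List.flatMap (leeR S X) (g (lenB S X))) (regs g S))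

/-- Pairs of the second type at a fuse. -/
def looF (c : Bool) : List (VO × VO) :=
  [(VO.om c, VO.p c), (VO.om c, VO.om c), (VO.p c, VO.p c)] ++
    List.map (fun e : ℕ × ℕ => (VO.be c e.1 e.2, VO.be c e.1 e.2)) (bes g S c)

/-- Pairs of the second type. -/
def loo : List (VO × VO) :=
  List.flatMap (looF g S) [false, true] ++ ([(VO.sg, VO.sg), (VO.pi, VO.pi), (VO.uO, VO.uO)] ++
    (List.map (fun X => (VO.gO X, VO.gO X)) (regs g S) ++
      List.map (fun j => (VO.al j, VO.al j)) (g S.N)))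

/-- Pairs between the types at a fuse. -/
def leoF (c : Bool) : List (VE × VO) :=
  (VE.t c 0, VO.om (!c)) :: List.flatMap (fun e : ℕ × ℕ =>
    List.map (fun i => (VE.t c (S.sy e.1 e.2 + i), VO.be c e.1 e.2)) (g (3 * S.h))) (bes g S c)

/-- Pairs between the types. -/
def leo : List (VE × VO) :=
  List.flatMap (leoF g S) [false, true] ++
  (List.flatMap (fun X => List.flatMap (fun i => List.map (fun b => (VE.r X i, b)) (lapO S X))
    (g (lenB S X))) (regs g S) ++
  List.flatMap (fun j => List.map (fun i => (VE.r (.job j) ((3 * j + 1) * S.h + i), VO.al j))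
    (g S.h)) (g S.N))

variable {S}

theorem inbB_iff {c : Bool} {j : ℕ} : inbB S c j = true ↔ S.inb c j := by
  simp [inbB, Sys.inb]

theorem lenB_eq (X : Reg) : lenB S X = S.len X := by
  cases X with
  | job j => by_cases h : j < S.N <;> simp [lenB, Sys.len, ltB, h]
  | _ => rfl

theorem mem_regs {X : Reg} : X ∈ regs List.range S ↔ S.vR X := by
  rcases X with j | ⟨_ | _⟩ | _ | _ <;> simp [regs, Sys.vR]

theorem vR_of_lt {X : Reg} {i : ℕ} (h : i < S.len X) : S.vR X := by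
  cases X with
  | job j =>
    by_contra a
    simp only [Sys.len, if_neg (show ¬ j < S.N from a)] at h
    omega
  | _ => trivial

theorem mem_cond {α : Type} {b : Bool} {l l' : List α} {a : α} :
    a ∈ cond b l l' ↔ (b = true ∧ a ∈ l) ∨ (b = false ∧ a ∈ l') := by
  cases b <;> simp

theorem mem_lapE {a : VE} {X : Reg} : a ∈ lapE S X ↔ S.apE a X := by
  constructor
  · intro h
    rcases X with j | ⟨_ | _⟩ | _ | _ <;>
      simp only [lapE, List.mem_cons, List.mem_append, mem_cond, inbB_iff, List.not_mem_nil,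
        or_false, and_false] at h
    · rcases h with rfl | ⟨h, rfl⟩ | ⟨h, rfl⟩
      exacts [.g _, .sj _ _ h, .sj _ _ h]
    · rcases h with rfl | rfl | rfl
      exacts [.g _, .sl _ _ rfl, .ll _]
    · rcases h with rfl | rfl | rfl
      exacts [.g _, .sl _ _ rfl, .ll _]
    · rcases h with rfl | rfl | rfl | rfl | rfl
      exacts [.g _, .sP _, .sP _, .pP, .uP]
    · rcases h with rfl | rfl | rfl | rfl
      exacts [.g _, .lO _, .lO _, .uO]
  · intro h
    cases h with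
    | sj c j h => cases c <;> simp [lapE, mem_cond, inbB_iff, h]
    | sl c d h => simp [lapE, h]
    | sP c => cases c <;> simp [lapE]
    | lO c => cases c <;> simp [lapE]
    | g X => cases X <;> simp [lapE]
    | _ => simp [lapE]

theorem mem_lapO {a : VO} {X : Reg} : a ∈ lapO S X ↔ S.apO a X := by
  constructor
  · intro h
    rcases X with j | ⟨_ | _⟩ | _ | _ <;>
      simp only [lapO, List.mem_cons, List.mem_append, mem_cond, inbB_iff, List.not_mem_nil,
        or_false, and_false, Bool.and_eq_true, eqB_iff, Bool.not_eq_true', cond_true,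
        cond_false] at h
    · rcases h with rfl | ⟨h, rfl⟩ | ⟨h, rfl⟩ | ⟨rfl, rfl | rfl⟩ | ⟨⟨h, h'⟩, rfl⟩
      exacts [.g _, .oj _ _ h, .oj _ _ h, .g0, .i0, .gj _ h h']
    · rcases h with rfl | rfl
      exacts [.g _, .pl _]
    · rcases h with rfl | rfl | rfl
      exacts [.g _, .pl _, .gl]
    · rcases h with rfl | rfl | rfl | rfl | rfl
      exacts [.g _, .iP, .pP _, .pP _, .uP]
    · rcases h with rfl | rfl | rfl | rfl | rfl
      exacts [.g _, .oO _, .oO _, .gO, .uO]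
  · intro h
    cases h with
    | oj c j h => cases c <;> simp [lapO, mem_cond, inbB_iff, h]
    | gj j h h' => simp [lapO, mem_cond, inbB_iff, h, h']
    | oO c => cases c <;> simp [lapO]
    | pP c => cases c <;> simp [lapO]
    | g X => cases X <;> simp [lapO]
    | _ => simp [lapO, mem_cond]

theorem mem_bes {c : Bool} {s y : ℕ} : (s, y) ∈ bes List.range S c ↔ S.busy c s y := by
  simp only [bes, List.mem_flatMap, List.mem_range, mem_cond, List.not_mem_nil, and_false,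
    false_or, List.mem_singleton, Prod.mk.injEq, ← Bool.not_eq_true, Bool.and_eq_true, ltB_iff,
    Sys.busy]
  constructor
  · rintro ⟨_, h1, _, h2, h3, rfl, rfl⟩
    exact ⟨h1, h2, h3⟩
  · rintro ⟨h1, h2, h3⟩
    exact ⟨_, h1, _, h2, h3, rfl, rfl⟩

theorem mem_bools {c : Bool} : c ∈ [false, true] ↔ True := by cases c <;> simp

theorem mem_lee (u v : VE) :
    (u, v) ∈ lee List.range S ↔ S.ee u v ∨ (u = v ∧ S.vE u) := by
  simp only [lee, leeF, leeR, List.mem_append, List.mem_flatMap, mem_bools, true_and, List.mem_map,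
    List.mem_range, List.mem_cons (a := (u, v)), List.not_mem_nil, or_false, Prod.mk.injEq,
    mem_regs, lenB_eq, mem_cond, ltB_iff, and_false, mem_lapE]
  constructor
  · rintro (⟨c, ⟨i, h, rfl, rfl⟩ | ⟨i, h, ⟨rfl, rfl⟩ | ⟨rfl, rfl⟩⟩ | ⟨rfl, rfl⟩ | ⟨rfl, rfl⟩ |
      ⟨rfl, rfl⟩ | ⟨rfl, rfl⟩⟩ | (⟨rfl, rfl⟩ | ⟨rfl, rfl⟩) |
      ⟨X, h, ⟨rfl, rfl⟩ | ⟨i, hi, ⟨rfl, rfl⟩ | ⟨h', rfl, rfl⟩ | ⟨a, ha, rfl, rfl⟩⟩⟩)
    exacts [.inl (.tt c i h), .inl (.st _ _ _ (by simp) (Nat.le_of_lt_succ h)),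
      .inr ⟨rfl, Nat.le_of_lt_succ h⟩, .inl (.sl _ _ rfl), .inl (.pl _ _ rfl), .inr ⟨rfl, trivial⟩,
      .inr ⟨rfl, trivial⟩, .inr ⟨rfl, trivial⟩, .inr ⟨rfl, trivial⟩, .inr ⟨rfl, h⟩, .inr ⟨rfl, hi⟩,
      .inl (.rr _ _ h'), .inl (.ap _ _ _ ha hi)]
  · rintro (h | ⟨rfl, h⟩)
    · cases h with
      | tt c i h => exact .inl ⟨c, .inl ⟨i, h, rfl, rfl⟩⟩
      | rr X i h => exact .inr (.inr ⟨X, vR_of_lt h, .inr ⟨i, by omega, .inr (.inl ⟨h, rfl, rfl⟩)⟩⟩)
      | ap a X i h hi =>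
        exact .inr (.inr ⟨X, vR_of_lt hi, .inr ⟨i, hi, .inr (.inr ⟨_, h, rfl, rfl⟩)⟩⟩)
      | st c d i h hi =>
        exact .inl ⟨d, .inr (.inl ⟨i, Nat.lt_succ_of_le hi, .inl ⟨by simp [h], rfl⟩⟩)⟩
      | sl c i hi => exact .inl ⟨c, .inr (.inr (.inl ⟨rfl, by rw [hi]⟩))⟩
      | pl c i hi => exact .inl ⟨c, .inr (.inr (.inr (.inl ⟨rfl, by rw [hi]⟩)))⟩
    · cases u with
      | s c => exact .inl ⟨c, .inr (.inr (.inr (.inr (.inl ⟨rfl, rfl⟩))))⟩
      | lam c => exact .inl ⟨c, .inr (.inr (.inr (.inr (.inr ⟨rfl, rfl⟩))))⟩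
      | pT => exact .inr (.inl (.inl ⟨rfl, rfl⟩))
      | uE => exact .inr (.inl (.inr ⟨rfl, rfl⟩))
      | t c i => exact .inl ⟨c, .inr (.inl ⟨i, Nat.lt_succ_of_le h, .inr ⟨rfl, rfl⟩⟩)⟩
      | r X i => exact .inr (.inr ⟨X, vR_of_lt h, .inr ⟨i, h, .inl ⟨rfl, rfl⟩⟩⟩)
      | gE X => exact .inr (.inr ⟨X, h, .inl ⟨rfl, rfl⟩⟩)

theorem mem_loo (u v : VO) :
    (u, v) ∈ loo List.range S ↔ Sys.oo u v ∨ (u = v ∧ S.vO u) := by
  simp only [loo, looF, List.mem_append, List.mem_flatMap, mem_bools, true_and, List.mem_map,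
    List.mem_range, List.mem_cons (a := (u, v)), List.not_mem_nil, or_false, Prod.mk.injEq,
    mem_regs, Prod.exists, mem_bes]
  constructor
  · rintro (⟨c, (⟨rfl, rfl⟩ | ⟨rfl, rfl⟩ | ⟨rfl, rfl⟩) | ⟨s, y, h, rfl, rfl⟩⟩ |
      (⟨rfl, rfl⟩ | ⟨rfl, rfl⟩ | ⟨rfl, rfl⟩) | ⟨X, h, rfl, rfl⟩ | ⟨j, h, rfl, rfl⟩)
    exacts [.inl (.op c), .inr ⟨rfl, trivial⟩, .inr ⟨rfl, trivial⟩, .inr ⟨rfl, h⟩,
      .inr ⟨rfl, trivial⟩, .inr ⟨rfl, trivial⟩, .inr ⟨rfl, trivial⟩, .inr ⟨rfl, h⟩, .inr ⟨rfl, h⟩]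
  · rintro (h | ⟨rfl, h⟩)
    · cases h with
      | op c => exact .inl ⟨c, .inl (.inl ⟨rfl, rfl⟩)⟩
    · cases u with
      | om c => exact .inl ⟨c, .inl (.inr (.inl ⟨rfl, rfl⟩))⟩
      | p c => exact .inl ⟨c, .inl (.inr (.inr ⟨rfl, rfl⟩))⟩
      | sg => exact .inr (.inl (.inl ⟨rfl, rfl⟩))
      | pi => exact .inr (.inl (.inr (.inl ⟨rfl, rfl⟩)))
      | uO => exact .inr (.inl (.inr (.inr ⟨rfl, rfl⟩)))
      | gO X => exact .inr (.inr (.inl ⟨X, h, rfl, rfl⟩))
      | al j => exact .inr (.inr (.inr ⟨j, h, rfl, rfl⟩))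
      | be c s y => exact .inl ⟨c, .inr ⟨s, y, h, rfl, rfl⟩⟩

theorem mem_leo (u : VE) (v : VO) : (u, v) ∈ leo List.range S ↔ S.eo u v := by
  simp only [leo, leoF, List.mem_append, List.mem_flatMap, mem_bools, true_and, List.mem_map,
    List.mem_range, List.mem_cons (a := (u, v)), Prod.mk.injEq, mem_regs, Prod.exists, mem_bes,
    lenB_eq, mem_lapO]
  constructor
  · rintro (⟨c, ⟨rfl, rfl⟩ | ⟨s, y, h, i, hi, rfl, rfl⟩⟩ | ⟨X, -, i, hi, b, hb, rfl, rfl⟩ |
      ⟨j, hj, i, hi, rfl, rfl⟩)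
    exacts [.om _ _ rfl, .be _ _ _ _ h (by omega) (by omega), .ap _ _ _ hb hi,
      .al _ _ hj (by omega) (by rw [Nat.succ_mul (3 * j + 1)]; omega)]
  · intro h
    cases h with
    | ap b X i h hi => exact .inr (.inl ⟨X, vR_of_lt hi, i, hi, _, h, rfl, rfl⟩)
    | al j i hj h1 h2 =>
      rw [Nat.succ_mul (3 * j + 1)] at h2
      exact .inr (.inr ⟨j, hj, i - (3 * j + 1) * S.h, by omega, by congr 1; omega, rfl⟩)
    | om c d h => exact .inl ⟨c, .inl ⟨rfl, by rw [h]⟩⟩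
    | be c s y i h h1 h2 =>
      exact .inl ⟨c, .inr ⟨s, y, h, i - S.sy s y, by omega, by congr 1; omega, rfl⟩⟩

theorem wE_le (h : 42 ≤ S.k) (v : VE) : S.wE v ≤ S.k := by
  rcases v with _ | _ | _ | _ | _ | ⟨_ | _ | _ | _, _⟩ | ⟨_ | _ | _ | _⟩ <;> simp only [Sys.wE] <;>
    omega

theorem wO_le (h : 42 ≤ S.k) (v : VO) : S.wO v ≤ S.k := by
  rcases v with _ | _ | _ | _ | _ | ⟨_ | _ | _ | _⟩ | _ | _ <;> simp only [Sys.wO] <;> omega

theorem ee_valid {u v : VE} (h : S.ee u v) : S.vE u ∧ S.vE v := by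
  cases h with
  | tt c i h => exact ⟨Nat.le_of_succ_le h, h⟩
  | rr X i h => exact ⟨Nat.lt_of_succ_lt h, h⟩
  | ap a X i h hi =>
    refine ⟨?_, hi⟩
    cases h with
    | g X => exact vR_of_lt hi
    | _ => trivial
  | st c d i h hi => exact ⟨trivial, hi⟩
  | sl c i hi => exact ⟨trivial, hi.le⟩
  | pl c i hi => exact ⟨trivial, hi.le⟩

theorem eo_valid (hS : S.WF) {u : VE} {v : VO} (h : S.eo u v) : S.vE u ∧ S.vO v := by
  cases h with
  | ap b X i h hi =>
    refine ⟨hi, ?_⟩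
    cases h with
    | g X => exact vR_of_lt hi
    | _ => trivial
  | al j i hj h1 h2 =>
    refine ⟨?_, hj⟩
    have h3 : (3 * j + 2) * S.h ≤ S.U := Nat.mul_le_mul_right _ (by omega)
    have h4 : S.U ≤ S.sz j * S.U := Nat.le_mul_of_pos_left _ (hS.sz_pos j hj)
    simp only [Sys.vE, Sys.len, if_pos hj]
    omega
  | om c d h => exact ⟨Nat.zero_le _, trivial⟩
  | be c s y i h h1 h2 =>
    refine ⟨?_, h⟩
    have h3 : (3 * y + 3) * S.h ≤ S.U := Nat.mul_le_mul_right _ (by have := h.2.1; omega)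
    have h4 : (s + 1) * S.U ≤ S.ln c * S.U := Nat.mul_le_mul_right _ h.1
    simp only [Sys.vE, Sys.L, Sys.sy, add_mul, one_mul] at *
    omega

/-- An initial segment of the numbers, cut at the length of `R`. -/
def rgL (R : List ℕ) (n : ℕ) : List ℕ := (idx R).take n

theorem rgL_eq {R : List ℕ} {n : ℕ} (h : n ≤ R.length) : rgL R n = List.range n := by
  rw [rgL, idx, List.take_range, min_eq_left h]

/-- All the lengths are below a polynomial. -/
theorem bounds (hS : S.WF) {B : ℕ} (hB : S.N + S.M + S.ln false + S.ln true ≤ B) :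
    ∀ b, b = 2000 * ((S.k + 1) ^ 2 * (B + 2) ^ 3) →
    (∀ c, S.L c + 1 ≤ b) ∧ (∀ X, lenB S X ≤ b) ∧ 2 * S.N ≤ b ∧ 3 * S.h ≤ b ∧ ∀ c, S.ln c ≤ b := by
  intro b hb
  have hk : 1 ≤ (S.k + 1) ^ 2 := Nat.one_le_pow _ _ (by omega)
  have hk' : S.k * S.k ≤ (S.k + 1) ^ 2 := by nlinarith
  have hk'' : S.k ≤ (S.k + 1) ^ 2 := by nlinarith
  have hN := hS.N_pos
  generalize (S.k + 1) ^ 2 = K at *
  have h1 : S.h ≤ 100 * K * (B + 2) := by
    have : S.h = 100 * (S.k * S.k) * (S.N + 2) := by simp only [Sys.h, Sys.dl]; ring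
    rw [this]
    exact Nat.mul_le_mul (Nat.mul_le_mul_left _ hk') (by omega)
  have h2 : S.U ≤ 600 * K * (B + 2) ^ 2 := by
    calc S.U ≤ 6 * (B + 2) * (100 * K * (B + 2)) :=
          Nat.mul_le_mul (Nat.mul_le_mul_left _ (by omega)) h1
      _ = _ := by ring
  have h3 : ∀ m ≤ B + 2, m * S.U ≤ 600 * (K * (B + 2) ^ 3) := fun m hm => by
    calc m * S.U ≤ (B + 2) * (600 * K * (B + 2) ^ 2) := Nat.mul_le_mul hm h2
      _ = _ := by ring
  have h4 : B + 2 ≤ (B + 2) ^ 3 := Nat.le_self_pow (by omega) _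
  have h5 : (B + 2) ^ 3 ≤ K * (B + 2) ^ 3 := Nat.le_mul_of_pos_left _ hk
  have h6 : K ≤ K * (B + 2) ^ 3 := Nat.le_mul_of_pos_right _ (by omega)
  have h7 : K * (B + 2) ≤ K * (B + 2) ^ 3 := Nat.mul_le_mul_left _ h4
  have hl : ∀ c, S.ln c ≤ B := fun c => by cases c <;> omega
  have a1 := h3 S.M (by omega)
  have a2 := h3 1 (by omega)
  rw [mul_assoc] at h1
  refine ⟨fun c => ?_, fun X => ?_, by omega, by omega, fun c => by have := hl c; omega⟩
  · have := h3 (S.ln c) (by have := hl c; omega)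
    simp only [Sys.L, Sys.r]
    omega
  · rw [lenB_eq]
    cases X with
    | job j =>
      simp only [Sys.len]
      split_ifs with hj
      · refine (h3 _ ?_).trans (by omega)
        rcases Nat.eq_zero_or_pos j with rfl | h0
        · rw [hS.sz_zero]
          omega
        · have := hl (S.bk j)
          rw [hS.ln_eq] at this
          have h8 : j ∈ S.bank (S.bk j) :=
            Finset.mem_filter.2 ⟨Finset.mem_range.2 hj, h0, hj, rfl⟩
          exact (Finset.single_le_sum (f := S.sz) (fun _ _ => Nat.zero_le _) h8).trans (by omega)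
      · omega
    | lat c => simp only [Sys.len, Sys.r]; omega
    | P => simp only [Sys.len]; omega
    | Om => simp only [Sys.len]; omega

theorem map_cond {α β : Type} (f : α → β) (b : Bool) (l l' : List α) :
    (cond b l l').map f = cond b (l.map f) (l'.map f) := by
  cases b <;> rfl

theorem flatMap_cond {α β : Type} (f : α → List β) (b : Bool) (l l' : List α) :
    (cond b l l').flatMap f = cond b (l.flatMap f) (l'.flatMap f) := by
  cases b <;> rfl

@[fun_prop] theorem p_np {α : Type} [N487b59b3 α] {f g : α → ℕ} (hf : Poly f) (hg : Poly g) :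
    Poly (fun a => Nat.pair (f a) (g a)) :=
  Poly.congr (f := fun a => cond (ltB (f a) (g a)) (g a * g a + f a) (f a * f a + f a + g a))
    (by fun_prop) (fun a => by
      unfold Nat.pair ltB
      by_cases h : f a < g a <;> simp [h])

theorem p_realE {α : Type} [N487b59b3 α] (k : ℕ) {A B C : α → List ((ℕ × ℕ) × (ℕ × ℕ))}
    (hA : Poly A) (hB : Poly B) (hC : Poly C) : Poly fun a => realE k (A a) (B a) (C a) := by
  simp only [realE, rg, nE, nO, nC, nD]
  fun_prop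

section
variable {α : Type} [N487b59b3 α] (k : ℕ) {R : α → List ℕ} {N M l0 l1 : α → ℕ} {sz : α → ℕ → ℕ}
  {bk e0 : α → ℕ → Bool} {o0 o1 : α → ℕ → ℕ → Bool}

/-- A system given by its components. -/
def mkS (k N M l0 l1 : ℕ) (sz : ℕ → ℕ) (bk e0 : ℕ → Bool) (o0 o1 : ℕ → ℕ → Bool) : Sys :=
  ⟨k, N, M, bk, sz, fun c => cond c l1 l0, fun c => cond c o1 o0, e0⟩

theorem p_lee (hR : Poly R) (hN : Poly N) (hM : Poly M) (h0 : Poly l0) (h1 : Poly l1)
    (hs : Poly fun p : α × ℕ => sz p.1 p.2) (hb : Poly fun p : α × ℕ => bk p.1 p.2) :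
    Poly fun a => (lee (rgL (R a)) (mkS k (N a) (M a) (l0 a) (l1 a) (sz a) (bk a) (e0 a) (o0 a)
      (o1 a))).map fun e => ((cE e.1, (mkS k (N a) (M a) (l0 a) (l1 a) (sz a) (bk a) (e0 a) (o0 a)
        (o1 a)).wE e.1), (cE e.2, (mkS k (N a) (M a) (l0 a) (l1 a) (sz a) (bk a) (e0 a) (o0 a)
        (o1 a)).wE e.2)) := by
  unfold lee leeF leeR
  simp only [regs, lenB, lapE, inbB, mkS, List.map_append, List.map_flatMap, List.map_cons,
    List.map_nil, List.map_map, map_cond, Function.comp_def, List.flatMap_append, List.flatMap_map,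
    List.flatMap_cons, List.flatMap_nil, cE, cR, Sys.wE, rgL, Sys.L, Sys.r, Sys.U, Sys.h, Sys.dl,
    cond_true, cond_false, Bool.not_true, Bool.not_false]
  fun_prop

theorem p_loo (hR : Poly R) (hN : Poly N) (h0 : Poly l0) (h1 : Poly l1)
    (ho0 : Poly fun p : α × ℕ × ℕ => o0 p.1 p.2.1 p.2.2)
    (ho1 : Poly fun p : α × ℕ × ℕ => o1 p.1 p.2.1 p.2.2) :
    Poly fun a => (loo (rgL (R a)) (mkS k (N a) (M a) (l0 a) (l1 a) (sz a) (bk a) (e0 a) (o0 a)
      (o1 a))).map fun e => ((cO e.1, (mkS k (N a) (M a) (l0 a) (l1 a) (sz a) (bk a) (e0 a) (o0 a)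
        (o1 a)).wO e.1), (cO e.2, (mkS k (N a) (M a) (l0 a) (l1 a) (sz a) (bk a) (e0 a) (o0 a)
        (o1 a)).wO e.2)) := by
  unfold loo looF
  simp only [regs, bes, mkS, List.map_append, List.map_flatMap, List.map_cons,
    List.map_nil, List.map_map, map_cond, Function.comp_def, List.flatMap_cons, List.flatMap_nil,
    cO, cR, Sys.wO, rgL, cond_true, cond_false]
  fun_prop

theorem p_leo (hR : Poly R) (hN : Poly N) (hM : Poly M) (h0 : Poly l0) (h1 : Poly l1)
    (hs : Poly fun p : α × ℕ => sz p.1 p.2) (hb : Poly fun p : α × ℕ => bk p.1 p.2)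
    (he : Poly fun p : α × ℕ => e0 p.1 p.2)
    (ho0 : Poly fun p : α × ℕ × ℕ => o0 p.1 p.2.1 p.2.2)
    (ho1 : Poly fun p : α × ℕ × ℕ => o1 p.1 p.2.1 p.2.2) :
    Poly fun a => (leo (rgL (R a)) (mkS k (N a) (M a) (l0 a) (l1 a) (sz a) (bk a) (e0 a) (o0 a)
      (o1 a))).map fun e => ((cE e.1, (mkS k (N a) (M a) (l0 a) (l1 a) (sz a) (bk a) (e0 a) (o0 a)
        (o1 a)).wE e.1), (cO e.2, (mkS k (N a) (M a) (l0 a) (l1 a) (sz a) (bk a) (e0 a) (o0 a)
        (o1 a)).wO e.2)) := by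
  unfold leo leoF
  simp only [regs, bes, lenB, lapO, inbB, mkS, List.map_append, List.map_flatMap,
    List.map_cons, List.map_nil, List.map_map, map_cond, flatMap_cond, Function.comp_def,
    List.flatMap_append, List.flatMap_map, List.flatMap_assoc, List.flatMap_cons, List.flatMap_nil,
    cE, cO, cR, Sys.wE, Sys.wO, rgL, Sys.sy, Sys.r, Sys.U, Sys.h, Sys.dl, cond_true, cond_false,
    Bool.not_true, Bool.not_false]
  fun_prop

end

theorem lists_eq {R : List ℕ} (h : (∀ c, S.L c + 1 ≤ R.length) ∧ (∀ X, lenB S X ≤ R.length) ∧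
    2 * S.N ≤ R.length ∧ 3 * S.h ≤ R.length ∧ ∀ c, S.ln c ≤ R.length) :
    lee (rgL R) S = lee List.range S ∧ loo (rgL R) S = loo List.range S ∧
      leo (rgL R) S = leo List.range S := by
  obtain ⟨h1, h2, h3, h4, h5⟩ := h
  have a1 := fun c => rgL_eq (h1 c)
  have a2 := fun c => rgL_eq (Nat.le_of_succ_le (h1 c))
  have a3 := fun X => rgL_eq (h2 X)
  have a4 := rgL_eq h3
  have a5 := rgL_eq h4
  have a6 := fun c => rgL_eq (h5 c)
  have a7 : rgL R S.N = List.range S.N := rgL_eq (by omega)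
  have a8 : rgL R S.h = List.range S.h := rgL_eq (by omega)
  unfold lee loo leo leeF looF leoF
  simp only [regs, bes, a1, a2, a3, a4, a5, a6, a7, a8, and_self]

theorem parity (k : ℕ) (A B C : List ((ℕ × ℕ) × (ℕ × ℕ))) :
    ∀ e ∈ realE k A B C, Even e.1 ∧ Odd e.2 := by
  intro e he
  simp only [realE, List.mem_append, List.mem_flatMap, List.mem_map] at he
  rcases he with ⟨_, -, _, -, _, -, rfl⟩ | ⟨_, -, _, -, ⟨_, -, rfl⟩ | ⟨_, -, rfl⟩⟩ |
    ⟨_, -, _, -, ⟨_, -, rfl⟩ | ⟨_, -, rfl⟩⟩ <;>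
    simp only [nE, nO, nC, nD, Nat.even_iff, Nat.odd_iff] <;> omega

end EncR

open EncR in
theorem enc : EncStmt := by
  intro real k S hP hS
  obtain ⟨R0, hR0, hR1⟩ := hP.un
  obtain ⟨R, hR, hR2⟩ := exists_list_eval hR0
    (Polynomial.C 2000 * (Polynomial.C ((k + 1) ^ 2) * (Polynomial.X + Polynomial.C 2) ^ 3))
  have e : ∀ x, mkS k (S x).N (S x).M ((S x).ln false) ((S x).ln true) (S x).sz (S x).bk (S x).e0
      ((S x).ok false) ((S x).ok true) = S x := fun x => by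
    have := (hS x).1
    generalize S x = T at *
    cases T
    simp only [mkS, Sys.mk.injEq, true_and, and_true]
    exact ⟨this.symm, funext fun c => by cases c <;> rfl, funext fun c => by cases c <;> rfl⟩
  have p1 := p_lee k (sz := fun x => (S x).sz) (bk := fun x => (S x).bk)
    (e0 := fun x => (S x).e0) (o0 := fun x => (S x).ok false)
    (o1 := fun x => (S x).ok true) hR hP.N hP.M (hP.ln false) (hP.ln true) hP.sz hP.bk
  have p2 := p_loo k (M := fun x => (S x).M) (sz := fun x => (S x).sz) (bk := fun x => (S x).bk)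
    (e0 := fun x => (S x).e0) (o0 := fun x => (S x).ok false) (o1 := fun x => (S x).ok true) hR
    hP.N (hP.ln false) (hP.ln true) (hP.ok false) (hP.ok true)
  have p3 := p_leo k (sz := fun x => (S x).sz) (bk := fun x => (S x).bk)
    (e0 := fun x => (S x).e0) (o0 := fun x => (S x).ok false) (o1 := fun x => (S x).ok true) hR
    hP.N hP.M (hP.ln false) (hP.ln true) hP.sz hP.bk hP.e0 (hP.ok false) (hP.ok true)
  simp only [e] at p1 p2 p3
  refine ⟨_, p_realE k p1 p2 p3, fun x => ⟨parity _ _ _ _, ?_⟩⟩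
  obtain ⟨hk, hW⟩ := hS x
  obtain ⟨e1, e2, e3⟩ := lists_eq (R := R x) (bounds hW (hR1 x) _ (by rw [hR2, hk]; simp))
  rw [e1, e2, e3]
  exact real VE VO (S x).G k cE cO _ _ _ cE_inj cO_inj (hk ▸ wE_le hW.k_ge) (hk ▸ wO_le hW.k_ge)
    (fun _ _ => ee_valid) (fun _ _ h => by cases h; exact ⟨trivial, trivial⟩)
    (fun _ _ => eo_valid hW) mem_lee mem_loo mem_leo

end Pool.Agent.MP_9694c2_lc.PS
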