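import Pool.Agent.MP_9694c2_lc.PS.Spec

/-!
Completeness of the job system of an automaton.
-/

set_option autoImplicit false

namespace Pool.Agent.MP_9694c2_lc.PS

namespace JC

/-- Tilings in which every job sits at the slot `pos j`. -/
def TP (S : Sys) (c : Bool) (pos : ℕ → ℕ) : ℕ → List ℕ → Prop
  | _, [] => True
  | s, j :: l => (S.ok c s j = true ∧ pos j = s ∧ 0 < S.sz j) ∧ TP S c pos (s + S.sz j) l

section
variable {S : Sys} {c : Bool} {pos : ℕ → ℕ}

theorem TP.all {s : ℕ} {l : List ℕ} (h : TP S c pos s l) :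
    S.Til c s l ∧ l.Nodup ∧ ∀ j ∈ l, s ≤ pos j := by
  induction l generalizing s with
  | nil => simp [Sys.Til]
  | cons j l ih =>
    obtain ⟨⟨h1, h2, h3⟩, h4⟩ := h
    obtain ⟨a, b, d⟩ := ih h4
    refine ⟨⟨h1, a⟩, List.nodup_cons.2 ⟨fun m => ?_, b⟩, fun i hi => ?_⟩
    · have := d j m
      omega
    · rcases List.mem_cons.1 hi with rfl | m
      · omega
      · have := d i m
        omega

theorem TP.append {s : ℕ} {l l' : List ℕ} (h : TP S c pos s l)
    (h' : TP S c pos (s + (l.map S.sz).sum) l') : TP S c pos s (l ++ l') := by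
  induction l generalizing s with
  | nil => simpa using h'
  | cons j l ih => exact ⟨h.1, ih h.2 (by simpa [add_assoc] using h')⟩

theorem blocks (b : ℕ → List ℕ) (m : ℕ)
    (h : ∀ g < m, TP S c pos (3 * g) (b g) ∧ ((b g).map S.sz).sum = 3) :
    TP S c pos 0 ((List.range m).flatMap b) ∧
      (((List.range m).flatMap b).map S.sz).sum = 3 * m := by
  induction m with
  | zero => simp [TP]
  | succ m ih =>
    obtain ⟨a, d⟩ := ih fun g hg => h g (by omega)
    obtain ⟨e, f⟩ := h m (by omega)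
    rw [List.range_succ, List.flatMap_append, List.flatMap_singleton]
    refine ⟨a.append (by rwa [d, zero_add]), ?_⟩
    rw [List.map_append, List.sum_append, d, f]
    omega

theorem tiling {E O : Finset ℕ} {l : List ℕ} (h : TP S c pos 0 l)
    (m : ∀ j, j ∈ l ↔ (S.inb c j ∧ j ∉ E) ∨ j ∈ O) : S.Tiling c E O :=
  ⟨l, h.all.2.1, m, h.all.1⟩

end

theorem dm {A c : ℕ} (x : ℕ) (h : c < A) : (x * A + c) / A = x ∧ (x * A + c) % A = c := by
  rw [add_comm, Nat.add_mul_div_right _ _ (by omega), Nat.add_mul_mod_self_right,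
    Nat.div_eq_of_lt h, Nat.mod_eq_of_lt h, zero_add]
  exact ⟨rfl, rfl⟩

/-- The true gate of cell `i`. -/
def tg (C : CA) (w : ℕ → ℕ) (i : ℕ) : ℕ :=
  ((i * C.A + w (C.pr i)) * C.A + w i) * C.A + w (C.nx i)

variable {C : CA} {w : ℕ → ℕ} {k : ℕ}

theorem tg_spec (hw : ∀ i, w i < C.A) (i : ℕ) : C.cell (tg C w i) = i ∧
    C.lt (tg C w i) 0 = w (C.pr i) ∧ C.lt (tg C w i) 1 = w i ∧ C.lt (tg C w i) 2 = w (C.nx i) := by
  simp [CA.cell, CA.lt, tg, ← Nat.div_div_eq_div_mul, dm _ (hw _)]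

theorem tru_tg (hw : ∀ i, w i < C.A) (i : ℕ) : C.tru w (tg C w i) := by
  obtain ⟨a, b⟩ := tg_spec hw i
  rwa [CA.tru, a]

theorem eq_tg {g : ℕ} (h : C.tru w g) : tg C w (C.cell g) = g := by
  obtain ⟨a, b, c⟩ := h
  rw [tg, ← a, ← b, ← c]
  simp [CA.cell, CA.lt, ← Nat.div_div_eq_div_mul, Nat.div_add_mod']

theorem cell_lt_iff (hA : 0 < C.A) (g : ℕ) : C.cell g < C.n ↔ g < C.ng :=
  Nat.div_lt_iff_lt_mul (by positivity)

theorem tg_lt (hw : ∀ i, w i < C.A) {i : ℕ} (hi : i < C.n) : tg C w i < C.ng := by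
  rwa [← cell_lt_iff (Nat.zero_lt_of_lt (hw 0)), (tg_spec hw i).1]

theorem cfg_lt (h : C.WF) (t i : ℕ) : C.cfg t i < C.A := by
  cases t with
  | zero => exact h.ini_lt i
  | succ t => exact h.rule_lt _ _ _ _

theorem val_tg (h : C.WF) (t i : ℕ) : C.val (tg C (C.cfg t) i) = C.cfg (t + 1) i := by
  obtain ⟨a, b, c, d⟩ := tg_spec (cfg_lt h t) i
  rw [CA.val, a, b, c, d]
  rfl

theorem src_inv {i j : ℕ} (hi : i < C.n) (hj : j < 3) :
    C.src i j < C.n ∧ C.src (C.src i j) (2 - j) = i := by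
  have : j = 0 ∨ j = 1 ∨ j = 2 := by omega
  rcases this with rfl | rfl | rfl <;> simp [CA.src, CA.pr, CA.nx] <;> grind

theorem lt_tg (hw : ∀ i, w i < C.A) (i : ℕ) {j : ℕ} (hj : j < 3) :
    C.lt (tg C w i) j = w (C.src i j) := by
  obtain ⟨_, b, c, d⟩ := tg_spec hw i
  have : j = 0 ∨ j = 1 ∨ j = 2 := by omega
  rcases this with rfl | rfl | rfl <;> simp [CA.src, *]

/-! ### The jobs -/

theorem inb_f (j : ℕ) : (C.toSys k).inb false j ↔
    C.ng < j ∧ j < 1 + C.ng + 3 * C.ng + 3 * C.n * C.n := by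
  simp only [Sys.inb, CA.toSys, decide_eq_false_iff_not]
  omega

theorem inb_t (j : ℕ) : (C.toSys k).inb true j ↔ 0 < j ∧ j ≤ C.ng := by
  simp only [Sys.inb, CA.toSys, decide_eq_true_eq]
  omega

theorem sz_g {g : ℕ} (h : g < C.ng) : (C.toSys k).sz (1 + g) = 3 := by
  simp only [CA.toSys]
  rw [if_neg (by omega), if_pos (by omega)]

theorem sz_u (u : ℕ) : (C.toSys k).sz (C.ng + 1 + u) = 1 := by
  simp only [CA.toSys]
  rw [if_neg (by omega), if_neg (by omega)]

theorem ok_g (c : Bool) {g : ℕ} (h : g < C.ng) : (C.toSys k).ok c (3 * g) (1 + g) = true := by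
  simp only [CA.toSys]
  rw [if_neg (by omega), if_pos (by omega)]
  simp

theorem ok_f (u : ℕ) : (C.toSys k).ok false u (C.ng + 1 + u) = true := by
  simp only [CA.toSys]
  rw [if_neg (by omega), if_neg (by omega), if_neg (by simp)]
  simp only [decide_eq_true_eq]
  omega

theorem ok_t {s u : ℕ} (h : C.okX s u) : (C.toSys k).ok true s (C.ng + 1 + u) = true := by
  simp only [CA.toSys]
  rw [if_neg (by omega), if_neg (by omega), if_pos trivial,
    show C.ng + 1 + u - C.ng - 1 = u by omega]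
  simpa using h

/-- The slots in the word of the inputs. -/
def pf (C : CA) (z j : ℕ) : ℕ := if j = 0 then z else if j ≤ C.ng then 3 * (j - 1) else j - C.ng - 1

theorem run (z s m : ℕ) :
    TP (C.toSys k) false (pf C z) s ((List.range' s m).map (C.ng + 1 + ·)) ∧
      (((List.range' s m).map (C.ng + 1 + ·)).map (C.toSys k).sz).sum = m := by
  induction m generalizing s with
  | zero => simp [TP]
  | succ m ih =>
    rw [List.range'_succ, List.map_cons, List.map_cons, List.sum_cons, (ih _).2, sz_u]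
    refine ⟨⟨⟨ok_f s, ?_, by rw [sz_u]; omega⟩, by rw [sz_u]; exact (ih _).1⟩, by omega⟩
    rw [pf, if_neg (by omega), if_neg (by omega)]
    omega

/-- The true gates. -/
def Gt (C : CA) (w : ℕ → ℕ) : Finset ℕ := (Finset.range C.n).image fun i => 1 + tg C w i

/-- The inputs of the true gates. -/
def In (C : CA) (w : ℕ → ℕ) : Finset ℕ :=
  (Finset.range (C.toSys 0).N).filter fun j =>
    C.ng < j ∧ j - C.ng - 1 < 3 * C.ng ∧ C.tru w ((j - C.ng - 1) / 3)

theorem mem_Gt (hw : ∀ i, w i < C.A) (j : ℕ) :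
    j ∈ Gt C w ↔ 0 < j ∧ j ≤ C.ng ∧ C.tru w (j - 1) := by
  simp only [Gt, Finset.mem_image, Finset.mem_range]
  constructor
  · rintro ⟨i, hi, rfl⟩
    have := tg_lt hw hi
    exact ⟨by omega, by omega, by simpa using tru_tg hw i⟩
  · rintro ⟨a, b, c⟩
    exact ⟨_, (cell_lt_iff (Nat.zero_lt_of_lt (hw 0)) (j - 1)).2 (by omega), by
      rw [eq_tg c]; omega⟩

theorem mem_In (j : ℕ) : j ∈ In C w ↔
    C.ng < j ∧ j - C.ng - 1 < 3 * C.ng ∧ C.tru w ((j - C.ng - 1) / 3) := by
  simp only [In, Finset.mem_filter, Finset.mem_range, CA.toSys, and_iff_right_iff_imp]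
  omega

/-- From the inputs to the gates. -/
theorem stepA (hw : ∀ i, w i < C.A) (h : (C.toSys k).R false (In C w)) :
    (C.toSys k).R true (Gt C w) := by
  refine Sys.R.step false _ _ h (fun j hj => ?_) ?_ ?_
  · have := (mem_Gt hw j).1 hj
    exact (inb_t j).2 ⟨this.1, this.2.1⟩
  · rw [Gt, Finset.sum_image fun i _ i' _ e => by
      rw [← (tg_spec hw i).1, ← (tg_spec hw i').1, Nat.add_left_cancel e],
      Finset.sum_congr rfl fun i hi => sz_g (tg_lt hw (Finset.mem_range.1 hi))]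
    simp [CA.toSys, mul_comm]
  obtain ⟨a, b⟩ := blocks (S := C.toSys k) (c := false) (pos := pf C 0)
    (fun g => if C.tru w g then [1 + g] else (List.range' (3 * g) 3).map (C.ng + 1 + ·)) C.ng
    fun g hg => by
      split_ifs
      · refine ⟨⟨⟨ok_g _ hg, ?_, by rw [sz_g hg]; omega⟩, trivial⟩, by simp [sz_g hg]⟩
        rw [pf, if_neg (by omega), if_pos (by omega)]
        omega
      · exact run 0 _ _
  refine tiling (a.append (by rw [b, zero_add]; exact (run 0 _ (3 * C.n * C.n)).1)) fun j => ?_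
  simp only [List.mem_append, List.mem_flatMap, List.mem_range, List.mem_map, List.mem_range'_1,
    inb_f, mem_In, mem_Gt hw]
  constructor
  · rintro (⟨g, hg, m⟩ | ⟨u, hu, rfl⟩)
    · split_ifs at m with t
      · obtain rfl := List.mem_singleton.1 m
        exact Or.inr ⟨by omega, by omega, by simpa using t⟩
      · obtain ⟨u, hu, rfl⟩ := List.mem_map.1 m
        rw [List.mem_range'_1] at hu
        refine Or.inl ⟨by omega, fun d => t ?_⟩
        rw [show g = (C.ng + 1 + u - C.ng - 1) / 3 by omega]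
        exact d.2.2
    · exact Or.inl ⟨by omega, by omega⟩
  · rintro (⟨d, e⟩ | ⟨d, e, f⟩)
    · rcases lt_or_ge (j - C.ng - 1) (3 * C.ng) with p | p
      · refine Or.inl ⟨(j - C.ng - 1) / 3, by omega, ?_⟩
        rw [if_neg fun t => e ⟨d.1, p, t⟩]
        exact List.mem_map.2 ⟨j - C.ng - 1, List.mem_range'_1.2 (by omega), by omega⟩
      · exact Or.inr ⟨j - C.ng - 1, by omega, by omega⟩
    · exact Or.inl ⟨j - 1, by omega, by rw [if_pos f]; simp; omega⟩

/-- The cell that feeds an input. -/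
def back (C : CA) (u : ℕ) : ℕ :=
  if u < 3 * C.ng then C.src (C.cell (u / 3)) (u % 3) else (u - 3 * C.ng) % (3 * C.n) / 3

theorem okX_back {s u : ℕ} (h : C.okX s u) : u % 3 = s % 3 ∧ back C u = C.cell (s / 3) := by
  refine ⟨h.1, ?_⟩
  have := h.2
  rw [back]
  split_ifs at this ⊢
  · exact this.1
  · exact this.1

/-- From the gates to inputs that they feed. -/
theorem stepB (hw : ∀ i, w i < C.A) (φ : ℕ → ℕ → ℕ) (O : Finset ℕ)
    (h1 : ∀ i < C.n, ∀ j < 3, φ i j < 3 * C.ng + 3 * C.n * C.n ∧ C.okX (3 * tg C w i + j) (φ i j))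
    (h2 : ∀ x, x ∈ O ↔ ∃ i < C.n, ∃ j < 3, x = C.ng + 1 + φ i j)
    (h : (C.toSys k).R true (Gt C w)) : (C.toSys k).R false O := by
  have bk : ∀ i < C.n, ∀ j < 3, φ i j % 3 = j ∧ back C (φ i j) = i := fun i hi j hj => by
    obtain ⟨a, b⟩ := okX_back (h1 i hi j hj).2
    rw [show (3 * tg C w i + j) / 3 = tg C w i by omega, (tg_spec hw i).1] at b
    exact ⟨by omega, b⟩
  refine Sys.R.step true _ _ h (fun j hj => ?_) ?_ ?_
  · obtain ⟨i, hi, m, hm, rfl⟩ := (h2 j).1 hj
    have := (h1 i hi m hm).1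
    exact (inb_f _).2 (by omega)
  · have e : O = (Finset.range C.n ×ˢ Finset.range 3).image fun p => C.ng + 1 + φ p.1 p.2 := by
      ext x
      simp only [h2, Finset.mem_image, Finset.mem_product, Finset.mem_range, Prod.exists]
      exact ⟨fun ⟨i, a, j, b, e⟩ => ⟨i, j, ⟨a, b⟩, e.symm⟩,
        fun ⟨i, j, ⟨a, b⟩, e⟩ => ⟨i, a, j, b, e.symm⟩⟩
    rw [e, Finset.sum_image fun p hp p' hp' e => by
      simp only [Finset.coe_product, Finset.coe_range, Set.mem_prod, Set.mem_Iio] at hp hp'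
      have a := bk _ hp.1 _ hp.2
      have b := bk _ hp'.1 _ hp'.2
      rw [← Nat.add_left_cancel e] at b
      exact Prod.ext (a.2.symm.trans b.2) (a.1.symm.trans b.1)]
    simp only [sz_u]
    simp [CA.toSys, mul_comm]
  have hc : ∀ g < C.ng, C.cell g < C.n := fun g =>
    (cell_lt_iff (Nat.zero_lt_of_lt (hw 0)) g).2
  obtain ⟨a, -⟩ := blocks (S := C.toSys k) (c := true)
    (pos := fun j => if j ≤ C.ng then 3 * (j - 1) else
      3 * tg C w (back C (j - C.ng - 1)) + (j - C.ng - 1) % 3)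
    (fun g => if C.tru w g then [C.ng + 1 + φ (C.cell g) 0, C.ng + 1 + φ (C.cell g) 1,
      C.ng + 1 + φ (C.cell g) 2] else [1 + g]) C.ng
    fun g hg => by
      split_ifs with t
      · have one : ∀ j < 3, (C.toSys k).ok true (3 * g + j) (C.ng + 1 + φ (C.cell g) j) = true ∧
            (if C.ng + 1 + φ (C.cell g) j ≤ C.ng then 3 * (C.ng + 1 + φ (C.cell g) j - 1) else
              3 * tg C w (back C (C.ng + 1 + φ (C.cell g) j - C.ng - 1)) +
                (C.ng + 1 + φ (C.cell g) j - C.ng - 1) % 3) = 3 * g + j ∧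
            0 < (C.toSys k).sz (C.ng + 1 + φ (C.cell g) j) := fun j hj => by
          have a := (h1 _ (hc g hg) j hj).2
          have b := bk _ (hc g hg) j hj
          rw [eq_tg t] at a
          refine ⟨ok_t a, ?_, by rw [sz_u]; omega⟩
          rw [if_neg (by omega), show C.ng + 1 + φ (C.cell g) j - C.ng - 1 = φ (C.cell g) j by omega,
            b.1, b.2, eq_tg t]
        refine ⟨⟨one 0 (by omega), ?_, ?_, trivial⟩, by simp [sz_u]⟩
        · rw [sz_u]
          exact one 1 (by omega)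
        · rw [sz_u, sz_u]
          exact one 2 (by omega)
      · refine ⟨⟨⟨ok_g _ hg, ?_, by rw [sz_g hg]; omega⟩, trivial⟩, by simp [sz_g hg]⟩
        beta_reduce
        rw [if_pos (by omega)]
        omega
  refine tiling a fun x => ?_
  simp only [List.mem_flatMap, List.mem_range, inb_t, mem_Gt hw, h2]
  constructor
  · rintro ⟨g, hg, m⟩
    split_ifs at m with t
    · refine Or.inr ⟨_, hc g hg, ?_⟩
      simp only [List.mem_cons, List.not_mem_nil, or_false] at m
      rcases m with m | m | m <;> exact ⟨_, by omega, m⟩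
    · obtain rfl := List.mem_singleton.1 m
      exact Or.inl ⟨by omega, fun d => t (by simpa using d.2.2)⟩
  · rintro (⟨d, e⟩ | ⟨i, hi, j, hj, rfl⟩)
    · exact ⟨x - 1, by omega, by rw [if_neg fun t => e ⟨d.1, d.2, t⟩]; simp; omega⟩
    · refine ⟨tg C w i, tg_lt hw hi, ?_⟩
      rw [if_pos (tru_tg hw i), (tg_spec hw i).1]
      have : j = 0 ∨ j = 1 ∨ j = 2 := by omega
      rcases this with rfl | rfl | rfl <;> simp

theorem reach (h : C.WF) (t : ℕ) : (C.toSys k).R true (Gt C (C.cfg t)) := by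
  induction t with
  | zero =>
    refine stepA (cfg_lt h 0) ?_
    have e : In C (C.cfg 0) = (C.toSys k).E0 := by
      ext j
      simp [In, Sys.E0, CA.toSys, CA.cfg]
    exact e ▸ Sys.R.init
  | succ t ih =>
    have hw := cfg_lt h (t + 1)
    refine stepA hw (stepB (cfg_lt h t)
      (fun i j => 3 * tg C (C.cfg (t + 1)) (C.src i (2 - j)) + j) _ (fun i hi j hj => ?_)
      (fun x => ?_) ih)
    · obtain ⟨a, b⟩ := src_inv hi (j := 2 - j) (by omega)
      have c := tg_lt hw a
      rw [show 2 - (2 - j) = j by omega] at b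
      refine ⟨by omega, by omega, ?_⟩
      rw [if_pos (by omega), show (3 * tg C (C.cfg (t + 1)) (C.src i (2 - j)) + j) / 3 =
        tg C (C.cfg (t + 1)) (C.src i (2 - j)) by omega, show (3 * tg C (C.cfg (t + 1))
        (C.src i (2 - j)) + j) % 3 = j by omega, show (3 * tg C (C.cfg t) i + j) / 3 =
        tg C (C.cfg t) i by omega, (tg_spec hw _).1, (tg_spec (cfg_lt h t) _).1, lt_tg hw _ hj,
        val_tg h, b]
      exact ⟨rfl, rfl⟩
    · rw [mem_In]
      constructor
      · rintro ⟨a, b, c⟩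
        have d := (cell_lt_iff (Nat.zero_lt_of_lt (hw 0)) ((x - C.ng - 1) / 3)).2 (by omega)
        obtain ⟨e, f⟩ := src_inv d (j := (x - C.ng - 1) % 3) (by omega)
        refine ⟨_, e, (x - C.ng - 1) % 3, by omega, ?_⟩
        rw [f, eq_tg c]
        omega
      · rintro ⟨i, hi, j, hj, rfl⟩
        have c := tg_lt hw (src_inv hi (j := 2 - j) (by omega)).1
        refine ⟨by omega, by omega, ?_⟩
        rw [show (C.ng + 1 + (3 * tg C (C.cfg (t + 1)) (C.src i (2 - j)) + j) - C.ng - 1) / 3 =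
          tg C (C.cfg (t + 1)) (C.src i (2 - j)) by omega]
        exact tru_tg hw _

end JC

open JC in
theorem jobCompl : JobCompl := by
  rintro C k h ⟨t, i0, h0, acc⟩
  have hw := cfg_lt h t
  have hn : i0 * (3 * C.n) + 3 * C.n ≤ 3 * C.n * C.n := by nlinarith
  let z := 3 * C.ng + i0 * (3 * C.n)
  have R := stepB (k := k) hw (fun i j => z + (3 * i + j))
    ((Finset.Ico (C.ng + 1 + z) (C.ng + 1 + z + 3 * C.n))) (fun i hi j hj => ?_) (fun x => ?_)
    (reach h t)
  · refine ⟨false, _, R, ?_⟩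
    have p : TP (C.toSys k) false (pf C z) 0 ((List.range' 0 z).map (C.ng + 1 + ·) ++ 0 ::
        (List.range' (z + 3 * C.n) (3 * C.n * C.n - (i0 * (3 * C.n) + 3 * C.n))).map
          (C.ng + 1 + ·)) := by
      refine (run z 0 z).1.append ?_
      rw [(run z 0 z).2, zero_add]
      refine ⟨⟨?_, by simp [pf], ?_⟩, (run z _ _).1⟩
      · simp [CA.toSys, z]
      · have := h.n_pos
        simp only [CA.toSys, if_true]
        omega
    refine tiling p fun j => ?_
    simp only [List.mem_append, List.mem_cons, List.mem_map, List.mem_range'_1, inb_f,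
      Finset.mem_Ico, Finset.mem_singleton]
    constructor
    · rintro (⟨u, a, rfl⟩ | rfl | ⟨u, a, rfl⟩) <;> omega
    · rintro (⟨a, b⟩ | rfl)
      · rcases lt_or_ge j (C.ng + 1 + z) with c | c
        · exact Or.inl ⟨j - C.ng - 1, by omega, by omega⟩
        · exact Or.inr (Or.inr ⟨j - C.ng - 1, by omega, by omega⟩)
      · exact Or.inr (Or.inl rfl)
  · have e : i0 * (3 * C.n) % 3 = 0 := by rw [mul_left_comm, Nat.mul_mod_right]
    obtain ⟨a, b⟩ := dm i0 (show 3 * i + j < 3 * C.n by omega)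
    refine ⟨by omega, by omega, ?_⟩
    rw [if_neg (by omega), show z + (3 * i + j) - 3 * C.ng = i0 * (3 * C.n) + (3 * i + j) by omega,
      a, b, show (3 * tg C (C.cfg t) i + j) / 3 = tg C (C.cfg t) i by omega, (tg_spec hw _).1,
      val_tg h]
    exact ⟨by omega, fun d _ => d ▸ acc⟩
  · rw [Finset.mem_Ico]
    constructor
    · exact fun a => ⟨(x - (C.ng + 1 + z)) / 3, by omega, (x - (C.ng + 1 + z)) % 3, by omega,
        by omega⟩
    · rintro ⟨i, a, j, b, rfl⟩
      omega

end Pool.Agent.MP_9694c2_lc.PS
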