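import Pool.Agent.MP_9694c2_lc.PS.Spec

/-!
Soundness of the job system of an automaton.
-/

set_option autoImplicit false

namespace Pool.Agent.MP_9694c2_lc.PS

namespace JSnd

/-- the jobs of a tiling occupy disjoint intervals -/
theorem til (S : Sys) (c : Bool) (l : List ℕ) : ∀ s0, S.Til c s0 l → ∀ j ∈ l, ∃ s,
    S.ok c s j = true ∧ s0 ≤ s ∧ s + S.sz j ≤ s0 + (l.map S.sz).sum ∧
      ∀ i ∈ l, i ≠ j → ∃ s', S.ok c s' i = true ∧ (s' + S.sz i ≤ s ∨ s + S.sz j ≤ s') := by
  induction l with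
  | nil => intro _ _ j hj; cases hj
  | cons a l ih =>
    intro s0 h j hj
    rw [List.map_cons, List.sum_cons]
    by_cases e : j = a
    · subst e
      refine ⟨s0, h.1, le_rfl, by omega, fun i hi hij => ?_⟩
      obtain ⟨s', h1, h2, -⟩ := ih _ h.2 i ((List.mem_cons.1 hi).resolve_left hij)
      exact ⟨s', h1, Or.inr h2⟩
    · obtain ⟨s, h1, h2, h3, h4⟩ := ih _ h.2 j ((List.mem_cons.1 hj).resolve_left e)
      refine ⟨s, h1, by omega, by omega, fun i hi hij => ?_⟩
      rcases List.mem_cons.1 hi with rfl | hi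
      · exact ⟨s0, h.1, Or.inl h2⟩
      · exact h4 i hi hij

theorem reach {S : Sys} (hS : S.WF) {c : Bool} {E : Finset ℕ} (h : S.R c E) :
    (∀ j ∈ E, S.inb c j) ∧ ∑ j ∈ E, S.sz j = S.M := by
  cases h with
  | init =>
    exact ⟨fun j hj => hS.e0_inb j (Finset.mem_range.1 (Finset.mem_filter.1 hj).1)
      (Finset.mem_filter.1 hj).2, hS.e0_sum⟩
  | step c E O _ h1 h2 _ => exact ⟨h1, h2⟩

/-- an optional job lies inside the word and avoids the jobs of the bank that are not done -/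
theorem cover {S : Sys} (hS : S.WF) {c : Bool} {E O : Finset ℕ} (h : S.R c E)
    (hT : S.Tiling c E O) (hO : ∑ j ∈ O, S.sz j = S.M) {j : ℕ} (hj : j ∈ O) : ∃ s,
    S.ok c s j = true ∧ s + S.sz j ≤ S.ln c ∧ ∀ i, S.inb c i → i ≠ j → i ∉ E →
      ∃ s', S.ok c s' i = true ∧ (s' + S.sz i ≤ s ∨ s + S.sz j ≤ s') := by
  obtain ⟨l, h1, h2, h3⟩ := hT
  obtain ⟨s, a1, -, a2, a3⟩ := til S c l 0 h3 j ((h2 j).2 (Or.inr hj))
  refine ⟨s, a1, ?_, fun i hi hij hE => a3 i ((h2 i).2 (Or.inl ⟨hi, hE⟩)) hij⟩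
  obtain ⟨b1, b2⟩ := reach hS h
  have hb : ∀ i, i ∈ S.bank c ↔ S.inb c i := fun i =>
    Finset.mem_filter.trans ⟨fun a => a.2, fun a => ⟨Finset.mem_range.2 a.2.1, a⟩⟩
  have e : l.toFinset = (S.bank c \ E) ∪ O := by
    ext i
    rw [List.mem_toFinset, h2, Finset.mem_union, Finset.mem_sdiff, hb]
  have e1 : ∑ x ∈ l.toFinset, S.sz x = (l.map S.sz).sum := List.sum_toFinset S.sz h1
  have e2 := Finset.sum_union_inter (s₁ := S.bank c \ E) (s₂ := O) (f := S.sz)
  have e3 := Finset.sum_sdiff (f := S.sz) (show E ⊆ S.bank c from fun i hi => (hb i).2 (b1 i hi))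
  have e4 := hS.ln_eq c
  rw [e] at e1
  omega

variable {C : CA} {k : ℕ}

theorem inb_true (j : ℕ) : (C.toSys k).inb true j ↔ 0 < j ∧ j ≤ C.ng := by
  simp only [Sys.inb, CA.toSys, decide_eq_true_eq]
  omega

theorem inb_false (j : ℕ) :
    (C.toSys k).inb false j ↔ C.ng < j ∧ j < 1 + C.ng + 3 * C.ng + 3 * C.n * C.n := by
  simp only [Sys.inb, CA.toSys, decide_eq_false_iff_not]
  omega

theorem ok_gate (c : Bool) (s : ℕ) {g : ℕ} (hg : g < C.ng) :
    (C.toSys k).ok c s (g + 1) = true ↔ s = 3 * g := by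
  simp [CA.toSys, Nat.succ_le_of_lt hg]

theorem sz_gate {g : ℕ} (hg : g < C.ng) : (C.toSys k).sz (g + 1) = 3 := by
  simp [CA.toSys, Nat.succ_le_of_lt hg]

theorem ok_false (s u : ℕ) : (C.toSys k).ok false s (u + C.ng + 1) = true ↔ s = u := by
  have h : ¬u + C.ng + 1 ≤ C.ng := by omega
  have e : u + C.ng + 1 - C.ng - 1 = u := by omega
  simp [CA.toSys, h, e]

theorem ok_true (s u : ℕ) : (C.toSys k).ok true s (u + C.ng + 1) = true ↔ C.okX s u := by
  have h : ¬u + C.ng + 1 ≤ C.ng := by omega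
  have e : u + C.ng + 1 - C.ng - 1 = u := by omega
  simp [CA.toSys, h, e]

theorem sz_inp (u : ℕ) : (C.toSys k).sz (u + C.ng + 1) = 1 := by
  have h : ¬u + C.ng + 1 ≤ C.ng := by omega
  simp [CA.toSys, h]

/-- the jobs that are done agree with one configuration -/
def Inv (C : CA) (c : Bool) (E : Finset ℕ) : Prop :=
  ∃ t, (c = true → ∀ g, g + 1 ∈ E → C.tru (C.cfg t) g) ∧
    (c = false → ∀ u, u + C.ng + 1 ∈ E →
      (u < 3 * C.ng → C.lt (u / 3) (u % 3) = C.cfg t (C.src (C.cell (u / 3)) (u % 3))) ∧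
      (3 * C.ng ≤ u → (u - 3 * C.ng) / (3 * C.n) = (u - 3 * C.ng) % (3 * C.n) / 3 → u % 3 = 1 →
        C.Acc))

theorem inv (hC : C.WF) (hS : (C.toSys k).WF) {c : Bool} {E : Finset ℕ}
    (h : (C.toSys k).R c E) : Inv C c E := by
  induction h with
  | init =>
    refine ⟨0, fun e => (by cases e), fun _ u hu => ?_⟩
    have e : u + C.ng + 1 - C.ng - 1 = u := by omega
    have h1 := (Finset.mem_filter.1 hu).2
    simp only [CA.toSys, e, decide_eq_true_eq] at h1
    obtain ⟨-, h1, h2, h3, h4⟩ := h1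
    refine ⟨fun _ => ?_, fun a => by omega⟩
    have : u % 3 = 0 ∨ u % 3 = 1 ∨ u % 3 = 2 := by omega
    rcases this with a | a | a <;> rw [a]
    · exact h2
    · exact h3
    · exact h4
  | step c E O hR hO hM hT ih =>
    obtain ⟨t, i1, i2⟩ := ih
    cases c with
    | false =>
      refine ⟨t, fun _ g hg => ?_, fun e => by cases e⟩
      have g1 : g < C.ng := ((inb_true _).1 (hO _ hg)).2
      obtain ⟨s, a1, -, a3⟩ := cover hS hR hT hM hg
      rw [ok_gate _ _ g1] at a1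
      have key : ∀ j < 3, C.lt g j = C.cfg t (C.src (C.cell g) j) := fun j hj => by
        have m : 3 * g + j + C.ng + 1 ∈ E := by
          by_contra m
          obtain ⟨s', b1, b2⟩ := a3 _ ((inb_false _).2 (by omega)) (by omega) m
          rw [ok_false] at b1
          rw [sz_inp, sz_gate g1] at b2
          omega
        have := (i2 rfl _ m).1 (by omega)
        rwa [show (3 * g + j) / 3 = g by omega, show (3 * g + j) % 3 = j by omega] at this
      exact ⟨key 0 (by omega), key 1 (by omega), key 2 (by omega)⟩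
    | true =>
      refine ⟨t + 1, fun e => (by cases e), fun _ u hu => ?_⟩
      obtain ⟨s, a1, a2, a3⟩ := cover hS hR hT hM hu
      rw [ok_true] at a1
      rw [sz_inp, show (C.toSys k).ln true = 3 * C.ng from rfl] at a2
      have g1 : s / 3 < C.ng := by omega
      have m : s / 3 + 1 ∈ E := by
        by_contra m
        obtain ⟨s', b1, b2⟩ := a3 _ ((inb_true _).2 (by omega)) (by omega) m
        rw [ok_gate _ _ g1] at b1
        rw [sz_inp, sz_gate g1] at b2
        omega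
      obtain ⟨t0, t1, t2⟩ := i1 rfl _ m
      have hv : C.val (s / 3) = C.cfg (t + 1) (C.cell (s / 3)) := by
        rw [CA.val, t0, t1, t2]; rfl
      obtain ⟨o1, o2⟩ := a1
      refine ⟨fun a => ?_, fun a b d => ?_⟩
      · rw [if_pos a] at o2
        rw [o2.2, o2.1, hv]
      · rw [if_neg (by omega)] at o2
        have := Nat.mod_lt (u - 3 * C.ng) (show 0 < 3 * C.n by have := hC.n_pos; omega)
        refine ⟨t, C.cell (s / 3), by have := o2.1; omega, ?_⟩
        rw [← hv]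
        exact o2.2 (b.trans o2.1) (by omega)

end JSnd

open JSnd in
theorem jobSound : JobSound := by
  intro C k hC hS ⟨c, E, hR, hT⟩
  obtain ⟨s, a1, a2, a3⟩ := cover hS hR hT (by rw [Finset.sum_singleton, hS.sz_zero])
    (Finset.mem_singleton_self 0)
  have z : (C.toSys k).sz 0 = 3 * C.n := rfl
  have a1' : c = false ∧ 3 * C.ng ≤ s ∧ (s - 3 * C.ng) % (3 * C.n) = 0 := by
    simpa [CA.toSys] using a1
  obtain ⟨rfl, b1, b2⟩ := a1'
  rw [z, show (C.toSys k).ln false = 3 * C.ng + 3 * C.n * C.n from rfl] at a2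
  obtain ⟨i, hi⟩ := Nat.dvd_of_mod_eq_zero b2
  have hn := hC.n_pos
  have i1 : i < C.n := Nat.lt_of_mul_lt_mul_left (a := 3 * C.n) (by omega)
  have m : s + 3 * i + 1 + C.ng + 1 ∈ E := by
    by_contra m
    obtain ⟨s', c1, c2⟩ := a3 _ ((inb_false _).2 (by omega)) (by omega) m
    rw [ok_false] at c1
    rw [sz_inp, z] at c2
    omega
  obtain ⟨t, -, i2⟩ := inv hC hS hR
  have e : s + 3 * i + 1 - 3 * C.ng = 3 * i + 1 + 3 * C.n * i := by omega
  refine (i2 rfl _ m).2 (by omega) ?_ ?_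
  · rw [e, Nat.add_mul_div_left _ _ (by omega), Nat.add_mul_mod_self_left,
      Nat.div_eq_of_lt (by omega), Nat.mod_eq_of_lt (by omega)]
    omega
  · rw [mul_assoc] at hi
    omega

end Pool.Agent.MP_9694c2_lc.PS
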