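import Pool.Agent.MP_9694c2_lc.PS.Spec

/-!
The job system of an automaton is well formed and computable in polynomial time.
-/

set_option autoImplicit false

namespace Pool.Agent.MP_9694c2_lc.PS

open Pool.Agent.PolyT Pool.Agent.H82 N487b59b3

/-! ### Gates -/

namespace CA

variable (C : CA)

/-- The gate of cell `i` that agrees with the configuration `w`. -/
def jwGate (w : ℕ → ℕ) (i : ℕ) : ℕ :=
  ((i * C.A + w (C.pr i)) * C.A + w i) * C.A + w (C.nx i)

variable {C}

theorem jw_div {A q r : ℕ} (h : r < A) : (q * A + r) / A = q := by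
  rw [add_comm, Nat.add_mul_div_right _ _ (by omega), Nat.div_eq_of_lt h, zero_add]

theorem jw_mod {A q r : ℕ} (h : r < A) : (q * A + r) % A = r := by
  rw [add_comm, Nat.add_mul_mod_self_right, Nat.mod_eq_of_lt h]

theorem jw_cell {w : ℕ → ℕ} (hw : ∀ i, w i < C.A) (i : ℕ) : C.cell (C.jwGate w i) = i := by
  rw [cell, ← Nat.div_div_eq_div_mul, ← Nat.div_div_eq_div_mul, jwGate, jw_div (hw _),
    jw_div (hw _), jw_div (hw _)]

theorem jw_tru {w : ℕ → ℕ} (hw : ∀ i, w i < C.A) (i : ℕ) : C.tru w (C.jwGate w i) := by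
  rw [tru, jw_cell hw]
  refine ⟨?_, ?_, ?_⟩
  · rw [lt, if_pos rfl, ← Nat.div_div_eq_div_mul, jwGate, jw_div (hw _), jw_div (hw _),
      jw_mod (hw _)]
  · rw [lt, if_neg (by omega), if_pos rfl, jwGate, jw_div (hw _), jw_mod (hw _)]
  · rw [lt, if_neg (by omega), if_neg (by omega), jwGate, jw_mod (hw _)]

theorem jw_uniq {w : ℕ → ℕ} {g : ℕ} (h : C.tru w g) : C.jwGate w (C.cell g) = g := by
  obtain ⟨h0, h1, h2⟩ := h
  rw [jwGate, ← h0, ← h1, ← h2, cell, ← Nat.div_div_eq_div_mul, ← Nat.div_div_eq_div_mul]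
  simp only [lt, if_true, one_ne_zero, if_false, OfNat.ofNat_ne_zero, OfNat.ofNat_ne_one,
    ← Nat.div_div_eq_div_mul, Nat.div_add_mod']

theorem jw_lt (hA : 0 < C.A) (g : ℕ) : g < C.ng ↔ C.cell g < C.n := by
  rw [cell, ng, Nat.div_lt_iff_lt_mul (by positivity)]

end CA

theorem jobWF : JobWF := by
  intro C k hC hk
  have hn := hC.n_pos
  have hA : 0 < C.A := lt_of_le_of_lt (Nat.zero_le _) (hC.ini_lt 0)
  refine ⟨hk, by simp only [CA.toSys]; omega, fun j _ => ?_, by simp [CA.toSys], fun c => ?_,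
    fun j hj he => ?_, ?_⟩
  · simp only [CA.toSys]
    split_ifs <;> omega
  · cases c
    · have e : (C.toSys k).bank false =
          Finset.Ioo C.ng (1 + C.ng + 3 * C.ng + 3 * C.n * C.n) := by
        ext j
        simp only [Sys.bank, Sys.inb, CA.toSys, Finset.mem_filter, Finset.mem_range,
          Finset.mem_Ioo, decide_eq_false_iff_not]
        omega
      rw [e, Finset.sum_congr rfl (g := fun _ => 1) fun j hj => ?_]
      · simp only [CA.toSys, Finset.sum_const, Nat.card_Ioo, smul_eq_mul, Bool.false_eq_true,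
          if_false]
        omega
      · have := (Finset.mem_Ioo.1 hj).1
        simp only [CA.toSys]
        rw [if_neg (by omega), if_neg (by omega)]
    · have e : (C.toSys k).bank true = Finset.Ioc 0 C.ng := by
        ext j
        simp only [Sys.bank, Sys.inb, CA.toSys, Finset.mem_filter, Finset.mem_range,
          Finset.mem_Ioc, decide_eq_true_eq]
        omega
      rw [e, Finset.sum_congr rfl (g := fun _ => 3) fun j hj => ?_]
      · simp only [CA.toSys, Finset.sum_const, Nat.card_Ioc, smul_eq_mul, if_true]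
        omega
      · have := Finset.mem_Ioc.1 hj
        simp only [CA.toSys]
        rw [if_neg (by omega), if_pos this.2]
  · simp only [CA.toSys, decide_eq_true_eq] at he
    refine ⟨by omega, hj, ?_⟩
    simp only [CA.toSys, decide_eq_false_iff_not]
    omega
  · have m : ∀ j, j ∈ (C.toSys k).E0 ↔
        C.ng < j ∧ j - C.ng - 1 < 3 * C.ng ∧ C.tru C.ini ((j - C.ng - 1) / 3) := fun j => by
      simp only [Sys.E0, CA.toSys, Finset.mem_filter, Finset.mem_range, decide_eq_true_eq]
      exact ⟨fun h => h.2, fun h => ⟨by omega, h⟩⟩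
    rw [Finset.sum_congr rfl (g := fun _ => 1) fun j hj => ?_]
    · rw [Finset.sum_const, smul_eq_mul, mul_one]
      change _ = 3 * C.n
      rw [← Finset.card_range (3 * C.n)]
      refine Finset.card_nbij' (fun j => 3 * C.cell ((j - C.ng - 1) / 3) + (j - C.ng - 1) % 3)
        (fun u => C.ng + 1 + (3 * C.jwGate C.ini (u / 3) + u % 3)) (fun j hj => ?_)
        (fun u hu => ?_) (fun j hj => ?_) (fun u _ => ?_)
      · obtain ⟨_, h2, _⟩ := (m j).1 hj
        have := (CA.jw_lt hA ((j - C.ng - 1) / 3)).1 (by omega)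
        simp only [Finset.coe_range, Set.mem_Iio]
        omega
      · simp only [Finset.coe_range, Set.mem_Iio] at hu
        have h1 : C.jwGate C.ini (u / 3) < C.ng :=
          (CA.jw_lt hA _).2 (by rw [CA.jw_cell hC.ini_lt]; omega)
        refine (m _).2 ?_
        dsimp only
        refine ⟨by omega, by omega, ?_⟩
        have : (C.ng + 1 + (3 * C.jwGate C.ini (u / 3) + u % 3) - C.ng - 1) / 3 =
            C.jwGate C.ini (u / 3) := by omega
        rw [this]
        exact CA.jw_tru hC.ini_lt _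
      · obtain ⟨h1, _, h3⟩ := (m j).1 hj
        have e : (3 * C.cell ((j - C.ng - 1) / 3) + (j - C.ng - 1) % 3) / 3 =
            C.cell ((j - C.ng - 1) / 3) := by omega
        simp only [e, CA.jw_uniq h3]
        omega
      · have e : (C.ng + 1 + (3 * C.jwGate C.ini (u / 3) + u % 3) - C.ng - 1) / 3 =
            C.jwGate C.ini (u / 3) := by omega
        simp only [e, CA.jw_cell hC.ini_lt]
        omega
    · have := ((m j).1 hj).1
      simp only [CA.toSys]
      rw [if_neg (by omega), if_neg (by omega)]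

/-! ### Division in polynomial time -/

theorem jw_step (n d : ℕ) (hd : 0 < d) (b : Bool) :
    (2 * n + b.toNat) / d =
      bif ltB (2 * n + b.toNat) ((2 * (n / d) + 1) * d) then 2 * (n / d) else 2 * (n / d) + 1 := by
  have h1 := Nat.div_add_mod n d
  have h2 := Nat.mod_lt n hd
  have h3 : b.toNat ≤ 1 := Bool.toNat_le b
  generalize n / d = q at *
  generalize n % d = r at *
  cases h : ltB (2 * n + b.toNat) ((2 * q + 1) * d)
  · rw [ltB_false_iff] at h
    rw [cond_false]
    exact Nat.div_eq_of_lt_le h (by nlinarith)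
  · rw [ltB_iff] at h
    rw [cond_true]
    exact Nat.div_eq_of_lt_le (by nlinarith) h

/-- One round of long division. -/
def jwStep (d : ℕ) (b : Bool) (s : ℕ × ℕ) : ℕ × ℕ :=
  (2 * s.1 + bif b then 1 else 0,
    bif ltB (2 * s.1 + bif b then 1 else 0) ((2 * s.2 + 1) * d) then 2 * s.2 else 2 * s.2 + 1)

theorem jw_foldr (d : ℕ) (hd : 0 < d) (l : List Bool) :
    l.foldr (jwStep d) (0, 0) = (ofBits l, ofBits l / d) := by
  induction l with
  | nil => simp
  | cons b l ih =>
    rw [List.foldr_cons, ih, ofBits_cons, jw_step _ _ hd]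
    cases b <;> rfl

section
variable {α β : Type} [N487b59b3 α] [N487b59b3 β]

theorem jw_pdiv {f g : α → ℕ} (hf : Poly f) (hg : Poly g) : Poly (fun a => f a / g a) := by
  have h1 : Poly (fun a => (f a).bits.foldr (jwStep (g a - 1 + 1)) (0, 0)) := by
    refine Poly.foldr (f := fun a => jwStep (g a - 1 + 1)) (by unfold jwStep; fun_prop) hf.bits
      (p_const _) (((Bd.const 3).mul hf.bd).add (Bd.const 1)) fun a n => ?_
    rw [jw_foldr _ (Nat.add_one_pos _), length_enc_pair]
    have b1 := length_enc_nat_le (ofBits_lt ((f a).bits.drop n))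
    have b2 := length_enc_nat_mono (Nat.div_le_self (ofBits ((f a).bits.drop n)) (g a - 1 + 1))
    have b3 : ((f a).bits.drop n).length ≤ (bitEncode (f a)).length := by rw [enc_nat]; simp
    simp only at b1 b2 b3 ⊢
    omega
  refine Poly.congr (f := fun a => bif eqB (g a) 0 then 0
    else ((f a).bits.foldr (jwStep (g a - 1 + 1)) (0, 0)).2) (by fun_prop) fun a => ?_
  rw [jw_foldr _ (Nat.add_one_pos _), ofBits_bits]
  cases h : eqB (g a) 0
  · rw [eqB_false_iff] at h
    rw [cond_false, Nat.sub_add_cancel (Nat.one_le_iff_ne_zero.2 h)]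
  · rw [eqB_iff] at h
    simp [h]

theorem jw_pmod {f g : α → ℕ} (hf : Poly f) (hg : Poly g) : Poly (fun a => f a % g a) :=
  (hf.sub (hg.mul (jw_pdiv hf hg))).congr fun _ => (Nat.mod_def _ _).symm

/-- Predicates decided in polynomial time. -/
def JwD (p : α → Prop) : Prop := ∃ b : α → Bool, Poly b ∧ ∀ a, b a = true ↔ p a

namespace JwD

variable {p q r : α → Prop}

theorem dec (h : JwD p) [DecidablePred p] : Poly (fun a => decide (p a)) := by
  obtain ⟨b, hb, e⟩ := h
  exact hb.congr fun a => by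
    by_cases k : p a
    · simp [k, (e a).2 k]
    · simp [k, Bool.eq_false_iff.2 fun z => k ((e a).1 z)]

theorem bool {b : α → Bool} (h : Poly b) : JwD (fun a => b a = true) := ⟨b, h, fun _ => Iff.rfl⟩

theorem const (s : Prop) : JwD (fun _ : α => s) := by
  classical
  exact ⟨fun _ => decide s, p_const _, fun _ => by simp⟩

theorem eq {f g : α → ℕ} (hf : Poly f) (hg : Poly g) : JwD (fun a => f a = g a) :=
  ⟨_, hf.eq hg, fun _ => by simp⟩

theorem lt {f g : α → ℕ} (hf : Poly f) (hg : Poly g) : JwD (fun a => f a < g a) :=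
  ⟨_, hf.lt hg, fun _ => by simp⟩

theorem le {f g : α → ℕ} (hf : Poly f) (hg : Poly g) : JwD (fun a => f a ≤ g a) :=
  ⟨_, hf.le hg, fun _ => by simp⟩

theorem and (hp : JwD p) (hq : JwD q) : JwD (fun a => p a ∧ q a) := by
  obtain ⟨b, hb, e⟩ := hp
  obtain ⟨c, hc, f⟩ := hq
  exact ⟨_, hb.and hc, fun a => by simp [e, f]⟩

theorem imp (hp : JwD p) (hq : JwD q) : JwD (fun a => p a → q a) := by
  obtain ⟨b, hb, e⟩ := hp
  obtain ⟨c, hc, f⟩ := hq
  refine ⟨_, hb.not.or hc, fun a => ?_⟩
  simp only [← e, ← f]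
  cases b a <;> simp

theorem ite (hp : JwD p) [DecidablePred p] {f g : α → β} (hf : Poly f) (hg : Poly g) :
    Poly (fun a => if p a then f a else g a) := Poly.ite hp.dec hf hg

theorem iteP (hp : JwD p) [DecidablePred p] (hq : JwD q) (hr : JwD r) :
    JwD (fun a => if p a then q a else r a) := by
  obtain ⟨b, hb, e⟩ := hq
  obtain ⟨c, hc, f⟩ := hr
  refine ⟨_, hp.ite hb hc, fun a => ?_⟩
  by_cases k : p a <;> simp [k, e, f]

end JwD

/-- A family of automata indexed by any type. -/
structure JwF (D : α → CA) : Prop where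
  n : Poly (fun a => (D a).n)
  A : Poly (fun a => (D a).A)
  rule : ∀ {f g h i : α → ℕ}, Poly f → Poly g → Poly h → Poly i →
    Poly (fun a => (D a).rule (f a) (g a) (h a) (i a))
  acc : ∀ {f : α → ℕ}, Poly f → Poly (fun a => (D a).acc (f a))
  ini : ∀ {f : α → ℕ}, Poly f → Poly (fun a => (D a).ini (f a))

theorem jw_fam {C : List Bool → CA} (h : PolyCA C) {x : α → List Bool} (hx : Poly x) :
    JwF (fun a => C (x a)) := by
  obtain ⟨A, hA⟩ := h.A
  exact ⟨h.n.comp hx, (p_const A).congr fun a => (hA _).symm,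
    fun hf hg hh hi => h.rule.comp (hx.pair (hf.pair (hg.pair (hh.pair hi)))),
    fun hf => h.acc.comp (hx.pair hf), fun hf => h.ini.comp (hx.pair hf)⟩

namespace JwF

variable {D : α → CA} (h : JwF D) {f g : α → ℕ}
include h

theorem ng : Poly (fun a => (D a).ng) := h.n.mul ((h.A.mul h.A).mul h.A)

theorem cell (hf : Poly f) : Poly (fun a => (D a).cell (f a)) :=
  jw_pdiv hf ((h.A.mul h.A).mul h.A)

theorem lt (hf : Poly f) (hg : Poly g) : Poly (fun a => (D a).lt (f a) (g a)) :=
  (JwD.eq hg (p_const 0)).ite (jw_pmod (jw_pdiv hf (h.A.mul h.A)) h.A)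
    ((JwD.eq hg (p_const 1)).ite (jw_pmod (jw_pdiv hf h.A) h.A) (jw_pmod hf h.A))

theorem val (hf : Poly f) : Poly (fun a => (D a).val (f a)) :=
  h.rule (h.cell hf) (h.lt hf (p_const 0)) (h.lt hf (p_const 1)) (h.lt hf (p_const 2))

theorem pr (hf : Poly f) : Poly (fun a => (D a).pr (f a)) :=
  (JwD.eq hf (p_const 0)).ite (h.n.sub (p_const 1)) (hf.sub (p_const 1))

theorem nx (hf : Poly f) : Poly (fun a => (D a).nx (f a)) :=
  (JwD.eq (hf.add (p_const 1)) h.n).ite (p_const 0) (hf.add (p_const 1))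

theorem src (hf : Poly f) (hg : Poly g) : Poly (fun a => (D a).src (f a) (g a)) :=
  (JwD.eq hg (p_const 0)).ite (h.pr hf) ((JwD.eq hg (p_const 1)).ite hf (h.nx hf))

theorem tru (hf : Poly f) : JwD (fun a => (D a).tru (D a).ini (f a)) :=
  (JwD.eq (h.lt hf (p_const 0)) (h.ini (h.pr (h.cell hf)))).and
    ((JwD.eq (h.lt hf (p_const 1)) (h.ini (h.cell hf))).and
      (JwD.eq (h.lt hf (p_const 2)) (h.ini (h.nx (h.cell hf)))))

theorem okX (hf : Poly f) (hg : Poly g) : JwD (fun a => (D a).okX (f a) (g a)) := by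
  have c3 : Poly (fun _ : α => 3) := p_const 3
  have s3 := jw_pdiv hf c3
  have u3 := jw_pdiv hg c3
  have um := jw_pmod hg c3
  have sm := jw_pmod hf c3
  have d := hg.sub (c3.mul h.ng)
  have n3 := c3.mul h.n
  exact (JwD.eq um sm).and ((JwD.lt hg (c3.mul h.ng)).iteP
    ((JwD.eq (h.src (h.cell u3) um) (h.cell s3)).and (JwD.eq (h.lt u3 um) (h.val s3)))
    ((JwD.eq (jw_pdiv (jw_pmod d n3) c3) (h.cell s3)).and
      ((JwD.eq (jw_pdiv d n3) (h.cell s3)).imp ((JwD.eq sm (p_const 1)).imp
        (JwD.bool (h.acc (h.val s3)))))))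

end JwF

end

theorem jobPoly : JobPoly := by
  intro C k h
  have F0 := jw_fam h (Poly.id (α := List Bool))
  have F1 := jw_fam h (Poly.id (α := List Bool × ℕ)).fst
  have F2 := jw_fam h (Poly.id (α := List Bool × ℕ × ℕ)).fst
  have j1 := (Poly.id (α := List Bool × ℕ)).snd
  have s2 := (Poly.id (α := List Bool × ℕ × ℕ)).snd.fst
  have j2 := (Poly.id (α := List Bool × ℕ × ℕ)).snd.snd
  have g0 := (p_const (3 : ℕ)).mul F0.ng
  have q0 := ((p_const (3 : ℕ)).mul F0.n).mul F0.n
  refine ⟨(((p_const 1).add F0.ng).add g0).add q0, (p_const 3).mul F0.n,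
    fun c => (JwD.const (c = true)).ite g0 (g0.add q0), (JwD.le j1 F1.ng).dec,
    (JwD.eq j1 (p_const 0)).ite ((p_const 3).mul F1.n)
      ((JwD.le j1 F1.ng).ite (p_const 3) (p_const 1)), ?_, fun c => ?_, ?_⟩
  · have d := (j1.sub F1.ng).sub (p_const 1)
    exact ((JwD.lt F1.ng j1).and ((JwD.lt d ((p_const 3).mul F1.ng)).and
      (F1.tru (jw_pdiv d (p_const 3))))).dec
  · have d := (j2.sub F2.ng).sub (p_const 1)
    have g2 := (p_const 3).mul F2.ng
    exact (JwD.eq j2 (p_const 0)).ite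
      ((JwD.const (c = false)).and ((JwD.le g2 s2).and
        (JwD.eq (jw_pmod (s2.sub g2) ((p_const 3).mul F2.n)) (p_const 0)))).dec
      ((JwD.le j2 F2.ng).ite (JwD.eq s2 ((p_const 3).mul (j2.sub (p_const 1)))).dec
        ((JwD.const (c = true)).ite (F2.okX s2 d).dec (JwD.eq s2 d).dec))
  · obtain ⟨A, hA⟩ := h.A
    obtain ⟨R, hR, hn⟩ := h.un
    obtain ⟨T, hT, e⟩ := exists_list_eval hR (Polynomial.C 1 +
      Polynomial.C (10 * (A * A * A) + 3) * Polynomial.X + Polynomial.C 6 * Polynomial.X ^ 2)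
    refine ⟨T, hT, fun x => ?_⟩
    have h1 := hn x
    have h2 := Nat.mul_le_mul h1 h1
    have h3 := Nat.mul_le_mul_left (A * A * A) h1
    simp only [e, CA.toSys, CA.ng, hA, Polynomial.eval_add, Polynomial.eval_mul, Polynomial.eval_C,
      Polynomial.eval_X, Polynomial.eval_pow, Bool.false_eq_true, if_true, if_false]
    nlinarith

end Pool.Agent.MP_9694c2_lc.PS
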