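import Pool.Agent.MP_9694c2_lc.PS.Spec

/-!
The weighted game is the game on the bipartite graph.
-/

set_option autoImplicit false

namespace Pool.Agent.MP_9694c2_lc.PS

open Set

theorem rl_symm {E : List (ℕ × ℕ)} {a b : ℕ} (h : adjE E a b) : adjE E b a := Or.symm h

theorem rl_finite (E : List (ℕ × ℕ)) : (verts E).Finite := by
  refine ((E.map Prod.fst ++ E.map Prod.snd).finite_toSet).subset ?_
  rintro a ⟨b, h | h⟩
  · exact List.mem_append_left _ (List.mem_map_of_mem h)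
  · exact List.mem_append_right _ (List.mem_map_of_mem h)

theorem rl_hunt (E : List (ℕ × ℕ)) (k : ℕ) :
    hunt E ≤ k ↔ ∃ (T : ℕ) (W : ℕ → Finset ℕ), (∀ t, (W t).card ≤ k) ∧ terr E W T = ∅ := by
  classical
  constructor
  · intro h
    have hne : {k | ∃ (T : ℕ) (W : ℕ → Finset ℕ), (∀ t, (W t : Set ℕ) ⊆ verts E) ∧
        terr E W T = ∅ ∧ (Finset.range (T + 1)).sup (fun t => (W t).card) = k}.Nonempty :=
      ⟨_, 0, fun _ => (rl_finite E).toFinset, fun _ => by simp, by simp [terr], rfl⟩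
    obtain ⟨T, W, -, h2, h3⟩ := Nat.sInf_mem hne
    have key : ∀ t ≤ T, terr E (fun t => if t ≤ T then W t else ∅) t = terr E W t := by
      intro t ht
      induction t with
      | zero => simp [terr]
      | succ t ih => simp only [terr, ih (by omega), if_pos ht]
    refine ⟨T, fun t => if t ≤ T then W t else ∅, fun t => ?_, by rw [key T le_rfl, h2]⟩
    by_cases ht : t ≤ T
    · simp only [if_pos ht]
      refine le_trans ?_ h
      unfold hunt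
      rw [← h3]
      exact Finset.le_sup (f := fun t => (W t).card) (Finset.mem_range.2 (by omega))
    · simp [ht]
  · rintro ⟨T, W, h1, h2⟩
    have key : ∀ t, terr E (fun t => (W t).filter (· ∈ verts E)) t = terr E W t := by
      intro t
      induction t with
      | zero =>
        ext v
        simp only [terr, mem_sdiff, Finset.coe_filter, mem_ofPred_eq, Finset.mem_coe]
        tauto
      | succ t ih =>
        ext v
        simp only [terr, ih, mem_sdiff, Finset.coe_filter, mem_ofPred_eq, Finset.mem_coe]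
        constructor
        · rintro ⟨⟨a, h3, h4⟩, h5⟩
          exact ⟨⟨a, h3, h4⟩, fun h6 => h5 ⟨h6, a, rl_symm h4⟩⟩
        · rintro ⟨h3, h5⟩
          exact ⟨h3, fun h6 => h5 h6.1⟩
    refine le_trans (Nat.sInf_le ⟨T, fun t => (W t).filter (· ∈ verts E), fun t v hv => ?_,
      by rw [key, h2], rfl⟩) ?_
    · exact (Finset.mem_filter.1 hv).2
    · exact Finset.sup_le fun t _ => (Finset.card_filter_le _ _).trans (h1 t)

theorem rl_rg {k n i : ℕ} (h : n ≤ k) : i ∈ rg k n ↔ i < n := by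
  rw [rg, List.take_range, List.mem_range]
  omega

theorem rl_nE {a b i j : ℕ} (h : nE a i = nE b j) : a = b ∧ i = j :=
  Nat.pair_eq_pair.1 (by unfold nE at h; omega)

theorem rl_nO {a b i j : ℕ} (h : nO a i = nO b j) : a = b ∧ i = j :=
  Nat.pair_eq_pair.1 (by unfold nO at h; omega)

theorem rl_nC {a b c d i j : ℕ} (h : nC a b i = nC c d j) : (a = c ∧ b = d) ∧ i = j :=
  (Nat.pair_eq_pair.1 (by unfold nC at h; omega)).imp_left Nat.pair_eq_pair.1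

theorem rl_nD {a b c d i j : ℕ} (h : nD a b i = nD c d j) : (a = c ∧ b = d) ∧ i = j :=
  (Nat.pair_eq_pair.1 (by unfold nD at h; omega)).imp_left Nat.pair_eq_pair.1

/-- One of `k + 1` connectors is not shot. -/
theorem rl_free {k : ℕ} {W : Finset ℕ} (hW : W.card ≤ k) (f : ℕ → ℕ)
    (hf : ∀ i j, f i = f j → i = j) : ∃ z ≤ k, f z ∉ W := by
  by_contra h
  push Not at h
  have := Finset.card_le_card_of_injOn (s := Finset.range (k + 1)) (t := W) f
    (fun z hz => h z (Nat.lt_succ_iff.1 (Finset.mem_range.1 hz))) fun i _ j _ e => hf i j e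
  rw [Finset.card_range] at this
  omega

/-- The vertices all of whose copies are shot. -/
theorem rl_shot {V : Type} {k : ℕ} {W : Finset ℕ} (hW : W.card ≤ k) (l : List V) (w : V → ℕ)
    (f : V → ℕ → ℕ) (hf : ∀ u v i j, f u i = f v j → u = v ∧ i = j) :
    ∃ X : Finset V, ∑ v ∈ X, w v ≤ k ∧ ∀ v ∈ l, v ∉ X → ∃ i < w v, f v i ∉ W := by
  classical
  refine ⟨l.toFinset.filter fun v => ∀ i < w v, f v i ∈ W, le_trans ?_ hW, fun v hv h => ?_⟩
  · have := Finset.card_le_card_of_injOn (s := (l.toFinset.filter fun v =>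
      ∀ i < w v, f v i ∈ W).sigma fun v => Finset.range (w v)) (t := W) (fun p => f p.1 p.2)
      (fun p hp => by
        obtain ⟨h1, h2⟩ := Finset.mem_sigma.1 hp
        exact (Finset.mem_filter.1 h1).2 _ (Finset.mem_range.1 h2))
      (fun p _ q _ e => by
        obtain ⟨h1, h2⟩ := hf _ _ _ _ e
        exact Sigma.ext h1 (heq_of_eq h2))
    simpa only [Finset.card_sigma, Finset.card_range] using this
  · by_contra h'
    push Not at h'
    exact h (Finset.mem_filter.2 ⟨List.mem_toFinset.2 hv, h'⟩)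

/-- All copies of the vertices of a set. -/
theorem rl_all {V : Type} {k : ℕ} (X : Finset V) (w : V → ℕ) (hX : ∑ v ∈ X, w v ≤ k)
    (f : V → ℕ → ℕ) : ∃ W : Finset ℕ, W.card ≤ k ∧ ∀ v ∈ X, ∀ i < w v, f v i ∈ W :=
  ⟨X.biUnion fun v => (Finset.range (w v)).image (f v),
    Finset.card_biUnion_le.trans (le_trans (Finset.sum_le_sum fun _ _ =>
      Finset.card_image_le.trans (Finset.card_range _).le) hX),
    fun v hv _ hi => Finset.mem_biUnion.2 ⟨v, hv,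
      Finset.mem_image_of_mem _ (Finset.mem_range.2 hi)⟩⟩

theorem rl_seq {α : Type} {r : α → α → Prop} {a b : α} (hb : r b b)
    (h : Relation.ReflTransGen r a b) :
    ∃ (f : ℕ → α) (N : ℕ), f 0 = a ∧ f (N + 1) = b ∧ ∀ j, r (f j) (f (j + 1)) := by
  induction h using Relation.ReflTransGen.head_induction_on with
  | refl => exact ⟨fun _ => b, 0, rfl, rfl, fun _ => hb⟩
  | @head a c h _ ih =>
    obtain ⟨f, N, h0, h1, h2⟩ := ih
    refine ⟨fun j => Nat.casesOn j a f, N + 1, rfl, h1, fun j => ?_⟩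
    cases j with
    | zero => subst h0; exact h
    | succ j => exact h2 j

variable {VE VO : Type} {G : TG VE VO} {k : ℕ} {cE : VE → ℕ} {cO : VO → ℕ}
  {lee : List (VE × VE)} {loo : List (VO × VO)} {E : List (ℕ × ℕ)}

/-- What is used of the edge list. -/
structure RlCtx (G : TG VE VO) (k : ℕ) (cE : VE → ℕ) (cO : VO → ℕ) (lee : List (VE × VE))
    (loo : List (VO × VO)) (E : List (ℕ × ℕ)) : Prop where
  iE : Function.Injective cE
  iO : Function.Injective cO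
  vee : ∀ u v, G.ee u v → u ∈ G.vE ∧ v ∈ G.vE
  voo : ∀ u v, G.oo u v → u ∈ G.vO ∧ v ∈ G.vO
  veo : ∀ u v, G.eo u v → u ∈ G.vE ∧ v ∈ G.vO
  ee : ∀ u v, (u, v) ∈ lee ↔ G.ee u v ∨ (u = v ∧ u ∈ G.vE)
  oo : ∀ u v, (u, v) ∈ loo ↔ G.oo u v ∨ (u = v ∧ u ∈ G.vO)
  mem : ∀ a b, (a, b) ∈ E ↔
    (∃ u v i j, G.eo u v ∧ i < G.wE u ∧ j < G.wO v ∧ a = nE (cE u) i ∧ b = nO (cO v) j) ∨
    (∃ u v y z i, (u, v) ∈ lee ∧ (y = u ∨ y = v) ∧ z ≤ k ∧ i < G.wE y ∧ a = nE (cE y) i ∧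
      b = nC (cE u) (cE v) z) ∨
    ∃ u v y z i, (u, v) ∈ loo ∧ (y = u ∨ y = v) ∧ z ≤ k ∧ i < G.wO y ∧
      a = nD (cO u) (cO v) z ∧ b = nO (cO y) i

namespace RlCtx

variable (H : RlCtx G k cE cO lee loo E)
include H

theorem par {a b : ℕ} (h : (a, b) ∈ E) : a % 2 = 0 ∧ b % 2 = 1 := by
  rcases (H.mem a b).1 h with ⟨u, v, i, j, -, -, -, rfl, rfl⟩ |
    ⟨u, v, y, z, i, -, -, -, -, rfl, rfl⟩ | ⟨u, v, y, z, i, -, -, -, -, rfl, rfl⟩ <;>
  simp only [nE, nO, nC, nD] <;> omega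

theorem win (Q : ℕ → Set ℕ) (W : ℕ → Finset ℕ) (hW : ∀ t, (W t).card ≤ k)
    (h0 : ∀ x, x ∈ Q 0) (h1 : ∀ x, x ∈ Q 1)
    (hs : ∀ t a x, a ∈ Q t → adjE E a x → x ∉ W (t + 1) → x ∈ Q (t + 1)) (j : ℕ) :
    G.Reach k (G.vE, G.vO) ({v ∈ G.vE | j = 0 ∨ ∃ i < G.wE v, nE (cE v) i ∈ Q (2 * j)},
      {v ∈ G.vO | j = 0 ∨ ∃ i < G.wO v, nO (cO v) i ∈ Q (2 * j + 1)}) := by
  induction j with
  | zero => simpa [TG.Reach] using Relation.ReflTransGen.refl
  | succ j ih =>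
    refine ih.tail ?_
    obtain ⟨X, hX, hX'⟩ := rl_shot (hW (2 * j + 1 + 1)) (lee.map Prod.fst) G.wE
      (fun v i => nE (cE v) i) fun u v i j e => (rl_nE e).imp_left fun h => H.iE h
    obtain ⟨Y, hY, hY'⟩ := rl_shot (hW (2 * (j + 1) + 1)) (loo.map Prod.fst) G.wO
      (fun v i => nO (cO v) i) fun u v i j e => (rl_nO e).imp_left fun h => H.iO h
    have cC : ∀ u v y y' i i', (u, v) ∈ lee → (y = u ∨ y = v) → (y' = u ∨ y' = v) → i < G.wE y →
        i' < G.wE y' → nE (cE y) i ∈ Q (2 * j) → nE (cE y') i' ∉ W (2 * j + 1 + 1) →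
        nE (cE y') i' ∈ Q (2 * (j + 1)) := fun u v y y' i i' h a a' b b' c c' => by
      obtain ⟨z, hz, hz'⟩ := rl_free (hW (2 * j + 1)) (nC (cE u) (cE v)) fun _ _ e => (rl_nC e).2
      exact hs _ _ _ (hs _ _ _ c (Or.inl ((H.mem _ _).2 (Or.inr (Or.inl
        ⟨u, v, y, z, i, h, a, hz, b, rfl, rfl⟩)))) hz') (Or.inr ((H.mem _ _).2 (Or.inr (Or.inl
        ⟨u, v, y', z, i', h, a', hz, b', rfl, rfl⟩)))) c'
    have cD : ∀ u v y y' i i', (u, v) ∈ loo → (y = u ∨ y = v) → (y' = u ∨ y' = v) → i < G.wO y →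
        i' < G.wO y' → nO (cO y) i ∈ Q (2 * j + 1) → nO (cO y') i' ∉ W (2 * (j + 1) + 1) →
        nO (cO y') i' ∈ Q (2 * (j + 1) + 1) := fun u v y y' i i' h a a' b b' c c' => by
      obtain ⟨z, hz, hz'⟩ := rl_free (hW (2 * j + 1 + 1)) (nD (cO u) (cO v))
        fun _ _ e => (rl_nD e).2
      exact hs _ _ _ (hs _ _ _ c (Or.inr ((H.mem _ _).2 (Or.inr (Or.inr
        ⟨u, v, y, z, i, h, a, hz, b, rfl, rfl⟩)))) hz') (Or.inl ((H.mem _ _).2 (Or.inr (Or.inr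
        ⟨u, v, y', z, i', h, a', hz, b', rfl, rfl⟩)))) c'
    refine ⟨X, Y, hX, hY, fun v hv ht => ?_, fun v hv ht => ?_⟩
    · have vv : v ∈ G.vE := by
        rcases ht with h | ⟨u, -, h | h⟩ | ⟨u, -, h⟩
        exacts [h.1, (H.vee _ _ h).2, (H.vee _ _ h).1, (H.veo _ _ h).1]
      have lv : (v, v) ∈ lee := (H.ee v v).2 (Or.inr ⟨rfl, vv⟩)
      obtain ⟨i, hi, hi'⟩ := hX' v (List.mem_map_of_mem (f := Prod.fst) lv) hv
      refine ⟨vv, Or.inr ⟨i, hi, ?_⟩⟩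
      by_cases j0 : j = 0
      · exact cC v v v v i i lv (Or.inl rfl) (Or.inl rfl) hi hi (by subst j0; exact h0 _) hi'
      rcases ht with ⟨-, h | ⟨i', a, b⟩⟩ | ⟨u, ⟨-, h | ⟨i', a, b⟩⟩, h' | h'⟩ |
        ⟨u, ⟨-, h | ⟨i', a, b⟩⟩, h'⟩
      · exact absurd h j0
      · exact cC v v v v i' i lv (Or.inl rfl) (Or.inl rfl) a hi b hi'
      · exact absurd h j0
      · exact absurd h j0
      · exact cC u v u v i' i ((H.ee _ _).2 (Or.inl h')) (Or.inl rfl) (Or.inr rfl) a hi b hi'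
      · exact cC v u u v i' i ((H.ee _ _).2 (Or.inl h')) (Or.inr rfl) (Or.inl rfl) a hi b hi'
      · exact absurd h j0
      · exact hs _ _ _ b (Or.inr ((H.mem _ _).2 (Or.inl ⟨v, u, i, i', h', hi, a, rfl, rfl⟩))) hi'
    · have vv : v ∈ G.vO := by
        rcases ht with h | ⟨u, -, h | h⟩ | ⟨u, -, h⟩
        exacts [h.1, (H.voo _ _ h).2, (H.voo _ _ h).1, (H.veo _ _ h).2]
      have lv : (v, v) ∈ loo := (H.oo v v).2 (Or.inr ⟨rfl, vv⟩)
      obtain ⟨i, hi, hi'⟩ := hY' v (List.mem_map_of_mem (f := Prod.fst) lv) hv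
      refine ⟨vv, Or.inr ⟨i, hi, ?_⟩⟩
      by_cases j0 : j = 0
      · exact cD v v v v i i lv (Or.inl rfl) (Or.inl rfl) hi hi (by subst j0; exact h1 _) hi'
      rcases ht with ⟨-, h | ⟨i', a, b⟩⟩ | ⟨u, ⟨-, h | ⟨i', a, b⟩⟩, h' | h'⟩ |
        ⟨u, ⟨-, h | ⟨i', a, b⟩⟩, h'⟩
      · exact absurd h j0
      · exact cD v v v v i' i lv (Or.inl rfl) (Or.inl rfl) a hi b hi'
      · exact absurd h j0
      · exact absurd h j0
      · exact cD u v u v i' i ((H.oo _ _).2 (Or.inl h')) (Or.inl rfl) (Or.inr rfl) a hi b hi'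
      · exact cD v u u v i' i ((H.oo _ _).2 (Or.inl h')) (Or.inr rfl) (Or.inl rfl) a hi b hi'
      · exact absurd h (Nat.succ_ne_zero j)
      · exact hs _ _ _ b (Or.inl ((H.mem _ _).2 (Or.inl ⟨u, v, i', i, h', a, hi, rfl, rfl⟩))) hi'

theorem win_of (h : hunt E ≤ k) : G.Win k := by
  obtain ⟨T, W, hW, hT⟩ := (rl_hunt E k).1 h
  have em : ∀ s, terr E W (T + s) = ∅ := fun s => by
    induction s with
    | zero => exact hT
    | succ s ih => rw [← add_assoc, terr, ih]; simp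
  have := H.win (fun t => match t with | 0 => univ | 1 => univ | t + 2 => terr E W t)
    (fun t => match t with | 0 => ∅ | 1 => ∅ | t + 2 => W t)
    (fun t => by
      rcases t with _ | _ | t
      exacts [Nat.zero_le k, Nat.zero_le k, hW t])
    (fun _ => mem_univ _) (fun _ => mem_univ _)
    (fun t a x ha hx hw => by
      rcases t with _ | _ | t
      exacts [mem_univ _, ⟨⟨a, rl_symm hx⟩, hw⟩, ⟨⟨a, ha, hx⟩, hw⟩]) (T + 1)
  have e1 : terr E W (2 * T) = ∅ := by rw [two_mul]; exact em T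
  have e2 : terr E W (2 * T + 1) = ∅ := by rw [two_mul]; exact em (T + 1)
  refine Eq.subst (motive := fun S => G.Reach k (G.vE, G.vO) S) (Prod.ext ?_ ?_) this
  · refine eq_empty_of_forall_notMem ?_
    rintro v ⟨-, h | ⟨i, -, h⟩⟩
    · omega
    · exact e1.subset h
  · refine eq_empty_of_forall_notMem ?_
    rintro v ⟨-, h | ⟨i, -, h⟩⟩
    · omega
    · exact e2.subset h

theorem strat (h : G.Win k) : ∃ (N : ℕ) (V : ℕ → Finset ℕ), (∀ t, (V t).card ≤ k) ∧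
    ∀ Q : ℕ → Set ℕ, (∀ x ∈ Q 0, x ∉ V 0 ∧ ∃ b, (x, b) ∈ E) →
      (∀ t ≤ 2 * N, ∀ x ∈ Q (t + 1), x ∉ V (t + 1) ∧ ∃ a ∈ Q t, adjE E a x) →
      ∀ x, x ∉ Q (2 * N + 1) := by
  obtain ⟨f, N, f0, fN, hf⟩ := rl_seq (r := G.Rnd k) (b := (∅, ∅))
    ⟨∅, ∅, by simp, by simp, by simp, by simp⟩ h
  choose X Y hX hY sE sO using hf
  choose WE cWE hWE using fun j => rl_all (X j) G.wE (hX j) fun v i => nE (cE v) i
  choose WO cWO hWO using fun j => rl_all (Y j) G.wO (hY j) fun v i => nO (cO v) i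
  refine ⟨N, fun t => if t % 2 = 0 then WE (t / 2) else WO (t / 2), fun t => ?_,
    fun Q q0 qs => ?_⟩
  · beta_reduce
    split_ifs
    exacts [cWE _, cWO _]
  have tE : ∀ j u v y, (u, v) ∈ lee → (y = u ∨ y = v) → (u ∈ (f j).1 ∨ v ∈ (f j).1) → y ∉ X j →
      y ∈ (f (j + 1)).1 := fun j u v y h a b c => sE j y c (by
    rcases (H.ee u v).1 h with h | ⟨rfl, -⟩ <;> rcases a with rfl | rfl <;> rcases b with b | b
    exacts [Or.inl b, Or.inr (Or.inl ⟨_, b, Or.inr h⟩), Or.inr (Or.inl ⟨_, b, Or.inl h⟩), Or.inl b,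
      Or.inl b, Or.inl b, Or.inl b, Or.inl b])
  have tO : ∀ j u v y, (u, v) ∈ loo → (y = u ∨ y = v) → (u ∈ (f j).2 ∨ v ∈ (f j).2) → y ∉ Y j →
      y ∈ (f (j + 1)).2 := fun j u v y h a b c => sO j y c (by
    rcases (H.oo u v).1 h with h | ⟨rfl, -⟩ <;> rcases a with rfl | rfl <;> rcases b with b | b
    exacts [Or.inl b, Or.inr (Or.inl ⟨_, b, Or.inr h⟩), Or.inr (Or.inl ⟨_, b, Or.inl h⟩), Or.inl b,
      Or.inl b, Or.inl b, Or.inl b, Or.inl b])
  have eo : ∀ j ≤ N, (∀ x ∈ Q (2 * j), (∃ v ∈ (f (j + 1)).1, ∃ i, x = nE (cE v) i) ∨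
        ∃ u v z, x = nD (cO u) (cO v) z ∧ (u ∈ (f j).2 ∨ v ∈ (f j).2)) →
      ∀ x ∈ Q (2 * j + 1), (∃ v ∈ (f (j + 1)).2, ∃ i, x = nO (cO v) i) ∨
        ∃ u v z, x = nC (cE u) (cE v) z ∧ (u ∈ (f (j + 1)).1 ∨ v ∈ (f (j + 1)).1) := by
    intro j hj ih x hx
    obtain ⟨h1, a, ha, h2⟩ := qs (2 * j) (by omega) x hx
    beta_reduce at h1
    rw [if_neg (by omega), show (2 * j + 1) / 2 = j by omega] at h1
    have pa : a % 2 = 0 := by
      rcases ih a ha with ⟨v, -, i, rfl⟩ | ⟨u, v, z, rfl, -⟩ <;> simp only [nE, nD] <;> omega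
    have h3 : (a, x) ∈ E := h2.resolve_right fun h => by have := H.par h; omega
    rcases (H.mem _ _).1 h3 with ⟨u, v, i, i', b1, -, b3, rfl, rfl⟩ |
      ⟨u, v, y, z, i, -, b2, -, -, rfl, rfl⟩ | ⟨u, v, y, z, i, b1, b2, -, b4, rfl, rfl⟩ <;>
    rcases ih _ ha with ⟨v', c1, i'', c2⟩ | ⟨u', v', z', c2, c1⟩
    · obtain rfl := H.iE (rl_nE c2).1
      exact Or.inl ⟨v, sO j v (fun h => h1 (hWO j v h i' b3)) (Or.inr (Or.inr ⟨u, c1, b1⟩)), i', rfl⟩
    · simp only [nE, nD] at c2; omega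
    · obtain rfl := H.iE (rl_nE c2).1
      exact Or.inr ⟨u, v, z, rfl, by rcases b2 with rfl | rfl <;> simp [c1]⟩
    · simp only [nE, nD] at c2; omega
    · simp only [nE, nD] at c2; omega
    · obtain rfl := H.iO (rl_nD c2).1.1
      obtain rfl := H.iO (rl_nD c2).1.2
      exact Or.inl ⟨y, tO j u v y b1 b2 c1 fun h => h1 (hWO j y h i b4), i, rfl⟩
  have ev : ∀ j ≤ N, ∀ x ∈ Q (2 * j), (∃ v ∈ (f (j + 1)).1, ∃ i, x = nE (cE v) i) ∨
      ∃ u v z, x = nD (cO u) (cO v) z ∧ (u ∈ (f j).2 ∨ v ∈ (f j).2) := by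
    intro j
    induction j with
    | zero =>
      intro _ x hx
      obtain ⟨h1, b, h3⟩ := q0 x hx
      replace h1 : x ∉ WE 0 := h1
      rcases (H.mem _ _).1 h3 with ⟨u, v, i, i', b1, b2, -, rfl, rfl⟩ |
        ⟨u, v, y, z, i, b1, b2, -, b4, rfl, rfl⟩ | ⟨u, v, y, z, i, b1, -, -, -, rfl, rfl⟩
      · exact Or.inl ⟨u, sE 0 u (fun h => h1 (hWE 0 u h i b2))
          (Or.inl (by rw [f0]; exact (H.veo _ _ b1).1)), i, rfl⟩
      · refine Or.inl ⟨y, tE 0 u v y b1 b2 (Or.inl ?_) fun h => h1 (hWE 0 y h i b4), i, rfl⟩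
        rw [f0]
        exact ((H.ee u v).1 b1).elim (fun h => (H.vee _ _ h).1) fun h => h.2
      · refine Or.inr ⟨u, v, z, rfl, Or.inl ?_⟩
        rw [f0]
        exact ((H.oo u v).1 b1).elim (fun h => (H.voo _ _ h).1) fun h => h.2
    | succ j ih =>
      intro hj x hx
      replace ih := eo j (by omega) (ih (by omega))
      obtain ⟨h1, a, ha, h2⟩ := qs (2 * j + 1) (by omega) x hx
      beta_reduce at h1
      rw [if_pos (by omega), show (2 * j + 1 + 1) / 2 = j + 1 by omega] at h1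
      have pa : a % 2 = 1 := by
        rcases ih a ha with ⟨v, -, i, rfl⟩ | ⟨u, v, z, rfl, -⟩ <;> simp only [nO, nC] <;> omega
      have h3 : (x, a) ∈ E := h2.resolve_left fun h => by have := H.par h; omega
      rcases (H.mem _ _).1 h3 with ⟨u, v, i, i', b1, b3, -, rfl, rfl⟩ |
        ⟨u, v, y, z, i, b1, b2, -, b4, rfl, rfl⟩ | ⟨u, v, y, z, i, -, b2, -, -, rfl, rfl⟩ <;>
      rcases ih _ ha with ⟨v', c1, i'', c2⟩ | ⟨u', v', z', c2, c1⟩
      · obtain rfl := H.iO (rl_nO c2).1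
        exact Or.inl ⟨u, sE (j + 1) u (fun h => h1 (hWE _ u h i b3))
          (Or.inr (Or.inr ⟨v, c1, b1⟩)), i, rfl⟩
      · simp only [nO, nC] at c2; omega
      · simp only [nO, nC] at c2; omega
      · obtain rfl := H.iE (rl_nC c2).1.1
        obtain rfl := H.iE (rl_nC c2).1.2
        exact Or.inl ⟨y, tE (j + 1) u v y b1 b2 c1 fun h => h1 (hWE _ y h i b4), i, rfl⟩
      · obtain rfl := H.iO (rl_nO c2).1
        exact Or.inr ⟨u, v, z, rfl, by rcases b2 with rfl | rfl <;> simp [c1]⟩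
      · simp only [nO, nC] at c2; omega
  intro x hx
  have := eo N le_rfl (ev N le_rfl) x hx
  rw [fN] at this
  simp at this

theorem hunt_of (h : G.Win k) : hunt E ≤ k := by
  obtain ⟨N, V, hV, hQ⟩ := H.strat h
  set W : ℕ → Finset ℕ := fun t => if t < 2 * N + 3 then V t else V (t - (2 * N + 3)) with hW
  have ad : ∀ a x, adjE E a x → (a + x) % 2 = 1 := fun a x h => by
    rcases h with h | h <;> have := H.par h <;> omega
  have ve : ∀ x ∈ verts E, x % 2 = 0 → ∃ b, (x, b) ∈ E := fun x ⟨b, hb⟩ hx =>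
    ⟨b, hb.resolve_right fun h => by have := H.par h; omega⟩
  have h1 := hQ (fun t => {x ∈ terr E W t | (x + t) % 2 = 0})
    (fun x ⟨⟨a, b⟩, c⟩ => ⟨by simpa [hW] using b, ve x a c⟩)
    fun t ht x ⟨⟨⟨a, a1, a2⟩, b⟩, c⟩ => ⟨by
      simpa only [hW, if_pos (show t + 1 < 2 * N + 3 by omega), Finset.mem_coe] using b,
      a, ⟨a1, by have := ad _ _ a2; omega⟩, a2⟩
  have h2 : ∀ s x, x ∈ terr E W (2 * N + 1 + s) → (x + (2 * N + 1 + s)) % 2 ≠ 0 := fun s => by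
    induction s with
    | zero => exact fun x a b => h1 x ⟨a, b⟩
    | succ s ih =>
      rintro x ⟨⟨a, a1, a2⟩, -⟩ c
      have := ad _ _ a2
      exact ih a a1 (by omega)
  have h3 := hQ (fun t => {x ∈ terr E W (2 * N + 3 + t) | (x + t) % 2 = 0})
    (fun x ⟨⟨⟨a, _, a2⟩, b⟩, c⟩ => ⟨by simpa [hW] using b, ve x ⟨a, rl_symm a2⟩ c⟩)
    fun t _ x ⟨⟨⟨a, a1, a2⟩, b⟩, c⟩ => ⟨by
      have b' : x ∉ W (2 * N + 3 + (t + 1)) := b
      simpa only [hW, if_neg (show ¬ 2 * N + 3 + (t + 1) < 2 * N + 3 by omega),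
        Nat.add_sub_cancel_left] using b',
      a, ⟨a1, by have := ad _ _ a2; omega⟩, a2⟩
  refine (rl_hunt E k).2 ⟨2 * N + 3 + (2 * N + 1), W, fun t => ?_,
    eq_empty_of_forall_notMem fun x hx => h3 x ⟨hx, ?_⟩⟩
  · simp only [hW]
    split_ifs <;> exact hV _
  · have := h2 (2 * N + 3) x (by rwa [add_comm])
    omega

end RlCtx

theorem real : RealStmt := by
  intro VE VO G k cE cO lee loo leo iE iO wE wO vee voo veo ee oo eo
  have H : RlCtx G k cE cO lee loo (realE k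
      (lee.map fun e => ((cE e.1, G.wE e.1), (cE e.2, G.wE e.2)))
      (loo.map fun e => ((cO e.1, G.wO e.1), (cO e.2, G.wO e.2)))
      (leo.map fun e => ((cE e.1, G.wE e.1), (cO e.2, G.wO e.2)))) := by
    refine ⟨iE, iO, vee, voo, veo, ee, oo, fun a b => ?_⟩
    simp only [realE, List.mem_append, List.flatMap_map, List.mem_flatMap, List.mem_map,
      rl_rg (wE _), rl_rg (wO _), List.mem_range, Prod.mk.injEq, Nat.lt_succ_iff]
    refine or_congr ⟨?_, ?_⟩ (or_congr ⟨?_, ?_⟩ ⟨?_, ?_⟩)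
    · rintro ⟨⟨u, v⟩, h, i, hi, j, hj, rfl, rfl⟩
      exact ⟨u, v, i, j, (eo u v).1 h, hi, hj, rfl, rfl⟩
    · rintro ⟨u, v, i, j, h, hi, hj, rfl, rfl⟩
      exact ⟨(u, v), (eo u v).2 h, i, hi, j, hj, rfl, rfl⟩
    · rintro ⟨⟨u, v⟩, h, z, hz, ⟨i, hi, rfl, rfl⟩ | ⟨i, hi, rfl, rfl⟩⟩
      · exact ⟨u, v, u, z, i, h, Or.inl rfl, hz, hi, rfl, rfl⟩
      · exact ⟨u, v, v, z, i, h, Or.inr rfl, hz, hi, rfl, rfl⟩
    · rintro ⟨u, v, y, z, i, h, rfl | rfl, hz, hi, rfl, rfl⟩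
      · exact ⟨_, h, z, hz, Or.inl ⟨i, hi, rfl, rfl⟩⟩
      · exact ⟨_, h, z, hz, Or.inr ⟨i, hi, rfl, rfl⟩⟩
    · rintro ⟨⟨u, v⟩, h, z, hz, ⟨i, hi, rfl, rfl⟩ | ⟨i, hi, rfl, rfl⟩⟩
      · exact ⟨u, v, u, z, i, h, Or.inl rfl, hz, hi, rfl, rfl⟩
      · exact ⟨u, v, v, z, i, h, Or.inr rfl, hz, hi, rfl, rfl⟩
    · rintro ⟨u, v, y, z, i, h, rfl | rfl, hz, hi, rfl, rfl⟩
      · exact ⟨_, h, z, hz, Or.inl ⟨i, hi, rfl, rfl⟩⟩
      · exact ⟨_, h, z, hz, Or.inr ⟨i, hi, rfl, rfl⟩⟩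
  exact ⟨H.win_of, H.hunt_of⟩

end Pool.Agent.MP_9694c2_lc.PS
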