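import Pool.Agent.MP_9694c2_lc.PS.Spec

/-!
Machines are simulated by automata.
-/

set_option autoImplicit false

namespace Pool.Agent.MP_9694c2_lc.PS

open Pool.Agent.PolyT Pool.Agent.H82

/-- The table of a function. -/
def tmTb {β : Type} (A : ℕ) (f : ℕ → β) : List β := (List.range A).map f

theorem tmTb_getD {β : Type} (A : ℕ) (f : ℕ → β) (a : ℕ) (d : β) :
    (tmTb A f).getD a d = if a < A then f a else d := by
  unfold tmTb
  split_ifs with h
  · simp [List.getD, h]
  · simp [List.getD, Nat.le_of_not_lt h]

namespace TM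

variable (M : TM)

/-- The letters: a symbol, and the state if the head is there. -/
abbrev Lt : Type := Fin (M.g + 3) × Option (Fin (M.q + 3))

/-- The number of letters. -/
def A : ℕ := Fintype.card M.Lt

/-- The number of a letter. -/
noncomputable def enc (l : M.Lt) : ℕ := Fintype.equivFin M.Lt l

/-- The letter of a number. -/
noncomputable def dec (a : ℕ) : M.Lt :=
  if h : a < M.A then (Fintype.equivFin M.Lt).symm ⟨a, h⟩ else (0, none)

theorem enc_lt (l : M.Lt) : M.enc l < M.A := (Fintype.equivFin M.Lt l).2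

theorem dec_enc (l : M.Lt) : M.dec (M.enc l) = l := by
  rw [dec, dif_pos (M.enc_lt l)]
  exact (Fintype.equivFin M.Lt).symm_apply_apply l

/-- The state that leaves the cell in the direction `d`. -/
def hd (l : M.Lt) (d : Bool) : Option (Fin (M.q + 3)) :=
  match l.2 with
  | none => none
  | some s => if s = 1 ∨ s = 2 then none else
      if (M.δ s l.1).2.2 = d then some (M.δ s l.1).1 else none

/-- The local rule; `z` marks the first cell, `y` the cells other than the last. -/
def loc (z y : Bool) (a b c : M.Lt) : M.Lt :=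
  match b.2 with
  | some s => if s = 1 ∨ s = 2 then b else
      ((M.δ s b.1).2.1, if z = true then M.hd b false else none)
  | none => (b.1, (if z = true then none else M.hd a true).or
      (if y = true then M.hd c false else none))

/-- The letter in cell `i`. -/
def code (c : M.Cfg) (i : ℕ) : M.Lt := (c.tape i, if c.pos = i then some c.st else none)

theorem loc_code (c : M.Cfg) (n i a b : ℕ) (hp : c.pos < n) (ha : i ≠ 0 → a + 1 = i)
    (hb : i + 1 < n → b = i + 1) :
    M.loc (eqB i 0) (ltB (i + 1) n) (M.code c a) (M.code c i) (M.code c b)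
      = M.code (M.step c) i := by
  by_cases h : c.st = 1 ∨ c.st = 2
  · have e : ∀ j d, M.hd (M.code c j) d = none := fun j d => by
      by_cases hj : c.pos = j <;> simp [hd, code, hj, h]
    rw [step, if_pos h]
    by_cases hi : c.pos = i
    · simp [loc, code, hi, h]
    · unfold loc
      rw [e, e, e]
      simp [code, hi]
  · have e : ∀ j d, M.hd (M.code c j) d = if c.pos = j ∧ (M.δ c.st (c.tape c.pos)).2.2 = d
        then some (M.δ c.st (c.tape c.pos)).1 else none := fun j d => by
      by_cases hj : c.pos = j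
      · subst hj
        simp [hd, code, h]
      · simp [hd, code, hj]
    rw [step, if_neg h]
    unfold loc
    rw [e, e, e]
    generalize hr : M.δ c.st (c.tape c.pos) = r
    obtain ⟨s, w, d⟩ := r
    by_cases hi : c.pos = i
    · subst hi
      cases d <;> by_cases h0 : c.pos = 0 <;> simp [code, h, hr, h0]
      all_goals first | omega | simp [← h0, hr]
    · simp only [code, if_neg hi, Function.update_of_ne (Ne.symm hi), eqB_iff, ltB_iff]
      congr 1
      cases d <;> simp only [Bool.false_eq_true, Bool.true_eq_false, and_false, and_true,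
        if_false, if_true] <;> split_ifs <;> first | rfl | omega

/-- The rule on numbers. -/
noncomputable def tab (z y : Bool) : List (List (List ℕ)) :=
  tmTb M.A fun a => tmTb M.A fun b => tmTb M.A fun c =>
    M.enc (M.loc z y (M.dec a) (M.dec b) (M.dec c))

/-- The automaton with `n` cells. -/
noncomputable def ca (x : List Bool) (n : ℕ) : CA where
  n := n
  A := M.A
  rule i a b c := (((cond (eqB i 0) (cond (ltB (i + 1) n) (M.tab true true) (M.tab true false))
    (cond (ltB (i + 1) n) (M.tab false true) (M.tab false false))).getD a []).getD b []).getD c 0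
  acc a := (tmTb M.A fun a => decide ((M.dec a).2 = some 1)).getD a false
  ini i := cond (eqB i 0)
    (cond (ltB i x.length) (cond (x.getD i false) (M.enc (2, some 0)) (M.enc (1, some 0)))
      (M.enc (0, some 0)))
    (cond (ltB i x.length) (cond (x.getD i false) (M.enc (2, none)) (M.enc (1, none)))
      (M.enc (0, none)))

theorem ca_rule (x : List Bool) (n i a b c : ℕ) : (M.ca x n).rule i a b c =
    (((M.tab (eqB i 0) (ltB (i + 1) n)).getD a []).getD b []).getD c 0 := by
  simp only [ca]
  cases eqB i 0 <;> cases ltB (i + 1) n <;> rfl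

theorem ca_ini (x : List Bool) (n i : ℕ) : (M.ca x n).ini i = M.enc (M.code (M.run x 0) i) := by
  simp only [ca, code, run]
  generalize x.getD i false = u
  by_cases h0 : i = 0
  · subst h0
    by_cases h1 : 0 < x.length <;> cases u <;> simp [eqB, ltB, h1]
  · by_cases h1 : i < x.length <;> cases u <;> simp [eqB, ltB, h0, h1, Ne.symm h0]

theorem ca_wf (x : List Bool) {n : ℕ} (hn : 0 < n) : (M.ca x n).WF where
  n_pos := hn
  rule_lt i a b c := by
    have h0 : 0 < M.A := Nat.zero_lt_of_lt (M.enc_lt (0, none))
    rw [ca_rule, tab, tmTb_getD]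
    split_ifs
    · rw [tmTb_getD]
      split_ifs
      · rw [tmTb_getD]
        split_ifs
        exacts [M.enc_lt _, h0]
      · exact h0
    · exact h0
  ini_lt i := by rw [ca_ini]; exact M.enc_lt _

theorem ca_cfg (x : List Bool) {n : ℕ} (h : ∀ t, (M.run x t).pos < n) (t : ℕ) :
    ∀ i < n, (M.ca x n).cfg t i = M.enc (M.code (M.run x t) i) := by
  induction t with
  | zero => exact fun i _ => M.ca_ini x n i
  | succ t ih =>
    intro i hi
    have hn : (M.ca x n).n = n := rfl
    simp only [CA.cfg]
    rw [ih i hi, ih _ (by unfold CA.pr; split_ifs <;> omega),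
      ih _ (by unfold CA.nx; split_ifs <;> omega), ca_rule, tab, tmTb_getD, if_pos (M.enc_lt _),
      tmTb_getD, if_pos (M.enc_lt _), tmTb_getD, if_pos (M.enc_lt _), dec_enc, dec_enc, dec_enc,
      M.loc_code _ n i _ _ (h t) (fun h0 => by unfold CA.pr; rw [if_neg h0]; omega)
        (fun h1 => by unfold CA.nx; rw [if_neg (by omega)]), run]

theorem halt (x : List Bool) {t : ℕ} (h : (M.run x t).st = 1 ∨ (M.run x t).st = 2) (s : ℕ) :
    M.run x (t + s) = M.run x t := by
  induction s with
  | zero => rfl
  | succ s ih => rw [← Nat.add_assoc, run, ih, step, if_pos h]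

theorem ca_acc (x : List Bool) {n : ℕ} (h : ∀ t, (M.run x t).pos < n) :
    (M.ca x n).Acc ↔ ∃ t, (M.run x t).st = 1 := by
  have e : ∀ l, (M.ca x n).acc (M.enc l) = true ↔ l.2 = some 1 := fun l => by
    simp only [ca]
    rw [tmTb_getD, if_pos (M.enc_lt _), dec_enc, decide_eq_true_iff]
  constructor
  · rintro ⟨t, i, hi, ha⟩
    rw [M.ca_cfg x h _ i hi, e, code] at ha
    refine ⟨t + 1, ?_⟩
    split_ifs at ha
    exact Option.some.inj ha
  · rintro ⟨t, ht⟩
    refine ⟨t, _, h t, ?_⟩
    rw [M.ca_cfg x h _ _ (h t), e, M.halt x (.inl ht), code, if_pos rfl, ht]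

end TM

theorem tmca : TMStmt := by
  rintro L ⟨M, p, h⟩
  obtain ⟨F, hF, hl⟩ := exists_list_eval (l := fun x : List Bool => x) Poly.id p
  refine ⟨fun x => M.ca x (F x).length, ⟨?_, ⟨M.A, fun _ => rfl⟩, ?_, ?_, ?_,
    F, hF, fun _ => le_rfl⟩, fun x => ?_⟩
  · exact hF.length
  · simp only [TM.ca]
    fun_prop
  · simp only [TM.ca]
    fun_prop
  · simp only [TM.ca]
    fun_prop
  · have h1 : ∀ t, (M.run x t).pos < (F x).length := fun t => by rw [hl]; exact (h x).1 t
    refine ⟨M.ca_wf x (Nat.zero_lt_of_lt (h1 0)), ?_⟩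
    obtain ⟨t, ht⟩ := (h x).2
    rw [M.ca_acc x h1]
    refine ⟨fun hx => ⟨t, by rw [ht, if_pos hx]⟩, fun ⟨s, hs⟩ => by_contra fun hx => ?_⟩
    rw [if_neg hx] at ht
    have e := (M.halt x (.inl hs) t).symm.trans ((Nat.add_comm s t ▸ M.halt x (.inr ht) s))
    rw [e, ht] at hs
    exact absurd (congrArg Fin.val hs) (show 2 ≠ 1 by decide)

end Pool.Agent.MP_9694c2_lc.PS
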