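import Pool.Agent.MP_9694c2_lc.PS.Main
import Pool.Agent.MP_9694c2_lc.PS.Real
import Pool.Agent.MP_9694c2_lc.PS.TMCA
import Pool.Agent.MP_9694c2_lc.PS.Enc
import Pool.Agent.MP_9694c2_lc.PS.JobWF
import Pool.Agent.MP_9694c2_lc.PS.JobSound
import Pool.Agent.MP_9694c2_lc.PS.JobCompl
import Pool.Agent.MP_9694c2_lc.PS.CJob
import Pool.Agent.MP_9694c2_lc.PS.CPush
import Pool.Agent.MP_9694c2_lc.PS.CLat
import Pool.Agent.MP_9694c2_lc.PS.CPrep1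
import Pool.Agent.MP_9694c2_lc.PS.CPrep2
import Pool.Agent.MP_9694c2_lc.PS.CGlue

/-!
The reduction.
-/

set_option autoImplicit false

namespace Pool.Agent.MP_9694c2_lc.PS

theorem hard : ∀ k : ℕ, 42 ≤ k → ∀ L ∈ PSPACE,
    ∃ f : List Bool → List (ℕ × ℕ), N68a2faeb.IsPolyTime f ∧
      ∀ x, (f x).Nodup ∧ (∀ e ∈ f x, Even e.1 ∧ Odd e.2) ∧ (L x = true ↔ hunt (f x) ≤ k) :=
  hard_of real tmca enc jobWF jobPoly jobSound jobCompl
    (cGlue cJob cJob0 cPush cLat cLat0 cEnd cPrep1 cPrep2)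

end Pool.Agent.MP_9694c2_lc.PS
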