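import Pool.Agent.MP_9694c2_lc.PS.Graph

/-!
Basic facts about rails in a play.
-/

set_option autoImplicit false

namespace Pool.Agent.MP_9694c2_lc.PS

namespace Sys

open Finset

variable {S : Sys}

theorem wE_r_pos (X : Reg) (i : ℕ) : 1 ≤ S.wE (.r X i) := by
  cases X <;> simp [wE]

variable (S) in
/-- The number of shots on a rail. -/
def sh (W : Finset VE) (X : Reg) : ℕ := ((range (S.len X)).filter (fun i => VE.r X i ∈ W)).card

open Classical in
variable (S) in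
/-- The number of clean vertices of a rail with a dirty neighbour on the rail. -/
noncomputable def bd (A : Set VE) (X : Reg) : ℕ :=
  ((range (S.len X)).filter (fun i => VE.r X i ∉ A ∧
    ((i + 1 < S.len X ∧ VE.r X (i + 1) ∈ A) ∨ (0 < i ∧ VE.r X (i - 1) ∈ A)))).card

theorem cc_le (A : Set VE) (X : Reg) : S.cc A X ≤ S.len X := by
  classical
  unfold cc
  exact (card_filter_le _ _).trans (by simp)

theorem cc_of_not_dirt {A : Set VE} {X : Reg} (h : ¬ S.dirt A X) : S.cc A X = S.len X := by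
  classical
  unfold cc
  rw [filter_true_of_mem, card_range]
  intro i hi hA
  exact h ⟨i, mem_range.1 hi, hA⟩

theorem dirt_of_cc {A : Set VE} {X : Reg} (h : S.cc A X < S.len X) : S.dirt A X := by
  by_contra hc
  rw [cc_of_not_dirt hc] at h
  omega

theorem cc_lt_of_dirt {A : Set VE} {X : Reg} (h : S.dirt A X) : S.cc A X < S.len X := by
  classical
  obtain ⟨i, hi, hA⟩ := h
  unfold cc
  conv_rhs => rw [← card_range (S.len X)]
  exact card_lt_card (filter_ssubset.2 ⟨i, mem_range.2 hi, by simpa using hA⟩)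

variable (Q : S.G.Play S.k)

theorem budE (j : ℕ) (l : List VE) (hn : l.Nodup) (hm : ∀ v ∈ l, v ∈ Q.X j) :
    (l.map S.wE).sum ≤ S.k := by
  rw [← List.sum_toFinset _ hn]
  exact (sum_le_sum_of_subset fun v hv => hm v (List.mem_toFinset.1 hv)).trans (Q.hX j)

theorem budO (j : ℕ) (l : List VO) (hn : l.Nodup) (hm : ∀ v ∈ l, v ∈ Q.Y j) :
    (l.map S.wO).sum ≤ S.k := by
  rw [← List.sum_toFinset _ hn]
  exact (sum_le_sum_of_subset fun v hv => hm v (List.mem_toFinset.1 hv)).trans (Q.hY j)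

theorem sh_le (j : ℕ) (X : Reg) : S.sh (Q.X j) X ≤ S.k := by
  unfold sh
  refine le_trans ?_ (Q.hX j)
  rw [← card_image_of_injective _ (f := VE.r X) (fun a b h => by simpa using h), card_eq_sum_ones]
  refine (sum_le_sum fun v hv => ?_).trans
    (sum_le_sum_of_subset (s := image (VE.r X) _) (f := S.G.wE) fun v hv => ?_)
  · obtain ⟨i, -, rfl⟩ := mem_image.1 hv
    exact wE_r_pos X i
  · obtain ⟨i, hi, rfl⟩ := mem_image.1 hv
    exact (mem_filter.1 hi).2

variable {Q}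

theorem nd_of_apE {a : VE} {X : Reg} {j : ℕ} (h : S.apE a X) (ha : a ∈ Q.A j) :
    S.cc (Q.A (j + 1)) X ≤ S.k := by
  classical
  refine le_trans (card_le_card fun i hi => ?_) (sh_le Q j X)
  rw [mem_filter] at hi ⊢
  refine ⟨hi.1, ?_⟩
  by_contra hc
  exact hi.2 (Q.a1 j a _ hc ha (ee.ap a X i h (mem_range.1 hi.1)))

theorem nd_of_apO {b : VO} {X : Reg} {j : ℕ} (h : S.apO b X) (hb : b ∈ Q.B j) :
    S.cc (Q.A (j + 1)) X ≤ S.k := by
  classical
  refine le_trans (card_le_card fun i hi => ?_) (sh_le Q j X)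
  rw [mem_filter] at hi ⊢
  refine ⟨hi.1, ?_⟩
  by_contra hc
  exact hi.2 (Q.a3 j b _ hc hb (eo.ap b X i h (mem_range.1 hi.1)))

theorem apE_dirty {a : VE} {X : Reg} {j : ℕ} (h : S.apE a X) (hd : S.dirt (Q.A j) X)
    (ha : a ∉ Q.X j) : a ∈ Q.A (j + 1) := by
  obtain ⟨i, hi, hA⟩ := hd
  exact Q.a2 j _ a ha hA (ee.ap a X i h hi)

theorem apO_dirty {b : VO} {X : Reg} {j : ℕ} (h : S.apO b X) (hd : S.dirt (Q.A (j + 1)) X)
    (hb : b ∉ Q.Y j) : b ∈ Q.B (j + 1) := by
  obtain ⟨i, hi, hA⟩ := hd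
  exact Q.b3 j _ b hb hA (eo.ap b X i h hi)

theorem forcedE {a : VE} {X : Reg} {j : ℕ} (h : S.apE a X) (hd : S.dirt (Q.A j) X)
    (hn : S.k < S.cc (Q.A (j + 2)) X) : a ∈ Q.X j := by
  by_contra ha
  exact absurd (nd_of_apE h (apE_dirty h hd ha)) (not_le.2 hn)

theorem forcedO {b : VO} {X : Reg} {j : ℕ} (h : S.apO b X) (hd : S.dirt (Q.A (j + 1)) X)
    (hn : S.k < S.cc (Q.A (j + 2)) X) : b ∈ Q.Y j := by
  by_contra hb
  exact absurd (nd_of_apO h (apO_dirty h hd hb)) (not_le.2 hn)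

variable (Q)

theorem cc_bd (j : ℕ) (X : Reg) :
    S.cc (Q.A (j + 1)) X + S.bd (Q.A j) X ≤ S.cc (Q.A j) X + S.sh (Q.X j) X := by
  classical
  unfold cc bd sh
  set C' := (range (S.len X)).filter (fun i => VE.r X i ∉ Q.A (j + 1))
  set C := (range (S.len X)).filter (fun i => VE.r X i ∉ Q.A j)
  set D := (range (S.len X)).filter (fun i => VE.r X i ∉ Q.A j ∧
    ((i + 1 < S.len X ∧ VE.r X (i + 1) ∈ Q.A j) ∨ (0 < i ∧ VE.r X (i - 1) ∈ Q.A j)))
  set W := (range (S.len X)).filter (fun i => VE.r X i ∈ Q.X j)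
  have h1 : D ⊆ C := fun i hi => by
    rw [mem_filter] at hi ⊢
    exact ⟨hi.1, hi.2.1⟩
  have h2 : C' ⊆ (C \ D) ∪ W := fun i hi => by
    rw [mem_filter] at hi
    by_cases hW : VE.r X i ∈ Q.X j
    · exact mem_union_right _ (mem_filter.2 ⟨hi.1, hW⟩)
    · refine mem_union_left _ (mem_sdiff.2 ⟨mem_filter.2 ⟨hi.1, fun h => hi.2 (Q.a0 j _ hW h)⟩,
        fun h => ?_⟩)
      rcases (mem_filter.1 h).2.2 with ⟨h3, h4⟩ | ⟨h3, h4⟩
      · exact hi.2 (Q.a2 j _ _ hW h4 (ee.rr X i h3))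
      · obtain ⟨i, rfl⟩ : ∃ i', i = i' + 1 := ⟨i - 1, by omega⟩
        exact hi.2 (Q.a1 j _ _ hW h4 (ee.rr X i (mem_range.1 hi.1)))
  have h3 := (card_le_card h2).trans (card_union_le _ _)
  have h4 := card_sdiff_add_card_eq_card h1
  omega

theorem cc_step (j : ℕ) (X : Reg) : S.cc (Q.A (j + 1)) X ≤ S.cc (Q.A j) X + S.k := by
  have := cc_bd Q j X
  have := sh_le Q j X
  omega

theorem cc_steps (j n : ℕ) (X : Reg) : S.cc (Q.A (j + n)) X ≤ S.cc (Q.A j) X + n * S.k := by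
  induction n with
  | zero => simp
  | succ n ih =>
    have := cc_step Q (j + n) X
    rw [← add_assoc, Nat.succ_mul]
    omega

variable {Q}

theorem up_bd {A : Set VE} {X : Reg} {a b : ℕ} (hab : a < b) (ha : VE.r X a ∉ A)
    (hb : VE.r X b ∈ A) : ∃ i, a ≤ i ∧ i < b ∧ VE.r X i ∉ A ∧ VE.r X (i + 1) ∈ A := by
  induction b, hab using Nat.le_induction with
  | base => exact ⟨a, le_rfl, by omega, ha, hb⟩
  | succ b hab ih =>
    by_cases h : VE.r X b ∈ A
    · obtain ⟨i, h1, h2, h3⟩ := ih h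
      exact ⟨i, h1, by omega, h3⟩
    · exact ⟨b, by omega, by omega, h, hb⟩

theorem down_bd {A : Set VE} {X : Reg} {a b : ℕ} (hab : a < b) (ha : VE.r X a ∈ A)
    (hb : VE.r X b ∉ A) : ∃ i, a < i ∧ i ≤ b ∧ VE.r X i ∉ A ∧ VE.r X (i - 1) ∈ A := by
  induction b, hab using Nat.le_induction with
  | base => exact ⟨a + 1, by omega, le_rfl, hb, ha⟩
  | succ b hab ih =>
    by_cases h : VE.r X b ∈ A
    · exact ⟨b + 1, by omega, le_rfl, hb, h⟩
    · obtain ⟨i, h1, h2, h3⟩ := ih h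
      exact ⟨i, h1, by omega, h3⟩

theorem exists_clean {A : Set VE} {X : Reg} (h : 0 < S.cc A X) : ∃ i < S.len X, VE.r X i ∉ A := by
  classical
  obtain ⟨i, hi⟩ := card_pos.1 h
  rw [mem_filter] at hi
  exact ⟨i, mem_range.1 hi.1, hi.2⟩

theorem bd_pos {A : Set VE} {X : Reg} (h : 0 < S.cc A X) (hd : S.dirt A X) : 1 ≤ S.bd A X := by
  classical
  obtain ⟨a, ha, ha'⟩ := exists_clean h
  obtain ⟨b, hb, hb'⟩ := hd
  refine card_pos.2 ?_
  rcases lt_trichotomy a b with h1 | rfl | h1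
  · obtain ⟨i, h2, h3, h4, h5⟩ := up_bd h1 ha' hb'
    exact ⟨i, mem_filter.2 ⟨mem_range.2 (by omega), h4, Or.inl ⟨by omega, h5⟩⟩⟩
  · exact absurd hb' ha'
  · obtain ⟨i, h2, h3, h4, h5⟩ := down_bd h1 hb' ha'
    exact ⟨i, mem_filter.2 ⟨mem_range.2 (by omega), h4, Or.inr ⟨by omega, h5⟩⟩⟩

theorem bd_two {A : Set VE} {X : Reg} {a b : ℕ} (hab : a ≠ b) (ha : a < S.len X)
    (hb : b < S.len X) (ha1 : VE.r X a ∉ A) (hb1 : VE.r X b ∉ A)
    (ha2 : (a + 1 < S.len X ∧ VE.r X (a + 1) ∈ A) ∨ (0 < a ∧ VE.r X (a - 1) ∈ A))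
    (hb2 : (b + 1 < S.len X ∧ VE.r X (b + 1) ∈ A) ∨ (0 < b ∧ VE.r X (b - 1) ∈ A)) :
    2 ≤ S.bd A X := by
  classical
  exact one_lt_card.2 ⟨a, mem_filter.2 ⟨mem_range.2 ha, ha1, ha2⟩, b,
    mem_filter.2 ⟨mem_range.2 hb, hb1, hb2⟩, hab⟩

/-- With one boundary vertex the clean part is an initial or a final segment. -/
theorem bd_one {A : Set VE} {X : Reg} {u v a b : ℕ} (h1 : S.bd A X ≤ 1) (h2 : 2 ≤ S.cc A X)
    (hv : v ≤ S.len X) (ha : u ≤ a ∧ a < v) (hb : u ≤ b ∧ b < v) (ha' : VE.r X a ∉ A)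
    (hb' : VE.r X b ∈ A) :
    (u ≤ S.cc A X ∧ S.cc A X ≤ v) ∨ (S.len X ≤ S.cc A X + v ∧ S.cc A X + u ≤ S.len X) := by
  classical
  have key : ∀ x y z, x < y → y < z → z < S.len X → VE.r X x ∉ A → VE.r X y ∈ A →
      VE.r X z ∈ A := by
    intro x y z hxy hyz hz hx hy
    by_contra hz'
    obtain ⟨i, i1, i2, i3, i4⟩ := up_bd hxy hx hy
    obtain ⟨m, m1, m2, m3, m4⟩ := down_bd hyz hy hz'
    have := bd_two (S := S) (a := i) (b := m) (by omega) (by omega) (by omega) i3 m3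
      (Or.inl ⟨by omega, i4⟩) (Or.inr ⟨by omega, m4⟩)
    omega
  have key2 : ∀ x y z, x < y → y < z → z < S.len X → VE.r X x ∈ A → VE.r X y ∉ A →
      VE.r X z ∉ A := by
    intro x y z hxy hyz hz hx hy hz'
    obtain ⟨i, i1, i2, i3, i4⟩ := up_bd hyz hy hz'
    obtain ⟨m, m1, m2, m3, m4⟩ := down_bd hxy hx hy
    by_cases him : i = m
    · obtain ⟨p, hp, q, hq, hpq⟩ := one_lt_card.1 h2
      rw [mem_filter, mem_range] at hp hq
      obtain ⟨w, hw, hw', hwy⟩ : ∃ w < S.len X, VE.r X w ∉ A ∧ w ≠ y := by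
        by_cases hpy : p = y
        · exact ⟨q, hq.1, hq.2, by omega⟩
        · exact ⟨p, hp.1, hp.2, hpy⟩
      obtain rfl : i = y := by omega
      obtain rfl : m = i := him.symm
      rcases lt_or_gt_of_ne hwy with h | h
      · have h3 : w ≠ m - 1 := fun h4 => hw' (h4 ▸ m4)
        exact hy (key w (m - 1) m (by omega) (by omega) (by omega) hw' m4)
      · have h3 : w ≠ m + 1 := fun h4 => hw' (h4 ▸ i4)
        exact hw' (key m (m + 1) w (by omega) (by omega) hw hy i4)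
    · have := bd_two (S := S) (a := i) (b := m) him (by omega) (by omega) i3 m3
        (Or.inl ⟨by omega, i4⟩) (Or.inr ⟨by omega, m4⟩)
      omega
  rcases lt_trichotomy a b with h | rfl | h
  · left
    constructor
    · refine le_trans (by simp) (card_le_card (s := range u) fun i hi => ?_)
      rw [mem_range] at hi
      exact mem_filter.2 ⟨mem_range.2 (by omega), fun hA =>
        key2 i a b (by omega) h (by omega) hA ha' hb'⟩
    · refine le_trans (card_le_card (t := range v) fun i hi => ?_) (by simp)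
      rw [mem_filter, mem_range] at hi
      by_contra hc
      rw [mem_range] at hc
      exact hi.2 (key a b i h (by omega) hi.1 ha' hb')
  · exact absurd hb' ha'
  · right
    constructor
    · have : (Ico v (S.len X)).card ≤ S.cc A X := by
        refine card_le_card fun i hi => ?_
        rw [mem_Ico] at hi
        exact mem_filter.2 ⟨mem_range.2 hi.2, key2 b a i h (by omega) hi.2 hb' ha'⟩
      rw [Nat.card_Ico] at this
      omega
    · have : S.cc A X ≤ (Ico u (S.len X)).card := by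
        refine card_le_card fun i hi => ?_
        rw [mem_filter, mem_range] at hi
        refine mem_Ico.2 ⟨?_, hi.1⟩
        by_contra hc
        exact ha' (key i b a (by omega) h (by omega) hi.2 hb')
      rw [Nat.card_Ico] at this
      omega

/-! Sizes. -/

theorem WF.dl_ge (hS : S.WF) : 30 * S.k ≤ S.dl := by
  have := hS.N_pos
  unfold dl
  nlinarith

theorem WF.h_ge (hS : S.WF) : 420 * S.dl ≤ S.h := by
  have := hS.k_ge
  unfold h
  nlinarith

theorem WF.U_ge (hS : S.WF) : 6 * S.h ≤ S.U := by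
  have := hS.N_pos
  unfold U
  nlinarith

theorem WF.len_job (hS : S.WF) {j : ℕ} (hj : j < S.N) : S.U ≤ S.len (.job j) := by
  have := hS.sz_pos j hj
  simp only [len, hj, if_true]
  nlinarith

theorem len_job_eq {j : ℕ} (hj : j < S.N) : S.len (.job j) = S.sz j * S.U := by
  simp only [len, hj, if_true]

theorem r_ge : S.U ≤ S.r := by
  unfold r
  omega

theorem L_ge (c : Bool) : S.r ≤ S.L c := by
  unfold L
  omega

end Sys

end Pool.Agent.MP_9694c2_lc.PS
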