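import Pool.Agent.MP_9694c2_lc.PS.Spec
import Pool.Agent.MP_9694c2_lc.PS.Base

/-!
Tools for building strategies.
-/

set_option autoImplicit false

namespace Pool.Agent.MP_9694c2_lc.PS

namespace TG

variable {VE VO : Type} {G : TG VE VO} {k : ℕ}

theorem Rnd.mono {S S' T T' : Set VE × Set VO} (h : G.Rnd k S S') (h1 : T.1 ⊆ S.1)
    (h2 : T.2 ⊆ S.2) : S' = T' → G.Rnd k T T' := by
  rintro rfl
  obtain ⟨X, Y, hX, hY, hA, hB⟩ := h
  refine ⟨X, Y, hX, hY, fun v hv h => hA v hv ?_, fun v hv h => hB v hv ?_⟩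
  · rcases h with h | ⟨u, hu, h⟩ | ⟨u, hu, h⟩
    · exact Or.inl (h1 h)
    · exact Or.inr (Or.inl ⟨u, h1 hu, h⟩)
    · exact Or.inr (Or.inr ⟨u, h2 hu, h⟩)
  · rcases h with h | ⟨u, hu, h⟩ | h
    · exact Or.inl (h2 h)
    · exact Or.inr (Or.inl ⟨u, h2 hu, h⟩)
    · exact Or.inr (Or.inr h)

theorem Reach.refl (S : Set VE × Set VO) : G.Reach k S S := Relation.ReflTransGen.refl

theorem Reach.trans {S S' S'' : Set VE × Set VO} (h : G.Reach k S S') (h' : G.Reach k S' S'') :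
    G.Reach k S S'' := Relation.ReflTransGen.trans h h'

theorem Rnd.reach {S S' : Set VE × Set VO} (h : G.Rnd k S S') : G.Reach k S S' :=
  Relation.ReflTransGen.single h

theorem reach_iter (C : ℕ → Set VE × Set VO) (n : ℕ) (h : ∀ i < n, G.Rnd k (C i) (C (i + 1))) :
    G.Reach k (C 0) (C n) := by
  induction n with
  | zero => exact Reach.refl _
  | succ n ih => exact (ih fun i hi => h i (by omega)).trans (h n (by omega)).reach

/-- At least one round, from a smaller state. -/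
theorem reach_iter' (C : ℕ → Set VE × Set VO) (n : ℕ) (hn : 0 < n)
    (h : ∀ i < n, G.Rnd k (C i) (C (i + 1))) {T T' : Set VE × Set VO} (h1 : T.1 ⊆ (C 0).1)
    (h2 : T.2 ⊆ (C 0).2) (h3 : C n = T') : G.Reach k T T' := by
  obtain ⟨n, rfl⟩ : ∃ m, n = m + 1 := ⟨n - 1, by omega⟩
  subst h3
  exact ((h 0 hn).mono h1 h2 rfl).reach.trans
    (reach_iter (fun i => C (i + 1)) n fun i hi => h (i + 1) (by omega))

theorem sum_toFinset_le {V : Type} [DecidableEq V] (w : V → ℕ) (l : List V) :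
    ∑ v ∈ l.toFinset, w v ≤ (l.map w).sum := by
  induction l with
  | nil => simp
  | cons a l ih =>
    rw [List.toFinset_cons, List.map_cons, List.sum_cons]
    by_cases h : a ∈ l.toFinset
    · rw [Finset.insert_eq_of_mem h]
      omega
    · rw [Finset.sum_insert h]
      omega

/-- A round given by two lists of shots. -/
theorem rnd_of_lists [DecidableEq VE] [DecidableEq VO] {S S' : Set VE × Set VO} (X : List VE)
    (Y : List VO) (hX : (X.map G.wE).sum ≤ k) (hY : (Y.map G.wO).sum ≤ k)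
    (a0 : ∀ v, v ∉ X → v ∈ S.1 → v ∈ S'.1)
    (a1 : ∀ u v, G.ee u v → v ∉ X → u ∈ S.1 → v ∈ S'.1)
    (a2 : ∀ u v, G.ee v u → v ∉ X → u ∈ S.1 → v ∈ S'.1)
    (a3 : ∀ u v, G.eo v u → v ∉ X → u ∈ S.2 → v ∈ S'.1)
    (b0 : ∀ v, v ∉ Y → v ∈ S.2 → v ∈ S'.2)
    (b1 : ∀ u v, G.oo u v → v ∉ Y → u ∈ S.2 → v ∈ S'.2)
    (b2 : ∀ u v, G.oo v u → v ∉ Y → u ∈ S.2 → v ∈ S'.2)
    (b3 : ∀ u v, G.eo u v → v ∉ Y → u ∈ S'.1 → v ∈ S'.2) : G.Rnd k S S' := by
  refine ⟨X.toFinset, Y.toFinset, (sum_toFinset_le _ _).trans hX,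
    (sum_toFinset_le _ _).trans hY, fun v hv h => ?_, fun v hv h => ?_⟩
  · rw [List.mem_toFinset] at hv
    rcases h with h | ⟨u, hu, h | h⟩ | ⟨u, hu, h⟩
    exacts [a0 v hv h, a1 u v h hv hu, a2 u v h hv hu, a3 u v h hv hu]
  · rw [List.mem_toFinset] at hv
    rcases h with h | ⟨u, hu, h | h⟩ | ⟨u, hu, h⟩
    exacts [b0 v hv h, b1 u v h hv hu, b2 u v h hv hu, b3 u v h hv hu]

end TG

namespace Sys

variable {S : Sys}

theorem WF.h_pos (hS : S.WF) : 0 < S.h := by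
  have := hS.h_ge
  have := hS.dl_ge
  have := hS.k_ge
  omega

/-- Every position from `r` on lies in a symbol. -/
theorem exists_sym (hS : S.WF) {i : ℕ} (hi : S.r ≤ i) :
    ∃ s y, y < 2 * S.N ∧ S.sy s y ≤ i ∧ i < S.sy s y + 3 * S.h := by
  have h1 := hS.h_pos
  have h2 := hS.U_ge
  have h3 := Nat.div_add_mod (i - S.r) S.U
  have h4 := Nat.mod_lt (i - S.r) (show 0 < S.U by omega)
  have h5 := Nat.div_add_mod ((i - S.r) % S.U) (3 * S.h)
  have h6 := Nat.mod_lt ((i - S.r) % S.U) (show 0 < 3 * S.h by omega)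
  refine ⟨(i - S.r) / S.U, (i - S.r) % S.U / (3 * S.h), ?_, ?_⟩
  · rw [Nat.div_lt_iff_lt_mul (by omega)]
    refine h4.trans_eq ?_
    unfold U
    ring
  · unfold sy
    rw [mul_comm _ S.U, show ∀ y, 3 * y * S.h = 3 * S.h * y from fun y => by ring]
    omega

/-- Symbols are disjoint. -/
theorem sym_unique {i s y s' y' : ℕ} (hy : y < 2 * S.N) (hy' : y' < 2 * S.N)
    (h1 : S.sy s y ≤ i) (h2 : i < S.sy s y + 3 * S.h) (h3 : S.sy s' y' ≤ i)
    (h4 : i < S.sy s' y' + 3 * S.h) : s = s' ∧ y = y' := by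
  have key : ∀ y < 2 * S.N, 3 * y * S.h + 3 * S.h ≤ S.U := by
    intro y hy
    unfold U
    nlinarith
  have h5 := key y hy
  have h6 := key y' hy'
  unfold sy at *
  obtain rfl : s = s' := by
    rcases lt_trichotomy s s' with h | h | h
    · have := Nat.mul_le_mul_right S.U (show s + 1 ≤ s' from h)
      rw [Nat.succ_mul] at this
      omega
    · exact h
    · have := Nat.mul_le_mul_right S.U (show s' + 1 ≤ s from h)
      rw [Nat.succ_mul] at this
      omega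
  refine ⟨rfl, ?_⟩
  rcases lt_trichotomy y y' with h | h | h
  · nlinarith
  · exact h
  · nlinarith

theorem busy_le' {c : Bool} {s y : ℕ} (h : S.busy c s y) :
    S.r ≤ S.sy s y ∧ S.sy s y + 3 * S.h ≤ S.L c := by
  obtain ⟨h1, h2, -⟩ := h
  have h3 : 3 * y * S.h + 3 * S.h ≤ S.U := by
    unfold U
    nlinarith
  have h4 : (s + 1) * S.U ≤ S.ln c * S.U := Nat.mul_le_mul_right _ h1
  unfold sy L
  rw [Nat.succ_mul] at h4
  omega

theorem seg_le' (hS : S.WF) {j : ℕ} (hj : j < S.N) : (3 * j + 3) * S.h ≤ S.len (.job j) := by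
  refine le_trans ?_ (hS.len_job hj)
  unfold U
  exact Nat.mul_le_mul_right _ (by omega)

end Sys

end Pool.Agent.MP_9694c2_lc.PS
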