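import Pool.Agent.MP_9694c2_lc.PS.CBase

/-!
The first part of the preparation.
-/

set_option autoImplicit false

namespace Pool.Agent.MP_9694c2_lc.PS

namespace CP1

variable {S : Sys}

/-- The states of this part: fuse `false` is clean below `l`, rail `X` below `q X`. -/
def K (S : Sys) (l : ℕ) (q : Reg → ℕ) (b : Prop) : Cf :=
  ⟨fun d => if d = true then 0 else l, fun d => S.L d + 1, q,
    {v | v = .lam false ∨ v = .lam true ∨ (b ∧ (v = .s false ∨ v = .pT))},
    {.om false, .p false, .p true, .sg, .pi}⟩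

theorem vR_of {X : Reg} {m : ℕ} (h : m < S.len X) : S.vR X := by
  cases X with
  | job j =>
    by_contra hj
    simp only [Sys.vR] at hj
    simp [Sys.len, hj] at h
  | _ => trivial

section mem

variable {l : ℕ} {q : Reg → ℕ} {b : Prop}

theorem mt {d : Bool} {m : ℕ} : VE.t d m ∈ (S.st (K S l q b)).1 ↔
    (if d = true then 0 else l) ≤ m ∧ m < S.L d + 1 := Iff.rfl

theorem mr {X : Reg} {m : ℕ} : VE.r X m ∈ (S.st (K S l q b)).1 ↔ q X ≤ m ∧ m < S.len X :=
  Iff.rfl

theorem mg {X : Reg} : VE.gE X ∈ (S.st (K S l q b)).1 ↔ S.vR X ∧ q X = 0 := Iff.rfl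

theorem ms {d : Bool} : VE.s d ∈ (S.st (K S l q b)).1 ↔ b ∧ d = false := by
  simp [Sys.st, Sys.dE, K]

theorem ml {d : Bool} : VE.lam d ∈ (S.st (K S l q b)).1 := by
  cases d <;> simp [Sys.st, Sys.dE, K]

theorem mp : VE.pT ∈ (S.st (K S l q b)).1 ↔ b := by
  simp [Sys.st, Sys.dE, K]

theorem mu : VE.uE ∉ (S.st (K S l q b)).1 := by
  simp [Sys.st, Sys.dE, K]

theorem mo {X : Reg} : VO.gO X ∈ (S.st (K S l q b)).2 ↔ S.vR X ∧ q X = 0 := Iff.rfl

theorem ma {a : ℕ} : VO.al a ∈ (S.st (K S l q b)).2 ↔
    a < S.N ∧ q (.job a) ≤ (3 * a + 1) * S.h := Iff.rfl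

theorem mb {d : Bool} {s y : ℕ} : VO.be d s y ∈ (S.st (K S l q b)).2 ↔
    S.busy d s y ∧ (if d = true then 0 else l) ≤ S.sy s y ∧ S.sy s y + 3 * S.h ≤ S.L d + 1 :=
  Iff.rfl

theorem mm {d : Bool} : VO.om d ∈ (S.st (K S l q b)).2 ↔ d = false := by
  simp [Sys.st, Sys.dO, K]

theorem mq {d : Bool} : VO.p d ∈ (S.st (K S l q b)).2 := by
  cases d <;> simp [Sys.st, Sys.dO, K]

theorem mz : VO.sg ∈ (S.st (K S l q b)).2 := by
  simp [Sys.st, Sys.dO, K]

theorem mi : VO.pi ∈ (S.st (K S l q b)).2 := by
  simp [Sys.st, Sys.dO, K]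

end mem

theorem not_inb {j : ℕ} (h : S.inb false j) : ∀ a, Reg.job j = .job a → ¬ S.inb true a := by
  intro a e ha
  obtain rfl : j = a := by simpa using e
  have := h.2.2.symm.trans ha.2.2
  simp at this

theorem not_inb0 : ∀ a, Reg.job 0 = .job a → ¬ S.inb true a := by
  intro a e ha
  obtain rfl : 0 = a := by simpa using e
  exact absurd ha.1 (lt_irrefl 0)

/-- One round. -/
theorem round (hS : S.WF) {l l' : ℕ} {q q' : Reg → ℕ} {b : Prop} (W : List VE) (V : List VO)
    (hW : (W.map S.wE).sum ≤ 39) (hV : (V.map S.wO).sum ≤ 41)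
    (hb : b ∨ (VE.s false ∈ W ∧ VE.pT ∈ W))
    (hq : ∀ X, 0 < q' X → ∃ a, X = .job a ∧ S.inb true a)
    (hr : ∀ X, q' X = 0 ∨ (S.len X ≤ q X ∧ q' X = q X) ∨
      (q' X = q X + 1 ∧ VE.gE X ∈ W ∧ VE.r X (q X - 1) ∈ W ∧ VE.r X (q X) ∈ W ∧
        VO.gO X ∈ V ∧ ∀ a, X = .job a → VO.al a ∈ V))
    (hl1 : ∀ m < l', VE.t false m ∉ W → m + 1 < l) (hl2 : l ≤ S.L false + 1)
    (hbe : ∀ s y, S.busy false s y → S.sy s y < l' →
      (l ≤ S.sy s y ∨ l' < S.sy s y + 3 * S.h) → VO.be false s y ∈ V) :
    S.G.Rnd S.k (S.st (K S l q True)) (S.st (K S l' q' b)) := by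
  have hk := hS.k_ge
  have hh := hS.h_pos
  have k1 : ∀ X m, m < S.len X → VE.r X m ∉ VE.s true :: VE.uE :: W → q X ≤ m + 1 →
      (q X ≤ m ∨ m + 1 < S.len X) → VE.r X m ∈ (S.st (K S l' q' b)).1 := by
    intro X m h1 h2 h3 h4
    refine mr.2 ⟨?_, h1⟩
    rcases hr X with h | h | ⟨h, -, h5, h6, -⟩
    · omega
    · omega
    · have e1 : m ≠ q X - 1 := by rintro rfl; simp [h5] at h2
      have e2 : m ≠ q X := by rintro rfl; simp [h6] at h2
      omega
  have k2 : ∀ X m, m < S.len X → (∀ a, X = .job a → ¬ S.inb true a) →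
      VE.r X m ∈ (S.st (K S l' q' b)).1 := by
    intro X m h1 h2
    refine mr.2 ⟨?_, h1⟩
    by_contra hc
    obtain ⟨a, e, ha⟩ := hq X (by omega)
    exact h2 a e ha
  have kT : ∀ d m, m ≤ S.L d → VE.t d m ∉ VE.s true :: VE.uE :: W → (d = false → l ≤ m + 1) →
      VE.t d m ∈ (S.st (K S l' q' b)).1 := by
    intro d m h1 h2 h3
    refine mt.2 ⟨?_, by omega⟩
    cases d with
    | true => simp
    | false =>
      have h4 := h3 rfl
      rw [if_neg (by simp)]
      by_contra hc
      have := hl1 m (by omega) (fun h => h2 (by simp [h]))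
      omega
  have kG : ∀ X, S.vR X → VE.gE X ∉ VE.s true :: VE.uE :: W → (q X = 0 ∨ q X < S.len X) →
      VE.gE X ∈ (S.st (K S l' q' b)).1 := by
    intro X h1 h2 h3
    refine mg.2 ⟨h1, ?_⟩
    rcases hr X with h | h | ⟨-, h, -⟩
    · exact h
    · omega
    · simp [h] at h2
  have kS : ∀ d, VE.s d ∉ VE.s true :: VE.uE :: W → VE.s d ∈ (S.st (K S l' q' b)).1 := by
    intro d h
    cases d with
    | true => simp at h
    | false => exact ms.2 ⟨hb.resolve_right fun h1 => h (by simp [h1.1]), rfl⟩
  have kP : VE.pT ∉ VE.s true :: VE.uE :: W → VE.pT ∈ (S.st (K S l' q' b)).1 :=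
    fun h => mp.2 (hb.resolve_right fun h1 => h (by simp [h1.2]))
  have kO : ∀ X, S.vR X → VO.gO X ∉ VO.om true :: VO.uO :: V → (q X = 0 ∨ q' X < S.len X) →
      VO.gO X ∈ (S.st (K S l' q' b)).2 := by
    intro X h1 h2 h3
    refine mo.2 ⟨h1, ?_⟩
    rcases hr X with h | h | ⟨-, -, -, -, h, -⟩
    · exact h
    · omega
    · simp [h] at h2
  have kA : ∀ a, a < S.N → VO.al a ∉ VO.om true :: VO.uO :: V →
      (q (.job a) ≤ (3 * a + 1) * S.h ∨ q' (.job a) < (3 * a + 2) * S.h) →
      VO.al a ∈ (S.st (K S l' q' b)).2 := by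
    intro a h1 h2 h3
    refine ma.2 ⟨h1, ?_⟩
    have h4 := Sys.seg_le' hS h1
    have h5 : (3 * a + 3) * S.h = (3 * a + 1) * S.h + 2 * S.h := by ring
    have h6 : (3 * a + 2) * S.h = (3 * a + 1) * S.h + S.h := by ring
    rcases hr (.job a) with h | h | ⟨-, -, -, -, -, h⟩
    · omega
    · omega
    · simp [h a rfl] at h2
  have kB : ∀ d s y, S.busy d s y → VO.be d s y ∉ VO.om true :: VO.uO :: V →
      (d = false → l ≤ S.sy s y ∨ l' < S.sy s y + 3 * S.h) →
      VO.be d s y ∈ (S.st (K S l' q' b)).2 := by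
    intro d s y h1 h2 h3
    have h4 := Sys.busy_le' h1
    refine mb.2 ⟨h1, ?_, by omega⟩
    cases d with
    | true => simp
    | false =>
      rw [if_neg (by simp)]
      by_contra hc
      exact h2 (by simp [hbe s y h1 (by omega) (h3 rfl)])
  have kM : ∀ d, VO.om d ∉ VO.om true :: VO.uO :: V → VO.om d ∈ (S.st (K S l' q' b)).2 := by
    intro d h
    cases d with
    | true => simp at h
    | false => exact mm.2 rfl
  refine TG.rnd_of_lists (.s true :: .uE :: W) (.om true :: .uO :: V)
    ?_ ?_ ?_ ?_ ?_ ?_ ?_ ?_ ?_ ?_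
  · simp only [Sys.G, List.map_cons, List.sum_cons]
    generalize (W.map S.wE).sum = w at hW
    simp only [Sys.wE]
    omega
  · simp only [Sys.G, List.map_cons, List.sum_cons]
    generalize (V.map S.wO).sum = w at hV
    simp only [Sys.wO]
    omega
  · intro v hv h
    cases v with
    | s d => exact kS d hv
    | lam d => exact ml
    | pT => exact kP hv
    | uE => simp at hv
    | t d m =>
      rw [mt] at h
      refine kT d m (by omega) hv ?_
      rintro rfl
      simp only [Bool.false_eq_true, if_false] at h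
      omega
    | r X m => exact k1 X m h.2 hv (h.1.trans (by omega)) (Or.inl h.1)
    | gE X => exact kG X h.1 hv (Or.inl h.2)
  · intro u v he hv h
    cases he with
    | tt d m hm =>
      rw [mt] at h
      refine kT d _ hm hv ?_
      rintro rfl
      simp only [Bool.false_eq_true, if_false] at h
      omega
    | rr X m hm =>
      rw [mr] at h
      exact k1 X _ hm hv (by omega) (by omega)
    | ap a X m ha hm =>
      cases ha with
      | g =>
        rw [mg] at h
        exact k1 X _ hm hv (by omega) (by omega)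
      | sj d j hj =>
        obtain rfl := (ms.1 h).2
        exact k2 _ _ hm (not_inb hj)
      | _ => exact k2 _ _ hm (by simp)
    | st c d m e hm =>
      obtain rfl := (ms.1 h).2
      exact kT d m hm hv (by simp [e])
    | sl c m e => exact kT c m e.le hv (by rintro rfl; omega)
    | pl c m e => exact kT c m e.le hv (by rintro rfl; omega)
  · intro u v he hv h
    cases he with
    | tt d m hm =>
      rw [mt] at h
      refine kT d _ (by omega) hv ?_
      rintro rfl
      simp only [Bool.false_eq_true, if_false] at h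
      omega
    | rr X m hm =>
      rw [mr] at h
      exact k1 X _ (by omega) hv (by omega) (by omega)
    | ap a X m ha hm =>
      rw [mr] at h
      cases ha with
      | g => exact kG X (vR_of hm) hv (by omega)
      | pP => exact kP hv
      | sj d => exact kS d hv
      | sl d => exact kS d hv
      | sP d => exact kS d hv
      | ll d => exact ml
      | lO d => exact ml
      | uP => simp at hv
      | uO => simp at hv
    | st d => exact kS d hv
    | sl d => exact kS d hv
    | pl => exact kP hv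
  · intro u v he hv h
    cases he with
    | ap z X m hz hm =>
      cases hz with
      | g =>
        rw [mo] at h
        exact k1 X _ hm hv (by omega) (by omega)
      | oj d j hj =>
        obtain rfl := mm.1 h
        exact k2 _ _ hm (not_inb hj)
      | g0 => exact k2 _ _ hm not_inb0
      | i0 => exact k2 _ _ hm not_inb0
      | gj j hj => exact k2 _ _ hm (not_inb hj)
      | _ => exact k2 _ _ hm (by simp)
    | al a m ha h1 h2 =>
      rw [ma] at h
      have h4 := Sys.seg_le' hS ha
      have h5 : (3 * a + 3) * S.h = (3 * a + 2) * S.h + S.h := by ring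
      exact k1 _ _ (by omega) hv (by omega) (by omega)
    | om c d e =>
      obtain rfl := mm.1 h
      exact kT c 0 (by omega) hv (by rintro rfl; simp at e)
    | be d s y m hz h1 h2 =>
      rw [mb] at h
      refine kT d m (by omega) hv ?_
      rintro rfl
      simp only [Bool.false_eq_true, if_false] at h
      omega
  · intro v hv h
    cases v with
    | gO X => exact kO X h.1 hv (Or.inl h.2)
    | al a => exact kA a h.1 hv (Or.inl h.2)
    | be d s y =>
      rw [mb] at h
      refine kB d s y h.1 hv ?_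
      rintro rfl
      exact Or.inl h.2.1
    | _ => exact h
  · intro u v he hv h
    cases he
    exact mq
  · intro u v he hv h
    cases he
    exact kM _ hv
  · intro u v he hv h
    cases he with
    | ap z X m hz hm =>
      rw [mr] at h
      cases hz with
      | g => exact kO X (vR_of hm) hv (by omega)
      | oj d => exact kM d hv
      | oO d => exact kM d hv
      | g0 => exact mz
      | gj => exact mz
      | gl => exact mz
      | gO => exact mz
      | i0 => exact mi
      | iP => exact mi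
      | pl => exact mq
      | pP => exact mq
      | uP => simp at hv
      | uO => simp at hv
    | al a m ha h1 h2 =>
      rw [mr] at h
      exact kA a ha hv (by omega)
    | om c d => exact kM d hv
    | be d s y m hz h1 h2 =>
      rw [mt] at h
      refine kB d s y hz hv ?_
      rintro rfl
      simp only [Bool.false_eq_true, if_false] at h
      omega

theorem apE_v {a : VE} {X : Reg} {m : ℕ} (h : S.apE a X) (hm : m < S.len X) : S.vE a := by
  cases h with
  | g => exact vR_of hm
  | _ => trivial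

theorem apO_v {a : VO} {X : Reg} {m : ℕ} (h : S.apO a X) (hm : m < S.len X) : S.vO a := by
  cases h with
  | g => exact vR_of hm
  | _ => trivial

theorem ee_v {u v : VE} (h : S.ee u v) : S.vE u ∧ S.vE v := by
  cases h with
  | tt d m hm => exact ⟨Nat.le_of_succ_le hm, hm⟩
  | rr X m hm => exact ⟨Nat.lt_of_succ_lt hm, hm⟩
  | ap a X m ha hm => exact ⟨apE_v ha hm, hm⟩
  | st c d m e hm => exact ⟨trivial, hm⟩
  | sl c m e => exact ⟨trivial, e.le⟩
  | pl c m e => exact ⟨trivial, e.le⟩

theorem eo_v (hS : S.WF) {u : VE} {v : VO} (h : S.eo u v) : S.vE u ∧ S.vO v := by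
  cases h with
  | ap a X m ha hm => exact ⟨hm, apO_v ha hm⟩
  | al a m ha h1 h2 =>
    have h4 := Sys.seg_le' hS ha
    have h5 : (3 * a + 3) * S.h = (3 * a + 2) * S.h + S.h := by ring
    exact ⟨show m < _ by omega, ha⟩
  | om c d e => exact ⟨Nat.zero_le _, trivial⟩
  | be d s y m hz h1 h2 =>
    have := Sys.busy_le' hz
    exact ⟨show m ≤ _ by omega, hz⟩

/-- The first round. -/
theorem first (hS : S.WF) : S.G.Rnd S.k (S.G.vE, S.G.vO) (S.st (K S 0 (fun _ => 0) True)) := by
  have hk := hS.k_ge
  have fE : ∀ v, S.vE v → v ∉ [VE.s true, VE.uE] → v ∈ (S.st (K S 0 (fun _ => 0) True)).1 := by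
    intro v h hv
    cases v with
    | s d => cases d <;> simp [ms] at hv ⊢
    | lam d => exact ml
    | pT => exact mp.2 trivial
    | uE => simp at hv
    | t d m => exact mt.2 ⟨by simp, Nat.lt_succ_of_le h⟩
    | r X m => exact mr.2 ⟨Nat.zero_le _, h⟩
    | gE X => exact mg.2 ⟨h, rfl⟩
  have fO : ∀ v, S.vO v → v ∉ [VO.om true, VO.uO] → v ∈ (S.st (K S 0 (fun _ => 0) True)).2 := by
    intro v h hv
    cases v with
    | om d => cases d <;> simp [mm] at hv ⊢
    | sg => exact mz
    | pi => exact mi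
    | p d => exact mq
    | uO => simp at hv
    | gO X => exact mo.2 ⟨h, rfl⟩
    | al a => exact ma.2 ⟨h, Nat.zero_le _⟩
    | be d s y => exact mb.2 ⟨h, by simp, (Sys.busy_le' h).2.trans (Nat.le_succ _)⟩
  refine TG.rnd_of_lists [.s true, .uE] [.om true, .uO] ?_ ?_ (fun v hv h => fE v h hv)
    (fun u v he hv _ => fE v (ee_v he).2 hv) (fun u v he hv _ => fE v (ee_v he).1 hv)
    (fun u v he hv _ => fE v (eo_v hS he).1 hv) (fun v hv h => fO v h hv)
    (fun u v he hv _ => fO v (by cases he; trivial) hv)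
    (fun u v he hv _ => fO v (by cases he; trivial) hv)
    (fun u v he hv _ => fO v (eo_v hS he).2 hv)
  · simp [Sys.G, Sys.wE]
    omega
  · simp [Sys.G, Sys.wO]
    omega

/-- The clean rails. -/
def Q (S : Sys) (D : Finset ℕ) : Reg → ℕ := S.clD D (fun _ => false) false

theorem Q_job {D : Finset ℕ} (hD : ∀ a ∈ D, S.inb true a) (X : Reg) (h : 0 < Q S D X) :
    ∃ a, X = .job a ∧ S.inb true a := by
  cases X with
  | job a =>
    refine ⟨a, rfl, hD a ?_⟩
    by_contra hc
    simp [Q, Sys.clD, hc] at h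
  | _ => simp [Q, Sys.clD] at h

theorem Q_cases (D : Finset ℕ) (X : Reg) : Q S D X = 0 ∨ S.len X ≤ Q S D X := by
  cases X with
  | job a => by_cases h : a ∈ D <;> simp [Q, Sys.clD, h]
  | _ => simp [Q, Sys.clD]

theorem jobs (hS : S.WF) (D : Finset ℕ) (hD : ∀ a ∈ D, S.inb true a) :
    S.G.Reach S.k (S.st (K S 0 (fun _ => 0) True)) (S.st (K S 0 (Q S D) True)) := by
  induction D using Finset.induction_on with
  | empty =>
    have : Q S ∅ = fun _ => 0 := by
      funext X
      cases X <;> simp [Q, Sys.clD]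
    rw [this]
    exact TG.Reach.refl _
  | insert j D hj ih =>
    have hD' : ∀ a ∈ D, S.inb true a := fun a ha => hD a (Finset.mem_insert_of_mem ha)
    refine (ih hD').trans ?_
    have e1 : Q S D = fun X => if X = .job j then 0 else Q S D X := by
      funext X
      split_ifs with h
      · simp [h, Q, Sys.clD, hj]
      · rfl
    have e2 : Q S (insert j D) = fun X => if X = .job j then S.len (.job j) else Q S D X := by
      funext X
      split_ifs with h
      · simp [h, Q, Sys.clD]
      · cases X with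
        | job a =>
          have : a ≠ j := fun e => h (by rw [e])
          simp [Q, Sys.clD, this]
        | _ => rfl
    rw [e2]
    nth_rewrite 1 [e1]
    refine TG.reach_iter (fun i => S.st (K S 0 (fun X => if X = .job j then i else Q S D X) True))
      _ fun i _ => round hS [.gE (.job j), .r (.job j) (i - 1), .r (.job j) i]
        [.gO (.job j), .al j] (by simp [Sys.wE]) (by simp [Sys.wO]) (Or.inl trivial)
        (fun X h => ?_) (fun X => ?_) (by omega) (by omega) (by omega)
    · by_cases e : X = .job j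
      · exact ⟨j, e, hD j (Finset.mem_insert_self _ _)⟩
      · rw [if_neg e] at h
        exact Q_job hD' X h
    · by_cases e : X = .job j
      · subst e
        simp
      · simp only [if_neg e]
        rcases Q_cases (S := S) D X with h | h
        · exact Or.inl h
        · exact Or.inr (Or.inl ⟨h, trivial⟩)

theorem keep (D : Finset ℕ) (X : Reg) (P : Prop) :
    Q S D X = 0 ∨ (S.len X ≤ Q S D X ∧ Q S D X = Q S D X) ∨ P := by
  rcases Q_cases (S := S) D X with h | h
  · exact Or.inl h
  · exact Or.inr (Or.inl ⟨h, rfl⟩)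

theorem fuse (hS : S.WF) (D : Finset ℕ) (hD : ∀ a ∈ D, S.inb true a) :
    S.G.Reach S.k (S.st (K S 0 (Q S D) True)) (S.st (K S (S.L false + 1) (Q S D) True)) := by
  have hh := hS.h_pos
  refine TG.reach_iter (fun i => S.st (K S i (Q S D) True)) _ fun i hi => ?_
  obtain ⟨s0, y0, h0⟩ : ∃ s0 y0, ∀ s y, S.busy false s y → S.sy s y ≤ i →
      i < S.sy s y + 3 * S.h → s = s0 ∧ y = y0 := by
    by_cases h : S.r ≤ i
    · obtain ⟨s0, y0, h0, h1, h2⟩ := Sys.exists_sym hS h
      exact ⟨s0, y0, fun s y hb h3 h4 => Sys.sym_unique hb.2.1 h0 h3 h4 h1 h2⟩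
    · refine ⟨0, 0, fun s y hb h3 _ => ?_⟩
      have := Sys.busy_le' hb
      omega
  refine round hS [.t false (i - 1), .t false i] [.be false s0 y0] (by simp [Sys.wE])
    (by simp [Sys.wO]) (Or.inl trivial) (Q_job hD) (fun X => keep D X _) (fun m h1 h2 => ?_)
    (by omega) fun s y hb h1 h2 => ?_
  · simp only [List.mem_cons, VE.t.injEq, true_and, List.not_mem_nil, or_false] at h2
    omega
  · obtain ⟨rfl, rfl⟩ := h0 s y hb (by omega) (by omega)
    simp

theorem last (hS : S.WF) (D : Finset ℕ) (hD : ∀ a ∈ D, S.inb true a) :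
    S.G.Rnd S.k (S.st (K S (S.L false + 1) (Q S D) True))
      (S.st (K S (S.L false + 1) (Q S D) False)) := by
  refine round hS [.t false (S.L false), .s false, .pT] [] (by simp [Sys.wE])
    (by simp) (Or.inr (by simp)) (Q_job hD) (fun X => keep D X _) (fun m h1 h2 => ?_)
    le_rfl fun s y hb h1 h2 => ?_
  · have : m ≠ S.L false := by rintro rfl; simp at h2
    omega
  · have := Sys.busy_le' hb
    omega

theorem fin (hS : S.WF) (D : Finset ℕ) :
    S.st (K S (S.L false + 1) (Q S D) False) = S.st (S.Pr D) := by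
  have hh := hS.h_pos
  refine Prod.ext (Set.ext fun v => ?_) (Set.ext fun v => ?_)
  · cases v with
    | t d m => cases d <;> simp [Sys.st, Sys.dE, K, Sys.Pr]
    | r X m => exact Iff.rfl
    | gE X => exact Iff.rfl
    | _ => simp [Sys.st, Sys.dE, K, Sys.Pr]
  · cases v with
    | be d s y =>
      cases d <;> simp [Sys.st, Sys.dO, K, Sys.Pr]
      omega
    | _ => exact Iff.rfl

end CP1

theorem cPrep1 : CPrep1 := by
  intro S hS
  have hD : ∀ a ∈ S.bank true, S.inb true a := fun a ha => (Finset.mem_filter.1 ha).2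
  rw [← CP1.fin hS]
  exact (CP1.first hS).reach.trans ((CP1.jobs hS _ hD).trans
    ((CP1.fuse hS _ hD).trans (CP1.last hS _ hD).reach))

end Pool.Agent.MP_9694c2_lc.PS
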