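import Pool.Agent.MP_9694c2_lc.PS.Base

/-!
Forced shots in a good stretch, and the front of a fuse.
-/

set_option autoImplicit false

namespace Pool.Agent.MP_9694c2_lc.PS

namespace Sys

open Finset

variable {S : Sys}

open Classical in
variable (S) in
/-- The largest dirty index of fuse `c`. -/
noncomputable def F (A : Set VE) (c : Bool) : ℕ :=
  Nat.findGreatest (fun i => VE.t c i ∈ A) (S.L c)

theorem F_le (A : Set VE) (c : Bool) : S.F A c ≤ S.L c := by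
  classical
  exact Nat.findGreatest_le _

theorem le_F {A : Set VE} {c : Bool} {i : ℕ} (hi : i ≤ S.L c) (h : VE.t c i ∈ A) :
    i ≤ S.F A c := by
  classical
  exact Nat.le_findGreatest hi h

theorem F_mem {A : Set VE} {c : Bool} (h : 0 < S.F A c) : VE.t c (S.F A c) ∈ A := by
  classical
  exact Nat.findGreatest_of_ne_zero (P := fun i => VE.t c i ∈ A) rfl h.ne'

/-- Jobs and latches. -/
def work : Reg → Prop
  | .job _ => True
  | .lat _ => True
  | _ => False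

theorem work.wg {X : Reg} (h : work X) : S.wE (.gE X) = 22 := by
  cases X <;> first | rfl | exact h.elim

theorem work.wr {X : Reg} (h : work X) (i : ℕ) : S.wE (.r X i) = 6 := by
  cases X <;> first | rfl | exact h.elim

variable {Q : S.G.Play S.k}

/-- Two shots on fuse `c`. -/
def Push (Q : S.G.Play S.k) (c : Bool) (j : ℕ) : Prop :=
  ∃ i i', i ≠ i' ∧ VE.t c i ∈ Q.X j ∧ VE.t c i' ∈ Q.X j

theorem F_free {c : Bool} {j : ℕ} (h : ∀ i, VE.t c i ∉ Q.X j) (h0 : 0 < S.F (Q.A j) c) :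
    min (S.F (Q.A j) c + 1) (S.L c) ≤ S.F (Q.A (j + 1)) c := by
  have h1 := F_le (S := S) (Q.A j) c
  rcases h1.eq_or_lt with h2 | h2
  · exact (min_le_right _ _).trans (h2 ▸ le_F h1 (Q.a0 j _ (h _) (F_mem h0)))
  · exact (min_le_left _ _).trans (le_F h2 (Q.a1 j _ _ (h _) (F_mem h0) (ee.tt c _ h2)))

theorem F_nopush {c : Bool} {j : ℕ} (h : ¬ Push Q c j) (h0 : 0 < S.F (Q.A j) c) :
    min (S.F (Q.A j) c) (S.L c - 1) ≤ S.F (Q.A (j + 1)) c := by
  have h1 := F_le (S := S) (Q.A j) c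
  by_cases h3 : VE.t c (S.F (Q.A j) c) ∈ Q.X j
  · rcases h1.eq_or_lt with h2 | h2
    · obtain ⟨i, hi⟩ : ∃ i, S.F (Q.A j) c = i + 1 := ⟨_, (Nat.sub_add_cancel h0).symm⟩
      have h4 : VE.t c i ∉ Q.X j := fun h4 => h ⟨_, _, by omega, h3, h4⟩
      have := le_F (S := S) (c := c) (i := i) (by omega)
        (Q.a2 j _ _ h4 (hi ▸ F_mem h0) (ee.tt c i (by omega)))
      omega
    · have h4 : VE.t c (S.F (Q.A j) c + 1) ∉ Q.X j := fun h4 => h ⟨_, _, by omega, h3, h4⟩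
      have := le_F h2 (Q.a1 j _ _ h4 (F_mem h0) (ee.tt c _ h2))
      omega
  · exact (min_le_left _ _).trans (le_F h1 (Q.a0 j _ h3 (F_mem h0)))

/-- A rail is cleaned between the times `u` and `v`. -/
structure Sweep (Q : S.G.Play S.k) (X : Reg) (u v : ℕ) : Prop where
  lt : u < v
  nd : S.cc (Q.A u) X ≤ S.k
  nn : ∀ j, u < j → j ≤ v → S.k < S.cc (Q.A j) X
  dt : ∀ j, u ≤ j → j < v → S.dirt (Q.A j) X
  cl : ¬ S.dirt (Q.A v) X

theorem exists_sweep {X : Reg} {m w : ℕ} (hl : S.k < S.len X) (hmw : m ≤ w)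
    (hm : S.cc (Q.A m) X ≤ S.k) (hw : ¬ S.dirt (Q.A w) X) :
    ∃ u v, m ≤ u ∧ v ≤ w ∧ Sweep Q X u v ∧ ∀ j, m ≤ j → j < v → S.dirt (Q.A j) X := by
  classical
  have hex : ∃ v, m ≤ v ∧ ¬ S.dirt (Q.A v) X := ⟨w, hmw, hw⟩
  have h1 := Nat.find_spec hex
  have h2 : ∀ j, m ≤ j → j < Nat.find hex → S.dirt (Q.A j) X := fun j hj hj' => by
    by_contra hc
    exact Nat.find_min hex hj' ⟨hj, hc⟩
  have h3 : m ≤ Nat.findGreatest (fun j => S.cc (Q.A j) X ≤ S.k) (Nat.find hex) :=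
    Nat.le_findGreatest h1.1 hm
  have h4 := Nat.findGreatest_spec (P := fun j => S.cc (Q.A j) X ≤ S.k) h1.1 hm
  have h5 := Nat.findGreatest_le (P := fun j => S.cc (Q.A j) X ≤ S.k) (Nat.find hex)
  refine ⟨_, _, h3, Nat.find_min' hex ⟨hmw, hw⟩, ⟨lt_of_le_of_ne h5 fun h6 => ?_, h4,
    fun j hj hj' => not_le.1 (Nat.findGreatest_is_greatest (P := fun j => S.cc (Q.A j) X ≤ S.k) hj hj'),
    fun j hj hj' => h2 j (h3.trans hj) hj', h1.2⟩, h2⟩
  rw [h6, cc_of_not_dirt h1.2] at h4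
  omega

theorem Sweep.long {X : Reg} {u v n : ℕ} (h : Sweep Q X u v) (hn : (n + 1) * S.k < S.len X) :
    u + n < v := by
  by_contra hc
  have h1 := cc_steps Q u (v - u) X
  rw [Nat.add_sub_cancel' h.lt.le, cc_of_not_dirt h.cl] at h1
  have h2 := h.nd
  have h3 : (v - u) * S.k ≤ n * S.k := Nat.mul_le_mul_right _ (by omega)
  rw [Nat.succ_mul] at hn
  omega

theorem Sweep.first {X : Reg} {u v : ℕ} (h : Sweep Q X u v) : S.cc (Q.A (u + 1)) X ≤ 2 * S.k := by
  have := cc_step Q u X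
  have := h.nd
  omega

theorem Sweep.last {X : Reg} {u w : ℕ} (h : Sweep Q X u (w + 2)) :
    S.len X ≤ S.cc (Q.A w) X + 2 * S.k := by
  have := cc_steps Q w 2 X
  rwa [cc_of_not_dirt h.cl] at this

namespace Good

variable {a f : ℕ} (hG : S.Good Q a f)
include hG

theorem notA {x : VE} {j : ℕ} (h : S.apE x .P) (h1 : a ≤ j + 1) (h2 : j ≤ f + 1) : x ∉ Q.A j :=
  fun hx => absurd (nd_of_apE h hx) (not_le.2 (hG.hP _ h1 (by omega)))

theorem notB {y : VO} {j : ℕ} (h : S.apO y .P) (h1 : a ≤ j + 1) (h2 : j ≤ f + 1) : y ∉ Q.B j :=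
  fun hy => absurd (nd_of_apO h hy) (not_le.2 (hG.hP _ h1 (by omega)))

theorem apE_shot {x : VE} {X : Reg} {j : ℕ} (h : S.apE x .P) (h' : S.apE x X)
    (hd : S.dirt (Q.A j) X) (h1 : a ≤ j) (h2 : j ≤ f) : x ∈ Q.X j := by
  by_contra hc
  exact hG.notA h (by omega) (by omega) (apE_dirty h' hd hc)

theorem apO_shot {y : VO} {X : Reg} {j : ℕ} (h : S.apO y .P) (h' : S.apO y X)
    (hd : S.dirt (Q.A (j + 1)) X) (h1 : a ≤ j) (h2 : j ≤ f) : y ∈ Q.Y j := by
  by_contra hc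
  exact hG.notB h (by omega) (by omega) (apO_dirty h' hd hc)

theorem ee_shot {x v : VE} {j : ℕ} (h : S.apE x .P) (h' : S.ee x v) (hv : v ∈ Q.A j)
    (h1 : a ≤ j) (h2 : j ≤ f) : x ∈ Q.X j := by
  by_contra hc
  exact hG.notA h (by omega) (by omega) (Q.a2 j v x hc hv h')

theorem bE (hS : S.WF) {j : ℕ} (h1 : a ≤ j) (h2 : j ≤ f) (l : List VE) (hn : (VE.uE :: l).Nodup)
    (hm : ∀ v ∈ l, v ∈ Q.X j) : (l.map S.wE).sum ≤ 42 := by
  have h3 := budE Q j (.uE :: l) hn (by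
    intro v hv
    rcases List.mem_cons.1 hv with rfl | hv
    · exact hG.apE_shot .uP .uO (hG.hO j h1 (by omega)) h1 h2
    · exact hm v hv)
  have := hS.k_ge
  simp only [List.map_cons, List.sum_cons, wE] at h3
  omega

theorem bO (hS : S.WF) {j : ℕ} (h1 : a ≤ j) (h2 : j ≤ f) (l : List VO) (hn : (VO.uO :: l).Nodup)
    (hm : ∀ v ∈ l, v ∈ Q.Y j) : (l.map S.wO).sum ≤ 42 := by
  have h3 := budO Q j (.uO :: l) hn (by
    intro v hv
    rcases List.mem_cons.1 hv with rfl | hv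
    · exact hG.apO_shot .uP .uO (hG.hO (j + 1) (by omega) (by omega)) h1 h2
    · exact hm v hv)
  have := hS.k_ge
  simp only [List.map_cons, List.sum_cons, wO] at h3
  omega

theorem s_lit {c : Bool} {j : ℕ} (h0 : 0 < S.F (Q.A j) c) (h1 : a ≤ j) (h2 : j ≤ f) :
    VE.s (!c) ∈ Q.X j :=
  hG.ee_shot (.sP _) (.st _ c _ (by simp) (F_le _ _)) (F_mem h0) h1 h2

theorem s_lat {c : Bool} {j : ℕ} (hd : S.dirt (Q.A j) (.lat c)) (h1 : a ≤ j) (h2 : j ≤ f) :
    VE.s (!c) ∈ Q.X j :=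
  hG.apE_shot (.sP _) (.sl _ c (by simp)) hd h1 h2

theorem p_lat {c : Bool} {j : ℕ} (hd : S.dirt (Q.A (j + 1)) (.lat c)) (h1 : a ≤ j) (h2 : j ≤ f) :
    VO.p c ∈ Q.Y j :=
  hG.apO_shot (.pP c) (.pl c) hd h1 h2

theorem noT (hS : S.WF) {X : Reg} {d : Bool} {j : ℕ} (hX : work X) (h1 : a ≤ j) (h2 : j ≤ f)
    (hg : VE.gE X ∈ Q.X j) (hs : VE.s d ∈ Q.X j) (c : Bool) (i : ℕ) : VE.t c i ∉ Q.X j := by
  intro h
  have := hG.bE hS h1 h2 [.gE X, .s d, .t c i] (by simp) (by simp [hg, hs, h])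
  simp only [List.map_cons, List.sum_cons, hX.wg] at this
  simp [wE] at this

theorem sh_two (hS : S.WF) {X : Reg} {d : Bool} {j : ℕ} (hX : work X) (h1 : a ≤ j) (h2 : j ≤ f)
    (hg : VE.gE X ∈ Q.X j) (hs : VE.s d ∈ Q.X j) : S.sh (Q.X j) X ≤ 2 := by
  by_contra hc
  obtain ⟨x, hx, y, hy, z, hz, h3, h4, h5⟩ := two_lt_card.1 (not_le.1 hc)
  have := hG.bE hS h1 h2 [.gE X, .s d, .r X x, .r X y, .r X z] (by simp [h3, h4, h5])
    (by simp [hg, hs, (mem_filter.1 hx).2, (mem_filter.1 hy).2, (mem_filter.1 hz).2])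
  simp only [List.map_cons, List.sum_cons, hX.wg, hX.wr] at this
  simp [wE] at this

theorem no_two (hS : S.WF) {X Y : Reg} {j : ℕ} (hX : work X) (hY : work Y) (hXY : X ≠ Y)
    (h1 : a ≤ j) (h2 : j ≤ f) (hg : VE.gE X ∈ Q.X j) (hg' : VE.gE Y ∈ Q.X j) : False := by
  have := hG.bE hS h1 h2 [.gE X, .gE Y] (by simp [hXY]) (by simp [hg, hg'])
  simp [hX.wg, hY.wg] at this

theorem blocked (hS : S.WF) {c : Bool} {i j : ℕ} (h1 : a ≤ j) (h2 : j ≤ f)
    (hl : S.dirt (Q.A (j + 1)) (.lat c)) (hd : S.dirt (Q.A (j + 1)) (.job i)) :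
    S.cc (Q.A (j + 2)) (.job i) ≤ S.k := by
  by_contra hc
  have := hG.bO hS h1 h2 [.p c, .gO (.job i)] (by simp)
    (by simp [hG.p_lat hl h1 h2, forcedO (.g _) hd (not_le.1 hc)])
  simp [wO] at this

theorem pp (hS : S.WF) {c : Bool} {j : ℕ} (h1 : a ≤ j) (h2 : j ≤ f)
    (hl : S.dirt (Q.A (j + 1)) (.lat c)) (hp : VO.p (!c) ∈ Q.Y j) :
    S.cc (Q.A (j + 2)) (.lat c) ≤ S.k := by
  by_contra hc
  have := hG.bO hS h1 h2 [.p c, .p (!c), .gO (.lat c)] (by simp)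
    (by simp [hG.p_lat hl h1 h2, hp, forcedO (.g _) hl (not_le.1 hc)])
  simp [wO] at this

theorem lam_nd {d : Bool} {j : ℕ} (h1 : a ≤ j) (h2 : j ≤ f + 2) (h : VE.lam d ∉ Q.X j) :
    S.cc (Q.A (j + 2)) (.lat d) ≤ S.k :=
  nd_of_apE (.ll d) (apE_dirty (.lO d) (hG.hO j h1 h2) h)

omit hG in
theorem k_lt_lat (hS : S.WF) (d : Bool) : 10 * S.k < S.len (.lat d) := by
  have := hS.dl_ge
  have := hS.h_ge
  have := hS.U_ge
  have := r_ge (S := S)
  have := hS.k_ge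
  simp only [len]
  omega

omit hG in
theorem k_lt_job (hS : S.WF) {j : ℕ} (hj : j < S.N) : 10 * S.k < S.len (.job j) := by
  have := hS.dl_ge
  have := hS.h_ge
  have := hS.U_ge
  have := hS.len_job hj
  have := hS.k_ge
  omega

theorem lam_deep (hS : S.WF) {X : Reg} {j : ℕ} (hX : work X) (h1 : a ≤ j) (h2 : j + 1 ≤ f)
    (hd : S.dirt (Q.A (j + 2)) X) (hn : S.k < S.cc (Q.A (j + 2)) X)
    (hn' : S.k < S.cc (Q.A (j + 3)) X) (d : Bool) : VE.lam d ∈ Q.X j := by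
  by_contra hc
  have h3 := hG.lam_nd h1 (by omega) hc
  have h4 : S.dirt (Q.A (j + 2)) (.lat d) := dirt_of_cc (by have := k_lt_lat hS d; omega)
  cases X with
  | job i => exact absurd (hG.blocked hS (j := j + 1) (by omega) h2 h4 hd) (not_le.2 hn')
  | lat c =>
    by_cases hdc : d = c
    · subst hdc
      omega
    · obtain rfl : d = !c := by cases c <;> cases d <;> simp_all
      exact absurd (hG.pp hS (j := j + 1) (by omega) h2 hd
        (hG.p_lat (j := j + 1) h4 (by omega) h2)) (not_le.2 hn')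
  | P => exact hX
  | Om => exact hX

theorem F_push (hS : S.WF) {c : Bool} {j : ℕ} (h0 : 0 < S.F (Q.A j) c) (h1 : a ≤ j) (h2 : j ≤ f) :
    S.F (Q.A j) c ≤ S.F (Q.A (j + 1)) c + 1 := by
  by_cases hp : Push Q c j
  · have h3 := F_le (S := S) (Q.A j) c
    have hs := hG.s_lit h0 h1 h2
    rcases h3.eq_or_lt with h4 | h4
    · obtain ⟨x, y, h5, h6, h7⟩ := hp
      have h8 : VE.s c ∈ Q.X j := hG.ee_shot (.sP c) (.sl c _ h4) (F_mem h0) h1 h2
      have := hG.bE hS h1 h2 [.s c, .s (!c), .t c x, .t c y] (by simp [h5])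
        (by simp [hs, h6, h7, h8])
      simp [wE] at this
    · obtain ⟨i, hi⟩ : ∃ i, S.F (Q.A j) c = i + 1 := ⟨_, (Nat.sub_add_cancel h0).symm⟩
      have hm := F_mem h0
      rw [hi] at hm h4 ⊢
      by_cases h5 : VE.t c i ∈ Q.X j
      · by_cases h6 : VE.t c (i + 1) ∈ Q.X j
        · by_cases h7 : VE.t c (i + 1 + 1) ∈ Q.X j
          · have := hG.bE hS h1 h2 [.t c i, .t c (i + 1), .t c (i + 1 + 1)]
              (by simp; omega) (by simp [h5, h6, h7])
            simp [wE] at this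
          · have := le_F h4 (Q.a1 j _ _ h7 hm (ee.tt c _ h4))
            omega
        · have := le_F h4.le (Q.a0 j _ h6 hm)
          omega
      · have := le_F (S := S) (c := c) (i := i) (by omega)
          (Q.a2 j _ _ h5 hm (ee.tt c i h4.le))
        omega
  · have := F_nopush hp h0
    have := F_le (S := S) (Q.A j) c
    omega

/-- A round well inside a sweep while fuse `c` is lit. -/
theorem deep (hS : S.WF) {X : Reg} {c : Bool} {u v j : ℕ} (hX : work X) (h : Sweep Q X u v)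
    (ha : a ≤ u) (hv : v ≤ f + 2) (h1 : u < j) (h2 : j + 3 ≤ v) (h0 : 0 < S.F (Q.A j) c) :
    (∀ d i, VE.t d i ∉ Q.X j) ∧ S.cc (Q.A (j + 1)) X + S.bd (Q.A j) X ≤ S.cc (Q.A j) X + 2 ∧
      S.cc (Q.A (j + 1)) X + S.F (Q.A j) c ≤ S.cc (Q.A j) X + S.F (Q.A (j + 1)) c ∧
      S.F (Q.A j) c ≤ S.F (Q.A (j + 1)) c := by
  have hd := h.dt j h1.le (by omega)
  have hg : VE.gE X ∈ Q.X j := forcedE (.g X) hd (h.nn _ (by omega) (by omega))
  have hs := hG.s_lit h0 (j := j) (by omega) (by omega)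
  have h3 := hG.noT hS hX (j := j) (by omega) (by omega) hg hs
  have h4 := hG.sh_two hS hX (j := j) (by omega) (by omega) hg hs
  have h5 := cc_bd Q j X
  have h6 := bd_pos (lt_of_le_of_lt (Nat.zero_le _) (h.nn j h1 (by omega))) hd
  have h7 := F_free (h3 c) h0
  have h8 := F_le (S := S) (Q.A j) c
  refine ⟨h3, by omega, ?_, by omega⟩
  rcases h8.eq_or_lt with h9 | h9
  · have h10 : S.sh (Q.X j) X ≤ 1 := by
      by_contra hc
      obtain ⟨x, hx, y, hy, h11⟩ := one_lt_card.1 (not_le.1 hc)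
      have hl := hG.lam_deep hS hX (j := j) (by omega) (by omega) (h.dt _ (by omega) (by omega))
        (h.nn _ (by omega) (by omega)) (h.nn _ (by omega) (by omega))
      have := hG.bE hS (j := j) (by omega) (by omega)
        [.gE X, .s (!c), .s c, .pT, .lam false, .lam true, .r X x, .r X y] (by simp [h11])
        (by simp [hg, hs, hl, (mem_filter.1 hx).2, (mem_filter.1 hy).2,
          hG.ee_shot (.sP c) (.sl c _ h9) (F_mem h0) (j := j) (by omega) (by omega),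
          hG.ee_shot .pP (.pl c _ h9) (F_mem h0) (j := j) (by omega) (by omega)])
      simp only [List.map_cons, List.sum_cons, hX.wg, hX.wr] at this
      simp [wE] at this
    omega
  · omega

theorem gain (hS : S.WF) {X : Reg} {c : Bool} {u v : ℕ} (hX : work X) (h : Sweep Q X u v)
    (ha : a ≤ u) (hv : v ≤ f + 2) {x y : ℕ} (h1 : u < x) (hxy : x ≤ y) (h2 : y + 2 ≤ v)
    (h0 : 0 < S.F (Q.A x) c) :
    S.cc (Q.A y) X + S.F (Q.A x) c ≤ S.cc (Q.A x) X + S.F (Q.A y) c ∧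
      S.F (Q.A x) c ≤ S.F (Q.A y) c := by
  induction y, hxy using Nat.le_induction with
  | base => omega
  | succ y hxy ih =>
    have h3 := ih (by omega)
    have := hG.deep hS hX h ha hv (j := y) (by omega) (by omega) (c := c) (by omega)
    omega

/-- At the end everything next to the two hubs is clean. -/
theorem s_free (hS : S.WF) (c : Bool) : VE.s c ∉ Q.X f := by
  intro h
  have h1 := hG.le
  have hd := hG.hO f (by omega) (by omega)
  have := hG.bE hS (j := f) (by omega) le_rfl [.gE .Om, .lam false, .lam true, .s c] (by simp)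
    (by simp [h, forcedE (.g _) hd hG.hO2, forcedE (.lO _) hd hG.hO2])
  simp [wE] at this

theorem lat_end (hS : S.WF) (c : Bool) : ¬ S.dirt (Q.A f) (.lat c) := fun h =>
  hG.s_free hS _ (hG.s_lat h (by have := hG.le; omega) le_rfl)

theorem F_end (hS : S.WF) (c : Bool) : S.F (Q.A f) c = 0 := by
  by_contra h
  exact hG.s_free hS _ (hG.s_lit (Nat.pos_of_ne_zero h) (by have := hG.le; omega) le_rfl)

end Good

end Sys

end Pool.Agent.MP_9694c2_lc.PS
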