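import Mathlib

/-!
The weighted game with two types of vertices, cellular automata and job systems.
-/

set_option autoImplicit false

namespace Pool.Agent.MP_9694c2_lc.PS

/-- A weighted graph with two types of vertices. -/
structure TG (VE VO : Type) where
  wE : VE → ℕ
  wO : VO → ℕ
  ee : VE → VE → Prop
  eo : VE → VO → Prop
  oo : VO → VO → Prop
  vE : Set VE
  vO : Set VO

namespace TG

variable {VE VO : Type}

/-- One round: first the vertices of the first type are updated, then those of the second type.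
The sets are upper bounds for the dirty vertices. -/
def Rnd (G : TG VE VO) (k : ℕ) (S S' : Set VE × Set VO) : Prop :=
  ∃ (X : Finset VE) (Y : Finset VO), ∑ v ∈ X, G.wE v ≤ k ∧ ∑ v ∈ Y, G.wO v ≤ k ∧
    (∀ v, v ∉ X → (v ∈ S.1 ∨ (∃ u ∈ S.1, G.ee u v ∨ G.ee v u) ∨ ∃ u ∈ S.2, G.eo v u) →
      v ∈ S'.1) ∧
    (∀ v, v ∉ Y → (v ∈ S.2 ∨ (∃ u ∈ S.2, G.oo u v ∨ G.oo v u) ∨ ∃ u ∈ S'.1, G.eo u v) →
      v ∈ S'.2)

/-- Several rounds. -/
def Reach (G : TG VE VO) (k : ℕ) : Set VE × Set VO → Set VE × Set VO → Prop :=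
  Relation.ReflTransGen (G.Rnd k)

/-- The hunters win. -/
def Win (G : TG VE VO) (k : ℕ) : Prop := G.Reach k (G.vE, G.vO) (∅, ∅)

/-- An infinite play. -/
structure Play (G : TG VE VO) (k : ℕ) where
  A : ℕ → Set VE
  B : ℕ → Set VO
  X : ℕ → Finset VE
  Y : ℕ → Finset VO
  hX : ∀ j, ∑ v ∈ X j, G.wE v ≤ k
  hY : ∀ j, ∑ v ∈ Y j, G.wO v ≤ k
  a0 : ∀ j v, v ∉ X j → v ∈ A j → v ∈ A (j + 1)
  a1 : ∀ j u v, v ∉ X j → u ∈ A j → G.ee u v → v ∈ A (j + 1)
  a2 : ∀ j u v, v ∉ X j → u ∈ A j → G.ee v u → v ∈ A (j + 1)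
  a3 : ∀ j u v, v ∉ X j → u ∈ B j → G.eo v u → v ∈ A (j + 1)
  b0 : ∀ j v, v ∉ Y j → v ∈ B j → v ∈ B (j + 1)
  b1 : ∀ j u v, v ∉ Y j → u ∈ B j → G.oo u v → v ∈ B (j + 1)
  b2 : ∀ j u v, v ∉ Y j → u ∈ B j → G.oo v u → v ∈ B (j + 1)
  b3 : ∀ j u v, v ∉ Y j → u ∈ A (j + 1) → G.eo u v → v ∈ B (j + 1)

end TG

/-- A cyclic cellular automaton with `n` cells and letters below `A`. -/
structure CA where
  n : ℕ
  A : ℕ
  rule : ℕ → ℕ → ℕ → ℕ → ℕ
  acc : ℕ → Bool
  ini : ℕ → ℕ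

namespace CA

/-- The left neighbour. -/
def pr (C : CA) (i : ℕ) : ℕ := if i = 0 then C.n - 1 else i - 1

/-- The right neighbour. -/
def nx (C : CA) (i : ℕ) : ℕ := if i + 1 = C.n then 0 else i + 1

/-- The configuration at time `t`. -/
def cfg (C : CA) : ℕ → ℕ → ℕ
  | 0 => C.ini
  | t + 1 => fun i => C.rule i (C.cfg t (C.pr i)) (C.cfg t i) (C.cfg t (C.nx i))

/-- Well-formed automata. -/
structure WF (C : CA) : Prop where
  n_pos : 0 < C.n
  rule_lt : ∀ i a b c, C.rule i a b c < C.A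
  ini_lt : ∀ i, C.ini i < C.A

/-- An accepting letter appears. -/
def Acc (C : CA) : Prop := ∃ t, ∃ i < C.n, C.acc (C.cfg (t + 1) i) = true

end CA

/-- A job system. Job `0` is the accepting job; the others lie in bank `false` or `true`. -/
structure Sys where
  k : ℕ
  N : ℕ
  M : ℕ
  bk : ℕ → Bool
  sz : ℕ → ℕ
  ln : Bool → ℕ
  ok : Bool → ℕ → ℕ → Bool
  e0 : ℕ → Bool

namespace Sys

variable (S : Sys)

/-- Job `j` lies in bank `c`. -/
def inb (c : Bool) (j : ℕ) : Prop := 0 < j ∧ j < S.N ∧ S.bk j = c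

instance (c : Bool) (j : ℕ) : Decidable (S.inb c j) := by unfold inb; infer_instance

/-- The jobs of bank `c`. -/
def bank (c : Bool) : Finset ℕ := (Finset.range S.N).filter (S.inb c)

/-- The jobs that are done at the start. -/
def E0 : Finset ℕ := (Finset.range S.N).filter (fun j => S.e0 j = true)

/-- Well-formed systems. -/
structure WF : Prop where
  k_ge : 42 ≤ S.k
  N_pos : 0 < S.N
  sz_pos : ∀ j < S.N, 0 < S.sz j
  sz_zero : S.sz 0 = S.M
  ln_eq : ∀ c, S.ln c = ∑ j ∈ S.bank c, S.sz j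
  e0_inb : ∀ j < S.N, S.e0 j = true → S.inb false j
  e0_sum : ∑ j ∈ S.E0, S.sz j = S.M

/-- The jobs of the list are done one after the other from slot `s` on, each at an allowed slot. -/
def Til (c : Bool) : ℕ → List ℕ → Prop
  | _, [] => True
  | s, j :: l => S.ok c s j = true ∧ Til c (s + S.sz j) l

/-- The jobs of bank `c` outside `E` and the jobs of `O` tile the word `c`. -/
def Tiling (c : Bool) (E O : Finset ℕ) : Prop :=
  ∃ l : List ℕ, l.Nodup ∧ (∀ j, j ∈ l ↔ (S.inb c j ∧ j ∉ E) ∨ j ∈ O) ∧ S.Til c 0 l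

/-- The reachable states. -/
inductive R : Bool → Finset ℕ → Prop
  | init : R false S.E0
  | step (c : Bool) (E O : Finset ℕ) : R c E → (∀ j ∈ O, S.inb (!c) j) →
      ∑ j ∈ O, S.sz j = S.M → S.Tiling c E O → R (!c) O

/-- The accepting job can be done. -/
def Accept : Prop := ∃ c E, S.R c E ∧ S.Tiling c E {0}

end Sys

end Pool.Agent.MP_9694c2_lc.PS
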