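import Pool.Agent.MP_9694c2_lc.PS.Game

/-!
The weighted graph of a job system.
-/

set_option autoImplicit false

namespace Pool.Agent.MP_9694c2_lc.PS

/-- The rails: jobs, two latches, the precious rail and the source rail. -/
inductive Reg
  | job (j : ℕ)
  | lat (c : Bool)
  | P
  | Om
  deriving DecidableEq

/-- Vertices of the first type. -/
inductive VE
  | s (c : Bool)
  | lam (c : Bool)
  | pT
  | uE
  | t (c : Bool) (i : ℕ)
  | r (X : Reg) (i : ℕ)
  | gE (X : Reg)
  deriving DecidableEq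

/-- Vertices of the second type. -/
inductive VO
  | om (c : Bool)
  | sg
  | pi
  | p (c : Bool)
  | uO
  | gO (X : Reg)
  | al (j : ℕ)
  | be (c : Bool) (s y : ℕ)
  deriving DecidableEq

namespace Sys

variable (S : Sys)

/-- The slack. -/
def dl : ℕ := 10 * S.k * (S.N + 2)

/-- A third of the length of a symbol. -/
def h : ℕ := 10 * S.k * S.dl

/-- The length of a slot. -/
def U : ℕ := 6 * S.N * S.h

/-- The length of a latch, and the start of the word on a fuse. -/
def r : ℕ := S.M * S.U + S.U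

/-- The last index of fuse `c`. -/
def L (c : Bool) : ℕ := S.r + S.ln c * S.U

/-- The length of a rail. -/
def len : Reg → ℕ
  | .job j => if j < S.N then S.sz j * S.U else 0
  | .lat _ => S.r
  | .P => 20 * S.k
  | .Om => 20 * S.k

/-- Symbol `y` of slot `s` of word `c` is busy. -/
def busy (c : Bool) (s y : ℕ) : Prop :=
  s < S.ln c ∧ y < 2 * S.N ∧ ¬ (y < S.N ∧ S.ok c s y = true)

/-- The first position of symbol `y` of slot `s`. -/
def sy (s y : ℕ) : ℕ := S.r + s * S.U + 3 * y * S.h

/-- Weights of the first type. -/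
def wE : VE → ℕ
  | .s _ => 3
  | .lam _ => 1
  | .pT => 1
  | .uE => S.k - 42
  | .t _ _ => 19
  | .r (.job _) _ => 6
  | .r (.lat _) _ => 6
  | .r .P _ => 1
  | .r .Om _ => 1
  | .gE (.job _) => 22
  | .gE (.lat _) => 22
  | .gE .P => 32
  | .gE .Om => 38

/-- Weights of the second type. -/
def wO : VO → ℕ
  | .om _ => 1
  | .sg => 3
  | .pi => 1
  | .p _ => 14
  | .uO => S.k - 42
  | .gO (.job _) => 29
  | .gO (.lat _) => 23
  | .gO .P => 11
  | .gO .Om => 0
  | .al _ => 7
  | .be _ _ _ => 7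

/-- Vertices of the first type adjacent to a whole rail. -/
inductive apE : VE → Reg → Prop
  | sj (c : Bool) (j : ℕ) (h : S.inb c j) : apE (.s c) (.job j)
  | sl (c d : Bool) (h : d = !c) : apE (.s c) (.lat d)
  | sP (c : Bool) : apE (.s c) .P
  | ll (c : Bool) : apE (.lam c) (.lat c)
  | lO (c : Bool) : apE (.lam c) .Om
  | pP : apE .pT .P
  | uP : apE .uE .P
  | uO : apE .uE .Om
  | g (X : Reg) : apE (.gE X) X

/-- Vertices of the second type adjacent to a whole rail. -/
inductive apO : VO → Reg → Prop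
  | oj (c : Bool) (j : ℕ) (h : S.inb c j) : apO (.om c) (.job j)
  | oO (c : Bool) : apO (.om c) .Om
  | g0 : apO .sg (.job 0)
  | gj (j : ℕ) (h : S.inb false j) (h' : S.e0 j = false) : apO .sg (.job j)
  | gl : apO .sg (.lat true)
  | gO : apO .sg .Om
  | i0 : apO .pi (.job 0)
  | iP : apO .pi .P
  | pl (c : Bool) : apO (.p c) (.lat c)
  | pP (c : Bool) : apO (.p c) .P
  | uP : apO .uO .P
  | uO : apO .uO .Om
  | g (X : Reg) : apO (.gO X) X

/-- Edges inside the first type. -/
inductive ee : VE → VE → Prop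
  | tt (c : Bool) (i : ℕ) (h : i + 1 ≤ S.L c) : ee (.t c i) (.t c (i + 1))
  | rr (X : Reg) (i : ℕ) (h : i + 1 < S.len X) : ee (.r X i) (.r X (i + 1))
  | ap (a : VE) (X : Reg) (i : ℕ) (h : S.apE a X) (hi : i < S.len X) : ee a (.r X i)
  | st (c d : Bool) (i : ℕ) (h : d = !c) (hi : i ≤ S.L d) : ee (.s c) (.t d i)
  | sl (c : Bool) (i : ℕ) (hi : i = S.L c) : ee (.s c) (.t c i)
  | pl (c : Bool) (i : ℕ) (hi : i = S.L c) : ee .pT (.t c i)

/-- Edges between the types. -/
inductive eo : VE → VO → Prop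
  | ap (b : VO) (X : Reg) (i : ℕ) (h : S.apO b X) (hi : i < S.len X) : eo (.r X i) b
  | al (j i : ℕ) (hj : j < S.N) (h1 : (3 * j + 1) * S.h ≤ i) (h2 : i < (3 * j + 2) * S.h) :
      eo (.r (.job j) i) (.al j)
  | om (c d : Bool) (h : d = !c) : eo (.t c 0) (.om d)
  | be (c : Bool) (s y i : ℕ) (h : S.busy c s y) (h1 : S.sy s y ≤ i)
      (h2 : i < S.sy s y + 3 * S.h) : eo (.t c i) (.be c s y)

/-- Edges inside the second type. -/
inductive oo : VO → VO → Prop
  | op (c : Bool) : oo (.om c) (.p c)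

/-- The rails that exist. -/
def vR : Reg → Prop
  | .job j => j < S.N
  | _ => True

/-- The vertices of the first type. -/
def vE : VE → Prop
  | .t c i => i ≤ S.L c
  | .r X i => i < S.len X
  | .gE X => S.vR X
  | _ => True

/-- The vertices of the second type. -/
def vO : VO → Prop
  | .gO X => S.vR X
  | .al j => j < S.N
  | .be c s y => S.busy c s y
  | _ => True

/-- The weighted graph. -/
def G : TG VE VO := ⟨S.wE, S.wO, S.ee, S.eo, oo, {v | S.vE v}, {v | S.vO v}⟩

open Classical in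
/-- The number of clean vertices of a rail. -/
noncomputable def cc (A : Set VE) (X : Reg) : ℕ :=
  ((Finset.range (S.len X)).filter (fun i => VE.r X i ∉ A)).card

/-- The rail has a dirty vertex. -/
def dirt (A : Set VE) (X : Reg) : Prop := ∃ i < S.len X, VE.r X i ∈ A

/-- A stretch of a play during which the precious rail is kept and the source rail is dirty, up
to a time when it is being cleaned. -/
structure Good (Q : S.G.Play S.k) (a f : ℕ) : Prop where
  le : a + 4 ≤ f
  hP : ∀ j, a ≤ j → j ≤ f + 2 → S.k < S.cc (Q.A j) .P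
  hPd : S.dirt (Q.A (a + 1)) .P
  hO : ∀ j, a ≤ j → j ≤ f + 2 → S.dirt (Q.A j) .Om
  hO1 : S.k < S.cc (Q.A (f + 1)) .Om
  hO2 : S.k < S.cc (Q.A (f + 2)) .Om

end Sys

end Pool.Agent.MP_9694c2_lc.PS
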