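import Pool.Agent.MP_9694c2_lc.PS.Spec
import Pool.Agent.MP_9694c2_lc.PS.Base

/-!
Plays from wins, reversed plays, and the good stretch.
-/

set_option autoImplicit false

namespace Pool.Agent.MP_9694c2_lc.PS

namespace TG

variable {VE VO : Type} {G : TG VE VO} {k : ℕ}

theorem play_of_reach {S T : Set VE × Set VO} (h : G.Reach k S T) :
    ∃ (Q : G.Play k) (n : ℕ), Q.A 0 = S.1 ∧ Q.B 0 = S.2 ∧ Q.A n = T.1 := by
  induction h using Relation.ReflTransGen.head_induction_on with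
  | refl =>
    exact ⟨⟨fun j => if j = 0 then T.1 else Set.univ, fun j => if j = 0 then T.2 else Set.univ,
      fun _ => ∅, fun _ => ∅, by simp, by simp, by simp, by simp, by simp, by simp, by simp,
      by simp, by simp, by simp⟩, 0, rfl, rfl, rfl⟩
  | @head S S' h _ ih =>
    obtain ⟨Q, n, h1, h2, h3⟩ := ih
    obtain ⟨X, Y, hX, hY, hA, hB⟩ := h
    rw [← h1] at hA hB
    rw [← h2] at hB
    refine ⟨⟨fun j => Nat.casesOn j S.1 Q.A, fun j => Nat.casesOn j S.2 Q.B,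
      fun j => Nat.casesOn j X Q.X, fun j => Nat.casesOn j Y Q.Y, ?_, ?_, ?_, ?_, ?_, ?_, ?_, ?_,
      ?_, ?_⟩, n + 1, rfl, rfl, h3⟩
    all_goals rintro (_ | j)
    exacts [hX, Q.hX j, hY, Q.hY j, fun v hv h => hA v hv (Or.inl h), Q.a0 j,
      fun u v hv hu h => hA v hv (Or.inr (Or.inl ⟨u, hu, Or.inl h⟩)), Q.a1 j,
      fun u v hv hu h => hA v hv (Or.inr (Or.inl ⟨u, hu, Or.inr h⟩)), Q.a2 j,
      fun u v hv hu h => hA v hv (Or.inr (Or.inr ⟨u, hu, h⟩)), Q.a3 j,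
      fun v hv h => hB v hv (Or.inl h), Q.b0 j,
      fun u v hv hu h => hB v hv (Or.inr (Or.inl ⟨u, hu, Or.inl h⟩)), Q.b1 j,
      fun u v hv hu h => hB v hv (Or.inr (Or.inl ⟨u, hu, Or.inr h⟩)), Q.b2 j,
      fun u v hv hu h => hB v hv (Or.inr (Or.inr ⟨u, hu, h⟩)), Q.b3 j]

theorem exists_rev (Q : G.Play k) (u : ℕ) : ∃ Q' : G.Play k, ∀ j m, u = j + m + 3 →
    ∀ v, v ∈ Q'.A j ↔ v ∉ Q.A (m + 3) ∧ v ∉ Q.X (m + 2) := by
  let A : ℕ → Set VE := fun j =>
    {v | ∀ m, u = j + m + 3 → v ∉ Q.A (m + 3) ∧ v ∉ Q.X (m + 2)}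
  let B : ℕ → Set VO := fun j =>
    {v | ∀ m, u = j + m + 3 → v ∉ Q.B (m + 2) ∧ v ∉ Q.Y (m + 1)}
  have e1 : ∀ j m, u = j + 1 + m + 3 → u - j - 2 = m + 2 := fun j m h => by omega
  have e2 : ∀ j m, u = j + 1 + m + 3 → u - j - 3 = m + 1 := fun j m h => by omega
  have e3 : ∀ j m, u = j + 1 + m + 3 → u = j + (m + 1) + 3 := fun j m h => by omega
  refine ⟨⟨A, B, fun j => Q.X (u - j - 2), fun j => Q.Y (u - j - 3), fun j => Q.hX _,
    fun j => Q.hY _, fun j v hv h m hm => ?_, fun j w v hv h he m hm => ?_,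
    fun j w v hv h he m hm => ?_, fun j w v hv h he m hm => ?_, fun j v hv h m hm => ?_,
    fun j w v hv h he m hm => ?_, fun j w v hv h he m hm => ?_, fun j w v hv h he m hm => ?_⟩,
    fun j m hm v => ⟨fun h => h m hm, fun h m' hm' => by
      obtain rfl : m' = m := by omega
      exact h⟩⟩
  · have := h _ (e3 j m hm)
    exact ⟨fun h' => this.1 (Q.a0 _ _ this.2 h'), e1 j m hm ▸ hv⟩
  · have := h _ (e3 j m hm)
    exact ⟨fun h' => this.1 (Q.a2 _ _ _ this.2 h' he), e1 j m hm ▸ hv⟩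
  · have := h _ (e3 j m hm)
    exact ⟨fun h' => this.1 (Q.a1 _ _ _ this.2 h' he), e1 j m hm ▸ hv⟩
  · have := h _ (e3 j m hm)
    exact ⟨fun h' => this.1 (Q.b3 _ _ _ this.2 h' he), e1 j m hm ▸ hv⟩
  · have := h _ (e3 j m hm)
    exact ⟨fun h' => this.1 (Q.b0 _ _ this.2 h'), e2 j m hm ▸ hv⟩
  · have := h _ (e3 j m hm)
    exact ⟨fun h' => this.1 (Q.b2 _ _ _ this.2 h' he), e2 j m hm ▸ hv⟩
  · have := h _ (e3 j m hm)
    exact ⟨fun h' => this.1 (Q.b1 _ _ _ this.2 h' he), e2 j m hm ▸ hv⟩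
  · have := h m hm
    exact ⟨fun h' => this.1 (Q.a3 _ _ _ this.2 h' he), e2 j m hm ▸ hv⟩

end TG

namespace Sys

open Finset

variable {S : Sys}

theorem cc_compl {A A' : Set VE} {W : Finset VE} (h : ∀ v, v ∈ A' ↔ v ∉ A ∧ v ∉ W) (X : Reg) :
    S.len X ≤ S.cc A' X + S.cc A X ∧ S.cc A' X + S.cc A X ≤ S.len X + S.sh W X := by
  classical
  have h1 := card_filter_add_card_filter_not (s := range (S.len X)) (fun i => VE.r X i ∉ A)
  rw [card_range] at h1
  have h2 : ((range (S.len X)).filter (fun i => ¬ VE.r X i ∉ A)).card ≤ S.cc A' X :=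
    card_le_card fun i hi => by
      rw [mem_filter] at hi ⊢
      exact ⟨hi.1, fun h' => hi.2 ((h _).1 h').1⟩
  have h3 : S.cc A' X ≤ ((range (S.len X)).filter (fun i => ¬ VE.r X i ∉ A)).card + S.sh W X := by
    refine le_trans (card_le_card fun i hi => ?_) (card_union_le _ _)
    rw [mem_filter] at hi
    by_cases hW : VE.r X i ∈ W
    · exact mem_union_right _ (mem_filter.2 ⟨hi.1, hW⟩)
    · exact mem_union_left _ (mem_filter.2 ⟨hi.1, fun h' => hi.2 ((h _).2 ⟨h', hW⟩)⟩)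
  unfold cc at *
  omega

theorem not_both (hS : S.WF) (Q : S.G.Play S.k) (j : ℕ) (h1 : S.dirt (Q.A j) .P)
    (h2 : S.dirt (Q.A j) .Om) (h3 : S.k < S.cc (Q.A (j + 2)) .P)
    (h4 : S.k < S.cc (Q.A (j + 2)) .Om) : False := by
  have := budE Q j [.gE .P, .gE .Om, .uE] (by simp)
    (by simp [forcedE (.g _) h1 h3, forcedE (.g _) h2 h4, forcedE .uP h1 h3])
  have := hS.k_ge
  simp [wE] at *
  omega

/-- The order in which two rails are cleaned for the first time. -/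
theorem order (k : ℕ) (hk : 0 < k) (x y : ℕ → ℕ) (hx : ∀ j n, x (j + n) ≤ x j + n * k)
    (hy : ∀ j n, y (j + n) ≤ y j + n * k)
    (hno : ∀ j, x j < 20 * k → y j < 20 * k → k < x (j + 2) → k < y (j + 2) → False)
    (T ax ay tx ty : ℕ) (h1 : ay ≤ ax) (hax : x ax ≤ k) (hay : y ay ≤ k)
    (hax' : ∀ j, ax < j → j ≤ T → k < x j) (hay' : ∀ j, ay < j → j ≤ T → k < y j)
    (htx : ax < tx ∧ tx ≤ T ∧ 12 * k ≤ x tx) (hty : ay < ty ∧ ty ≤ T ∧ 12 * k ≤ y ty)
    (hmin : ∀ t < T, ∀ b ≤ t, 12 * k ≤ y b → (∀ j, b ≤ j → j ≤ t → k < y j) → x t < 12 * k) :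
    ∃ b, 11 ≤ b ∧ b ≤ ax ∧ ax + 11 ≤ T ∧ y b < 13 * k ∧ (∀ j, b ≤ j → j ≤ T → k < y j) ∧
      (∀ j, b ≤ j → j < T → x j < 12 * k) ∧ 12 * k ≤ x T ∧
      ∀ j, ax ≤ j → j + 2 ≤ T → 20 * k ≤ y j := by
  classical
  have long : ∀ z : ℕ → ℕ, (∀ j n, z (j + n) ≤ z j + n * k) → ∀ a t, a < t → z a ≤ k →
      12 * k ≤ z t → a + 11 ≤ t := by
    intro z hz a t hat h2 h3
    by_contra hc
    have h4 := hz a (t - a)
    rw [Nat.add_sub_cancel' hat.le] at h4
    have h5 : (t - a) * k ≤ 10 * k := Nat.mul_le_mul_right _ (by omega)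
    omega
  have hex : ∃ b, ay < b ∧ 12 * k ≤ y b := ⟨ty, hty.1, hty.2.2⟩
  obtain ⟨b, ⟨hb1, hb2⟩, hb3, hb4⟩ : ∃ b, (ay < b ∧ 12 * k ≤ y b) ∧ b ≤ ty ∧
      ∀ j, ay < j → j < b → y j < 12 * k :=
    ⟨_, Nat.find_spec hex, Nat.find_min' hex ⟨hty.1, hty.2.2⟩, fun j hj hj' =>
      not_le.1 fun h => Nat.find_min hex hj' ⟨hj, h⟩⟩
  have h2 := long y hy ay b hb1 hay hb2
  have h3 := long x hx ax tx htx.1 hax htx.2.2
  have h4 : b ≤ ax := by
    by_contra hc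
    refine hno ax (by omega) ?_ (hax' _ (by omega) (by omega)) (hay' _ (by omega) (by omega))
    rcases h1.eq_or_lt with rfl | h5
    · omega
    · have := hb4 ax h5 (by omega)
      omega
  have h5 : ∀ j, b ≤ j → j < T → x j < 12 * k := fun j hj hj' =>
    hmin j hj' b hj hb2 fun i hi hi' => hay' i (by omega) (by omega)
  have h6 : tx = T := by
    by_contra hc
    have := h5 tx (by omega) (by omega)
    omega
  refine ⟨b, by omega, h4, by omega, ?_, fun j hj hj' => hay' j (by omega) hj', h5,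
    h6 ▸ htx.2.2, fun j hj hj' => ?_⟩
  · obtain ⟨b, rfl⟩ : ∃ b', b = b' + 1 := ⟨b - 1, by omega⟩
    have := hy b 1
    have := hb4 b (by omega) (by omega)
    omega
  · by_contra hc
    have := h5 j (by omega) (by omega)
    exact hno j (by omega) (by omega) (hax' _ (by omega) hj') (hay' _ (by omega) hj')

end Sys

open Sys in
theorem rev : RevStmt := by
  classical
  intro S hS hW
  obtain ⟨Q, n, h0, -, hn⟩ := TG.play_of_reach hW
  have hk := hS.k_ge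
  have hlP : S.len .P = 20 * S.k := rfl
  have hlO : S.len .Om = 20 * S.k := rfl
  have hz : ∀ X, S.cc (Q.A 0) X = 0 := fun X => by
    unfold cc
    rw [Finset.card_eq_zero, Finset.filter_eq_empty_iff]
    intro i hi
    rw [h0]
    exact fun h => h (Finset.mem_range.1 hi)
  have he : ∀ X, S.cc (Q.A n) X = S.len X := fun X => cc_of_not_dirt (by
    rintro ⟨i, -, h⟩
    rw [hn] at h
    exact h)
  let st : Reg → ℕ → Prop := fun X t =>
    ∃ b ≤ t, 12 * S.k ≤ S.cc (Q.A b) X ∧ ∀ j, b ≤ j → j ≤ t → S.k < S.cc (Q.A j) X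
  have st1 : ∀ X t, 12 * S.k ≤ S.cc (Q.A t) X → st X t := fun X t h =>
    ⟨t, le_rfl, h, fun j hj hj' => by
      obtain rfl : j = t := by omega
      omega⟩
  have hex : ∃ t, st .P t ∧ st .Om t :=
    ⟨n, st1 _ _ (by rw [he]; omega), st1 _ _ (by rw [he]; omega)⟩
  obtain ⟨T, ⟨⟨tP, p1, p2, p3⟩, tO, o1, o2, o3⟩, hT⟩ : ∃ T, (st .P T ∧ st .Om T) ∧
      ∀ t < T, ¬ (st .P t ∧ st .Om t) := ⟨_, Nat.find_spec hex, fun t ht => Nat.find_min hex ht⟩
  have last : ∀ X, ∃ a ≤ T, S.cc (Q.A a) X ≤ S.k ∧ ∀ j, a < j → j ≤ T → S.k < S.cc (Q.A j) X :=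
    fun X => ⟨_, Nat.findGreatest_le _, Nat.findGreatest_spec
      (P := fun j => S.cc (Q.A j) X ≤ S.k) (Nat.zero_le T) (by simp [hz]), fun j hj hj' =>
      not_le.1 (Nat.findGreatest_is_greatest (P := fun j => S.cc (Q.A j) X ≤ S.k) hj hj')⟩
  obtain ⟨aP, p4, p5, p6⟩ := last .P
  obtain ⟨aO, o4, o5, o6⟩ := last .Om
  have p7 : aP < tP := by
    by_contra hc
    have := p3 aP (by omega) p4
    omega
  have o7 : aO < tO := by
    by_contra hc
    have := o3 aO (by omega) o4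
    omega
  rcases le_total aP aO with h | h
  · obtain ⟨b, -, b2, b3, b4, b5, b6, -, -⟩ := order S.k (by omega) (fun j => S.cc (Q.A j) .Om)
      (fun j => S.cc (Q.A j) .P) (fun j n => cc_steps Q j n _) (fun j n => cc_steps Q j n _)
      (fun j h1 h2 h3 h4 => not_both hS Q j (dirt_of_cc h2) (dirt_of_cc h1) h4 h3)
      T aO aP tO tP h o5 p5 o6 p6 ⟨o7, o1, o2⟩ ⟨p7, p1, p2⟩
      (fun t ht b hb h1 h2 => not_le.1 fun h3 => hT t ht ⟨⟨b, hb, h1, h2⟩, st1 _ _ h3⟩)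
    refine ⟨Q, b, T - 3, by omega, fun j hj hj' => b5 j hj (by omega), dirt_of_cc ?_,
      fun j hj hj' => dirt_of_cc ?_, o6 _ (by omega) (by omega), o6 _ (by omega) (by omega)⟩
    · have := cc_step Q b .P
      omega
    · have := b6 j hj (by omega)
      omega
  · obtain ⟨b, b1, b2, b3, b4, -, b6, b7, b8⟩ := order S.k (by omega) (fun j => S.cc (Q.A j) .P)
      (fun j => S.cc (Q.A j) .Om) (fun j n => cc_steps Q j n _) (fun j n => cc_steps Q j n _)
      (fun j h1 h2 h3 h4 => not_both hS Q j (dirt_of_cc h1) (dirt_of_cc h2) h3 h4)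
      T aP aO tP tO h p5 o5 p6 o6 ⟨p7, p1, p2⟩ ⟨o7, o1, o2⟩
      (fun t ht b hb h1 h2 => not_le.1 fun h3 => hT t ht ⟨st1 _ _ h3, ⟨b, hb, h1, h2⟩⟩)
    obtain ⟨Q', hQ⟩ := TG.exists_rev Q (T - 2)
    have key : ∀ j t, j + t + 2 = T → 3 ≤ t → ∀ X, S.len X ≤ S.cc (Q'.A j) X + S.cc (Q.A t) X ∧
        S.cc (Q'.A j) X + S.cc (Q.A t) X ≤ S.len X + S.k := by
      intro j t h1 h2 X
      obtain ⟨m, rfl⟩ : ∃ m, t = m + 3 := ⟨t - 3, by omega⟩
      have := cc_compl (S := S) (hQ j m (by omega)) X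
      have := sh_le Q (m + 2) X
      omega
    have hex2 : ∃ e, 3 * S.k < S.cc (Q'.A e) .Om := ⟨T - 2 - b, by
      have := key (T - 2 - b) b (by omega) (by omega) .Om
      omega⟩
    obtain ⟨e, e1, e2, e3⟩ : ∃ e, 3 * S.k < S.cc (Q'.A e) .Om ∧ e ≤ T - 2 - b ∧
        ∀ j < e, S.cc (Q'.A j) .Om ≤ 3 * S.k :=
      ⟨_, Nat.find_spec hex2, Nat.find_min' hex2 (by
        have := key (T - 2 - b) b (by omega) (by omega) .Om
        omega), fun j hj => not_lt.1 (Nat.find_min hex2 hj)⟩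
    have e4 : 10 ≤ e := by
      by_contra hc
      have := key e (T - 2 - e) (by omega) (by omega) .Om
      have := b8 (T - 2 - e) (by omega) (by omega)
      omega
    obtain ⟨f, rfl⟩ : ∃ f, e = f + 2 := ⟨e - 2, by omega⟩
    have e5 : S.cc (Q'.A (f + 2)) .Om ≤ _ := cc_step Q' (f + 1) .Om
    have e6 := e3 (f + 1) (by omega)
    refine ⟨Q', 0, f, by omega, fun j _ hj => ?_, dirt_of_cc ?_, fun j _ hj => dirt_of_cc ?_,
      by omega, by omega⟩
    · have := key j (T - 2 - j) (by omega) (by omega) .P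
      have := b6 (T - 2 - j) (by omega) (by omega)
      omega
    · have h1 := key 1 (T - 3) (by omega) (by omega) .P
      have h2 := cc_steps Q (T - 3) 3 .P
      rw [show T - 3 + 3 = T by omega] at h2
      rw [zero_add]
      omega
    · rcases hj.eq_or_lt with rfl | hj
      · omega
      · have := e3 j hj
        omega

end Pool.Agent.MP_9694c2_lc.PS
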