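import Pool.Agent.MP_9694c2_lc.PS.Phase
import Pool.Agent.MP_9694c2_lc.PS.Rev

/-!
The reduction from its parts.
-/

set_option autoImplicit false

namespace Pool.Agent.MP_9694c2_lc.PS

theorem hunt_dedup (E : List (ℕ × ℕ)) : hunt E.dedup = hunt E := by
  have h1 : adjE E.dedup = adjE E := by
    funext a b
    simp only [adjE, List.mem_dedup]
  have h2 : verts E.dedup = verts E := by simp only [verts, h1]
  have h3 : ∀ W t, terr E.dedup W t = terr E W t := by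
    intro W t
    induction t with
    | zero => simp only [terr, h2]
    | succ t ih => simp only [terr, h1, ih]
  simp only [hunt, h2, h3]

theorem hard_of (h1 : RealStmt) (h2 : TMStmt) (h3 : EncStmt) (h4 : JobWF) (h5 : JobPoly)
    (h6 : JobSound) (h7 : JobCompl) (h8 : ComplStmt) : ∀ k : ℕ, 42 ≤ k → ∀ L ∈ PSPACE,
    ∃ f : List Bool → List (ℕ × ℕ), N68a2faeb.IsPolyTime f ∧
      ∀ x, (f x).Nodup ∧ (∀ e ∈ f x, Even e.1 ∧ Odd e.2) ∧ (L x = true ↔ hunt (f x) ≤ k) := by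
  intro k hk L hL
  obtain ⟨C, hC, hC'⟩ := h2 L hL
  have hW := fun x => h4 (C x) k (hC' x).1 hk
  obtain ⟨f, hf, hf'⟩ := h3 h1 k (fun x => (C x).toSys k) (h5 C k hC) (fun x => ⟨rfl, hW x⟩)
  refine ⟨fun x => (f x).dedup, (Pool.Agent.PolyT.poly_iff _).1 hf.dedup, fun x =>
    ⟨List.nodup_dedup _, fun e he => (hf' x).1 e (List.mem_dedup.1 he), ?_⟩⟩
  rw [hunt_dedup, (hf' x).2, (hC' x).2]
  constructor
  · exact fun h => h8 _ (hW x) (h7 _ k (hC' x).1 h)
  · intro h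
    obtain ⟨Q, a, g, hG⟩ := rev _ (hW x) h
    exact h6 _ k (hC' x).1 (hW x) (sound _ (hW x) Q a g hG)

end Pool.Agent.MP_9694c2_lc.PS
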