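import Pool.Agent.MP_9694c2_lc.PS.Reset

/-!
One phase, and soundness of the graph.
-/

set_option autoImplicit false

namespace Pool.Agent.MP_9694c2_lc.PS

namespace Sys

open Finset

variable {S : Sys} {Q : S.G.Play S.k}

theorem mem_bank {c : Bool} {j : ℕ} : j ∈ S.bank c ↔ S.inb c j := by
  simp only [bank, mem_filter, mem_range]
  exact ⟨fun h => h.2, fun h => ⟨h.2.1, h⟩⟩

theorem front_mono {c : Bool} {x y : ℕ} (hxy : x ≤ y) (h : ∀ j, x ≤ j → j < y → 0 < S.F (Q.A j) c →
    ¬ Push Q c j) (h0 : 0 < min (S.F (Q.A x) c) (S.L c - 1)) :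
    min (S.F (Q.A x) c) (S.L c - 1) ≤ min (S.F (Q.A y) c) (S.L c - 1) := by
  induction y, hxy using Nat.le_induction with
  | base => exact le_rfl
  | succ y hxy ih =>
    have h1 := ih (fun j hj hj' => h j hj (by omega))
    have h2 : 0 < S.F (Q.A y) c := by omega
    have := F_nopush (h y hxy (by omega) h2) h2
    omega

namespace Good

variable {a f : ℕ} (hG : S.Good Q a f)
include hG

theorem phase (hS : S.WF) {c : Bool} {m : ℕ} {E : Finset ℕ} (h1 : a ≤ m) (h2 : m ≤ f)
    (hst : Start Q c m E) (hE : E ⊆ S.bank c) (hM : ∑ j ∈ E, S.sz j ≤ S.M)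
    (hR : ∑ j ∈ E, S.sz j = S.M → S.R c E) :
    S.Accept ∨ ∃ m' O, m < m' ∧ m' ≤ f ∧ Start Q (!c) m' O ∧ O ⊆ S.bank (!c) ∧
      ∑ j ∈ O, S.sz j ≤ S.M ∧ (∑ j ∈ O, S.sz j = S.M → S.R (!c) O) := by
  classical
  have hU := hS.U_ge
  have hh := hS.h_ge
  have hd := hS.dl_ge
  have hk := hS.k_ge
  have hr := r_ge (S := S)
  have hL := L_ge (S := S) c
  have hF := hst.hF
  have hsl : 4 * S.k + S.N * (4 * S.k + 1) ≤ S.dl := by
    unfold dl
    nlinarith
  have hφ0 : S.r ≤ min (S.F (Q.A m) c) (S.L c - 1) + 4 * S.k := by omega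
  have hex : ∃ j, m ≤ j ∧ j < f ∧ Push Q c j := by
    by_contra hc
    have := front_mono (Q := Q) (c := c) h2 (fun j hj hj' _ hp => hc ⟨j, hj, hj', hp⟩) (by omega)
    rw [hG.F_end hS c] at this
    omega
  obtain ⟨T, ⟨hT1, hT2, x, y, hxy, hx, hy⟩, hT3⟩ : ∃ T, (m ≤ T ∧ T < f ∧ Push Q c T) ∧
      ∀ j, m ≤ j → j < T → ¬ Push Q c j :=
    ⟨_, Nat.find_spec hex, fun j hj hj' hp =>
      Nat.find_min hex hj' ⟨hj, hj'.trans (Nat.find_spec hex).2.1, hp⟩⟩
  have hφ : ∀ p q, m ≤ p → p ≤ q → q ≤ T →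
      min (S.F (Q.A p) c) (S.L c - 1) ≤ min (S.F (Q.A q) c) (S.L c - 1) := by
    intro p q hp hpq hq
    have := front_mono (Q := Q) (c := c) hp (fun j hj hj' _ => hT3 j hj (by omega)) (by omega)
    exact front_mono hpq (fun j hj hj' _ => hT3 j (by omega) (by omega)) (by omega)
  have hlit : ∀ p, m ≤ p → p ≤ T → 0 < S.F (Q.A p) c := by
    intro p hp hp'
    have := hφ m p le_rfl hp hp'
    omega
  have hs := hG.s_lit (hlit T hT1 le_rfl) (j := T) (by omega) hT2.le
  have hsc : VE.s c ∉ Q.X T := by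
    intro h
    have := hG.bE hS (j := T) (by omega) hT2.le [.s c, .s (!c), .t c x, .t c y] (by simp [hxy])
      (by simp [hs, h, hx, hy])
    simp [wE] at this
  have hlam : VE.lam c ∉ Q.X T ∨ VE.lam (!c) ∉ Q.X T := by
    by_contra h
    push Not at h
    have := hG.bE hS (j := T) (by omega) hT2.le [.s (!c), .t c x, .t c y, .lam c, .lam (!c)]
      (by simp [hxy]) (by simp [hs, h, hx, hy])
    simp [wE] at this
  have hTf : T + 2 ≤ f := by
    by_contra h
    obtain rfl : f = T + 1 := by omega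
    rcases hlam with h | h <;>
      exact absurd (nd_of_apE (.lO _) (apE_dirty (.lO _) (hG.hO T (by omega) (by omega)) h))
        (not_le.2 hG.hO1)
  set O := (range S.N).filter
    (fun j => (j = 0 ∨ S.inb (!c) j) ∧ ¬ S.dirt (Q.A (T + 2)) (.job j)) with hO
  have hOc : ∀ j ∈ O, ¬ S.inb c j := by
    intro j hj h
    rcases (mem_filter.1 hj).2.1 with rfl | h'
    · exact absurd h.1 (lt_irrefl _)
    · have := h.2.2.symm.trans h'.2.2
      simp at this
  have hdis : Disjoint (S.bank c \ E) O := disjoint_left.2 fun j hj hj' =>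
    hOc j hj' (mem_bank.1 (mem_sdiff.1 hj).1)
  set J := (S.bank c \ E) ∪ O with hJ
  have hJN : ∀ j ∈ J, j < S.N := by
    intro j hj
    rcases mem_union.1 hj with h | h
    · exact (mem_bank.1 (mem_sdiff.1 h).1).2.1
    · exact mem_range.1 (mem_filter.1 h).1
  have hcard : ∀ J' ⊆ J, J'.card * (4 * S.k + 1) ≤ S.N * (4 * S.k + 1) := fun J' hJ' =>
    Nat.mul_le_mul_right _ ((card_le_card (t := range S.N) fun j hj =>
      mem_range.2 (hJN j (hJ' hj))).trans (by simp))
  have hsw : ∀ j ∈ J, ∃ u w, m ≤ u ∧ w ≤ T ∧ u + 1 ≤ w ∧ Sweep Q (.job j) u (w + 2) := by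
    intro j hj
    have h3 := k_lt_job hS (hJN j hj)
    have h4 : j ∉ E := by
      rcases mem_union.1 hj with h | h
      · exact (mem_sdiff.1 h).2
      · exact fun h' => hOc j h (mem_bank.1 (hE h'))
    obtain ⟨z, h5, h6, h7⟩ : ∃ z, m ≤ z ∧ z ≤ T + 2 ∧ ¬ S.dirt (Q.A z) (.job j) := by
      rcases mem_union.1 hj with h | h
      · exact ⟨T, hT1, by omega, fun h' => hsc (hG.apE_shot (.sP c)
          (.sj c j (mem_bank.1 (mem_sdiff.1 h).1)) h' (by omega) hT2.le)⟩
      · exact ⟨T + 2, by omega, le_rfl, (mem_filter.1 h).2.2⟩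
    obtain ⟨u, v, h8, h9, h10, -⟩ := exists_sweep (by omega) h5 (hst.nd j (hJN j hj) h4) h7
    have h11 := h10.long (n := 9) h3
    obtain ⟨w, rfl⟩ : ∃ w, v = w + 2 := ⟨v - 2, by omega⟩
    exact ⟨u, w, h8, by omega, by omega, h10⟩
  choose! u w hu hw huw hsw using hsw
  have hgain : ∀ j ∈ J, S.F (Q.A (u j + 1)) c + S.sz j * S.U ≤ S.F (Q.A (w j)) c + 4 * S.k := by
    intro j hj
    have h3 := hu j hj
    have h4 := hw j hj
    have h5 := huw j hj
    have h6 := hG.gain hS (X := .job j) trivial (hsw j hj) (by omega) (by omega) (x := u j + 1)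
      (y := w j) (by omega) h5 le_rfl (hlit _ (by omega) (by omega))
    have h7 := (hsw j hj).first
    have h8 := (hsw j hj).last
    rw [len_job_eq (hJN j hj)] at h8
    omega
  have hdj : ∀ i ∈ J, ∀ j ∈ J, i ≠ j → w i < u j ∨ w j < u i := by
    intro i hi j hj hij
    by_contra hc
    have h3 := hu i hi
    have h4 := hw i hi
    have h5 := huw i hi
    have h6 := huw j hj
    have key : ∀ j ∈ J, ∀ z, u j ≤ z → z ≤ w j → VE.gE (.job j) ∈ Q.X z := fun j hj z hz hz' =>
      forcedE (.g _) ((hsw j hj).dt z hz (by omega)) ((hsw j hj).nn _ (by omega) (by omega))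
    exact hG.no_two hS (X := .job i) (Y := .job j) (j := max (u i) (u j)) trivial trivial
      (by simpa using hij) (by omega) (by omega) (key i hi _ (by omega) (by omega))
      (key j hj _ (by omega) (by omega))
  have hsum : ∀ J' ⊆ J, ∀ p q, m ≤ p → p ≤ q → q ≤ T → (∀ j ∈ J', p ≤ u j + 1 ∧ w j ≤ q) →
      min (S.F (Q.A p) c) (S.L c - 1) + (∑ j ∈ J', S.sz j) * S.U ≤
        min (S.F (Q.A q) c) (S.L c - 1) + S.N * (4 * S.k + 1) := by
    intro J' hJ' p q hp hpq hq hin
    have h3 := sum_incr (fun z => min (S.F (Q.A z) c) (S.L c - 1)) (fun j => u j + 1) w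
      (fun j => S.sz j * S.U) (4 * S.k + 1) m T hφ J' (fun j hj => huw j (hJ' hj))
      (fun j hj => by
        have := hgain j (hJ' hj)
        have := F_le (S := S) (Q.A (w j)) c
        omega)
      (fun i hi j hj hij => by
        have := hdj i (hJ' hi) j (hJ' hj) hij
        omega) hp hpq hq hin
    have h4 := hcard J' hJ'
    rw [← sum_mul] at h3
    omega
  have hall : ∀ j ∈ J, m ≤ u j + 1 ∧ w j ≤ T := fun j hj => ⟨by have := hu j hj; omega, hw j hj⟩
  have hbE : ∑ j ∈ S.bank c \ E, S.sz j + ∑ j ∈ E, S.sz j = S.ln c := by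
    rw [sum_sdiff hE, hS.ln_eq]
  have hJs : ∑ j ∈ J, S.sz j = ∑ j ∈ S.bank c \ E, S.sz j + ∑ j ∈ O, S.sz j := sum_union hdis
  have hLc : S.L c = S.r + S.ln c * S.U := rfl
  have htot : ∑ j ∈ J, S.sz j ≤ S.ln c := by
    have h3 := hsum J Subset.rfl m T le_rfl hT1 le_rfl hall
    by_contra hc
    have h4 : (S.ln c + 1) * S.U ≤ (∑ j ∈ J, S.sz j) * S.U := Nat.mul_le_mul_right _ (by omega)
    rw [Nat.succ_mul] at h4
    omega
  have htil : ∑ j ∈ O, S.sz j = S.M → S.Tiling c E O := by
    intro hOM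
    have htot' : ∑ j ∈ J, S.sz j = S.ln c := by omega
    have hinj : ∀ i ∈ J, ∀ j ∈ J, u i = u j → i = j := by
      intro i hi j hj h
      by_contra hc
      have := hdj i hi j hj hc
      have := huw i hi
      have := huw j hj
      omega
    obtain ⟨l, h3, h4, h5⟩ := til_of_time S c J u (fun i hi j hj h => hinj i hi j hj h) (by
      intro j hj
      have h3 := hu j hj
      have h4 := hw j hj
      have h5 := huw j hj
      have e1 : ∑ i ∈ J, S.sz i = ∑ i ∈ J.filter (fun i => u i < u j), S.sz i + S.sz j +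
          ∑ i ∈ J.filter (fun i => u j < u i), S.sz i := by
        rw [← sum_filter_add_sum_filter_not J (fun i => u j < u i), add_comm,
          ← sum_filter_add_sum_filter_not (J.filter fun i => ¬ u j < u i) (fun i => u i < u j),
          filter_filter, filter_filter]
        congr 2
        · exact sum_congr (filter_congr fun i _ => by omega) fun _ _ => rfl
        · rw [show J.filter (fun i => ¬ u j < u i ∧ ¬ u i < u j) = {j} by
            ext i
            simp only [mem_filter, mem_singleton]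
            exact ⟨fun h => hinj i h.1 j hj (by omega), fun h => by simp [h, hj]⟩, sum_singleton]
      have h6 := hsum _ (filter_subset (fun i => u i < u j) J) m (u j + 1) le_rfl (by omega)
        (by omega) (fun i hi => by
          obtain ⟨h7, h8⟩ := mem_filter.1 hi
          have := hdj i h7 j hj (by rintro rfl; omega)
          have := hu i h7
          omega)
      have h7 := hsum _ (filter_subset (fun i => u j < u i) J) (w j) T (by omega) h4 le_rfl
        (fun i hi => by
          obtain ⟨h7, h8⟩ := mem_filter.1 hi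
          have := hdj i h7 j hj (by rintro rfl; omega)
          have := huw i h7
          have := hw i h7
          omega)
      have h8 := hgain j hj
      have h9 := F_le (S := S) (Q.A (w j)) c
      have e2 := congrArg (· * S.U) (htot'.symm.trans e1)
      simp only [add_mul] at e2
      exact hG.align hS (hJN j hj) (hsw j hj) (by omega) (by omega) (by omega) (by omega)
        (by omega) (by rw [len_job_eq (hJN j hj)]; omega))
    refine ⟨l, h3, fun j => ?_, h5⟩
    rw [h4, hJ, mem_union, mem_sdiff, mem_bank]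
  have hlc : VE.lam c ∉ Q.X T := by
    refine hlam.resolve_right fun hc => ?_
    have h3 := hsum _ (subset_union_left (s₂ := O)) m T le_rfl hT1 le_rfl
      (fun j hj => hall j (mem_union_left _ hj))
    have h4 : S.ln c * S.U ≤ (∑ j ∈ S.bank c \ E, S.sz j) * S.U + S.M * S.U := by
      rw [← add_mul]
      exact Nat.mul_le_mul_right _ (by omega)
    have h5 := k_lt_lat hS (!c)
    obtain ⟨p, q, h6, h7, h8, h9⟩ := exists_sweep (by omega) hTf
      (hG.lam_nd (by omega) (by omega) hc) (hG.lat_end hS (!c))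
    have h10 := h8.long (n := 9) h5
    obtain ⟨q, rfl⟩ : ∃ q', q = q' + 2 := ⟨q - 2, by omega⟩
    have h11 := hG.F_push hS (hlit T hT1 le_rfl) (j := T) (by omega) (by omega)
    have h12 : S.F (Q.A (T + 1)) c ≤ S.F (Q.A (T + 2)) c + 1 :=
      hG.F_push hS (c := c) (j := T + 1) (by have := hφ m T le_rfl hT1 le_rfl; omega) (by omega)
        (by omega)
    have h13 := front_mono (Q := Q) (c := c) (x := T + 2) (y := p + 1) (by omega) (by
      rintro j hj hj' h0 ⟨x', y', h14, h15, h16⟩
      have h17 := hG.s_lat (h9 j hj (by omega)) (by omega) (by omega)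
      rw [Bool.not_not] at h17
      have := hG.bE hS (j := j) (by omega) (by omega) [.s c, .s (!c), .t c x', .t c y']
        (by simp [h14]) (by simp [h15, h16, h17, hG.s_lit h0 (j := j) (by omega) (by omega)])
      simp [wE] at this) (by have := hφ m T le_rfl hT1 le_rfl; omega)
    have h14 := hG.gain hS (X := .lat (!c)) (c := c) trivial h8 (by omega) (by omega) (x := p + 1)
      (y := q) (by omega) (by omega) le_rfl (by have := hφ m T le_rfl hT1 le_rfl; omega)
    have h15 := h8.first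
    have h16 := h8.last
    have h17 := F_le (S := S) (Q.A q) c
    have h18 : S.len (.lat (!c)) = S.M * S.U + S.U := rfl
    omega
  by_cases h0 : 0 ∈ O
  · left
    have h3 := add_sum_erase O S.sz h0
    rw [hS.sz_zero] at h3
    have h4 : O = {0} := by
      refine eq_singleton_iff_unique_mem.2 ⟨h0, fun j hj => ?_⟩
      by_contra hc
      have h5 := single_le_sum (f := S.sz) (fun _ _ => Nat.zero_le _) (mem_erase.2 ⟨hc, hj⟩)
      have := hS.sz_pos j (hJN j (mem_union_right _ hj))
      omega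
    exact ⟨c, E, hR (by omega), h4 ▸ htil (by omega)⟩
  · right
    have hOb : ∀ j ∈ O, S.inb (!c) j := fun j hj =>
      (mem_filter.1 hj).2.1.resolve_left fun h => h0 (h ▸ hj)
    obtain ⟨m', h3, h4, h5⟩ := hG.reset hS (c := c) (t := T + 2) (O := O) (by omega) hTf
      (hG.lam_nd (by omega) (by omega) hlc) h0 (fun j hj hj' hjO => by
        by_contra hc
        exact hjO (mem_filter.2 ⟨mem_range.2 hj, hj', hc⟩))
    exact ⟨m', O, by omega, h4, h5, fun j hj => mem_bank.2 (hOb j hj), by omega,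
      fun h => R.step c E O (hR (by omega)) hOb h (htil h)⟩

end Good

end Sys

theorem sound : SoundStmt := by
  intro S hS Q a f hG
  have key : ∀ n m c E, f ≤ m + n → a ≤ m → m ≤ f → Sys.Start Q c m E → E ⊆ S.bank c →
      ∑ j ∈ E, S.sz j ≤ S.M → (∑ j ∈ E, S.sz j = S.M → S.R c E) → S.Accept := by
    intro n
    induction n with
    | zero =>
      intro m c E h0 h1 h2 h3 h4 h5 h6
      rcases hG.phase hS h1 h2 h3 h4 h5 h6 with h | ⟨m', O, h7, h8, -⟩
      · exact h
      · omega
    | succ n ih =>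
      intro m c E h0 h1 h2 h3 h4 h5 h6
      rcases hG.phase hS h1 h2 h3 h4 h5 h6 with h | ⟨m', O, h7, h8, h9, h10, h11, h12⟩
      · exact h
      · exact ih m' _ O (by omega) (by omega) h8 h9 h10 h11 h12
  obtain ⟨m, h1, h2, h3⟩ := hG.start hS
  exact key f m false S.E0 (by omega) h1 h2 h3 (fun j hj => Sys.mem_bank.2 (hS.e0_inb j
    (Finset.mem_range.1 (Finset.mem_filter.1 hj).1) (Finset.mem_filter.1 hj).2)) hS.e0_sum.le
    (fun _ => Sys.R.init)

end Pool.Agent.MP_9694c2_lc.PS
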