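import Mathlib.Algebra.Polynomial.Eval.Defs
import Mathlib.Data.Fin.Basic

/-!
Deterministic one-tape Turing machines and the class of languages decided in polynomial space.
-/

set_option autoImplicit false

namespace Pool.Agent.MP_9694c2_lc.PS

/-- A deterministic one-tape Turing machine. States: `0` start, `1` accept, `2` reject, and `q`
others. Symbols: `0` blank, `1`, `2` for the input bits, and `g` others. `δ` gives the new state,
the symbol written and the move (`true` is right). -/
structure TM where
  q : ℕ
  g : ℕ
  δ : Fin (q + 3) → Fin (g + 3) → Fin (q + 3) × Fin (g + 3) × Bool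

/-- A configuration: state, head position, tape (infinite to the right). -/
structure TM.Cfg (M : TM) where
  st : Fin (M.q + 3)
  pos : ℕ
  tape : ℕ → Fin (M.g + 3)

/-- One step; the machine stays put in the states accept and reject, and a move to the left from
cell `0` leaves the head there. -/
def TM.step (M : TM) (c : M.Cfg) : M.Cfg :=
  if c.st = 1 ∨ c.st = 2 then c else
    ⟨(M.δ c.st (c.tape c.pos)).1,
      if (M.δ c.st (c.tape c.pos)).2.2 = true then c.pos + 1 else c.pos - 1,
      Function.update c.tape c.pos (M.δ c.st (c.tape c.pos)).2.1⟩

/-- The configuration after `t` steps on input `x`. -/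
def TM.run (M : TM) (x : List Bool) : ℕ → M.Cfg
  | 0 => ⟨0, 0, fun i => if i < x.length then (if x.getD i false = true then 2 else 1) else 0⟩
  | t + 1 => M.step (M.run x t)

/-- The languages decided by a Turing machine whose head stays in polynomially many cells. -/
def PSPACE : Set (List Bool → Bool) :=
  {L | ∃ (M : TM) (p : Polynomial ℕ), ∀ x, (∀ t, (M.run x t).pos < p.eval x.length) ∧
    ∃ t, (M.run x t).st = if L x = true then 1 else 2}

end Pool.Agent.MP_9694c2_lc.PS
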