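import Pool.Agent.MP_9694c2_lc.Defs
import Pool.Agent.MP_9694c2_lc.PS.TM
import Pool.Agent.MP_9694c2_lc.PS.Graph
import Pool.Agent.Lib.helper82.PolyFun

/-!
The steps of the reduction, as propositions.
-/

set_option autoImplicit false

namespace Pool.Agent.MP_9694c2_lc.PS

open Pool.Agent.PolyT

/-! ### The bipartite graph of a weighted graph -/

/-- Copy `i` of a vertex of the first type. -/
def nE (v i : ℕ) : ℕ := 4 * Nat.pair v i

/-- Copy `i` of a vertex of the second type. -/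
def nO (v i : ℕ) : ℕ := 4 * Nat.pair v i + 1

/-- Connector `z` of a pair of the first type. -/
def nC (u v z : ℕ) : ℕ := 4 * Nat.pair (Nat.pair u v) z + 3

/-- Connector `z` of a pair of the second type. -/
def nD (u v z : ℕ) : ℕ := 4 * Nat.pair (Nat.pair u v) z + 2

/-- The numbers below `n`, for `n ≤ k + 1`. -/
def rg (k n : ℕ) : List ℕ := (List.range (k + 1)).take n

/-- The edge list; the entries of the three lists are pairs of (name, weight). -/
def realE (k : ℕ) (EE OO EO : List ((ℕ × ℕ) × (ℕ × ℕ))) : List (ℕ × ℕ) :=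
  EO.flatMap (fun e => (rg k e.1.2).flatMap fun i => (rg k e.2.2).map fun j =>
    (nE e.1.1 i, nO e.2.1 j)) ++
  (EE.flatMap (fun e => (List.range (k + 1)).flatMap fun z =>
    (rg k e.1.2).map (fun i => (nE e.1.1 i, nC e.1.1 e.2.1 z)) ++
      (rg k e.2.2).map (fun i => (nE e.2.1 i, nC e.1.1 e.2.1 z))) ++
  OO.flatMap (fun e => (List.range (k + 1)).flatMap fun z =>
    (rg k e.1.2).map (fun i => (nD e.1.1 e.2.1 z, nO e.1.1 i)) ++
      (rg k e.2.2).map (fun i => (nD e.1.1 e.2.1 z, nO e.2.1 i))))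

/-- The weighted game is the game on the bipartite graph. -/
def RealStmt : Prop :=
  ∀ (VE VO : Type) (G : TG VE VO) (k : ℕ) (cE : VE → ℕ) (cO : VO → ℕ)
    (lee : List (VE × VE)) (loo : List (VO × VO)) (leo : List (VE × VO)),
    Function.Injective cE → Function.Injective cO →
    (∀ v, G.wE v ≤ k) → (∀ v, G.wO v ≤ k) →
    (∀ u v, G.ee u v → u ∈ G.vE ∧ v ∈ G.vE) → (∀ u v, G.oo u v → u ∈ G.vO ∧ v ∈ G.vO) →
    (∀ u v, G.eo u v → u ∈ G.vE ∧ v ∈ G.vO) →
    (∀ u v, (u, v) ∈ lee ↔ G.ee u v ∨ (u = v ∧ u ∈ G.vE)) →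
    (∀ u v, (u, v) ∈ loo ↔ G.oo u v ∨ (u = v ∧ u ∈ G.vO)) →
    (∀ u v, (u, v) ∈ leo ↔ G.eo u v) →
    (hunt (realE k (lee.map fun e => ((cE e.1, G.wE e.1), (cE e.2, G.wE e.2)))
        (loo.map fun e => ((cO e.1, G.wO e.1), (cO e.2, G.wO e.2)))
        (leo.map fun e => ((cE e.1, G.wE e.1), (cO e.2, G.wO e.2)))) ≤ k ↔ G.Win k)

/-! ### Polynomial-time families -/

/-- A family of automata computable in polynomial time. -/
structure PolyCA (C : List Bool → CA) : Prop where
  n : Poly (fun x => (C x).n)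
  A : ∃ A, ∀ x, (C x).A = A
  rule : Poly (fun p : List Bool × ℕ × ℕ × ℕ × ℕ =>
    (C p.1).rule p.2.1 p.2.2.1 p.2.2.2.1 p.2.2.2.2)
  acc : Poly (fun p : List Bool × ℕ => (C p.1).acc p.2)
  ini : Poly (fun p : List Bool × ℕ => (C p.1).ini p.2)
  un : ∃ R : List Bool → List ℕ, Poly R ∧ ∀ x, (C x).n ≤ (R x).length

/-- A family of job systems computable in polynomial time. -/
structure PolySys (S : List Bool → Sys) : Prop where
  N : Poly (fun x => (S x).N)
  M : Poly (fun x => (S x).M)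
  ln : ∀ c, Poly (fun x => (S x).ln c)
  bk : Poly (fun p : List Bool × ℕ => (S p.1).bk p.2)
  sz : Poly (fun p : List Bool × ℕ => (S p.1).sz p.2)
  e0 : Poly (fun p : List Bool × ℕ => (S p.1).e0 p.2)
  ok : ∀ c, Poly (fun p : List Bool × ℕ × ℕ => (S p.1).ok c p.2.1 p.2.2)
  un : ∃ R : List Bool → List ℕ, Poly R ∧
    ∀ x, (S x).N + (S x).M + (S x).ln false + (S x).ln true ≤ (R x).length

/-- Machines are simulated by automata. -/
def TMStmt : Prop :=
  ∀ L ∈ PSPACE, ∃ C : List Bool → CA, PolyCA C ∧ ∀ x, (C x).WF ∧ (L x = true ↔ (C x).Acc)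

/-- The edge list of a job system. -/
def EncStmt : Prop :=
  RealStmt → ∀ (k : ℕ) (S : List Bool → Sys), PolySys S → (∀ x, (S x).k = k ∧ (S x).WF) →
    ∃ f : List Bool → List (ℕ × ℕ), Poly f ∧
      ∀ x, (∀ e ∈ f x, Even e.1 ∧ Odd e.2) ∧ (hunt (f x) ≤ k ↔ (S x).G.Win k)

/-! ### The job system of an automaton -/

namespace CA

variable (C : CA)

/-- The number of gates. -/
def ng : ℕ := C.n * (C.A * C.A * C.A)

/-- The cell of a gate. -/
def cell (g : ℕ) : ℕ := g / (C.A * C.A * C.A)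

/-- The letter that gate `g` expects at input `j`. -/
def lt (g j : ℕ) : ℕ :=
  if j = 0 then g / (C.A * C.A) % C.A else if j = 1 then g / C.A % C.A else g % C.A

/-- The value of a gate. -/
def val (g : ℕ) : ℕ := C.rule (C.cell g) (C.lt g 0) (C.lt g 1) (C.lt g 2)

/-- The cell read at input `j` by the gates of cell `i`. -/
def src (i j : ℕ) : ℕ := if j = 0 then C.pr i else if j = 1 then i else C.nx i

/-- Gate `g` agrees with the configuration `w`. -/
def tru (w : ℕ → ℕ) (g : ℕ) : Prop :=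
  C.lt g 0 = w (C.pr (C.cell g)) ∧ C.lt g 1 = w (C.cell g) ∧ C.lt g 2 = w (C.nx (C.cell g))

instance (w : ℕ → ℕ) (g : ℕ) : Decidable (C.tru w g) := by unfold tru; infer_instance

/-- Input number `u` may be done in slot `s` of the word of the gates. -/
def okX (s u : ℕ) : Prop :=
  u % 3 = s % 3 ∧
    if u < 3 * C.ng then
      C.src (C.cell (u / 3)) (u % 3) = C.cell (s / 3) ∧ C.lt (u / 3) (u % 3) = C.val (s / 3)
    else (u - 3 * C.ng) % (3 * C.n) / 3 = C.cell (s / 3) ∧
      ((u - 3 * C.ng) / (3 * C.n) = C.cell (s / 3) → s % 3 = 1 → C.acc (C.val (s / 3)) = true)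

instance (s u : ℕ) : Decidable (C.okX s u) := by unfold okX; infer_instance

/-- The job system: job `0` accepts, jobs `1 + g` are the gates, jobs `ng + 1 + u` the inputs. -/
def toSys (k : ℕ) : Sys where
  k := k
  N := 1 + C.ng + 3 * C.ng + 3 * C.n * C.n
  M := 3 * C.n
  bk j := decide (j ≤ C.ng)
  sz j := if j = 0 then 3 * C.n else if j ≤ C.ng then 3 else 1
  ln c := if c = true then 3 * C.ng else 3 * C.ng + 3 * C.n * C.n
  ok c s j :=
    if j = 0 then decide (c = false ∧ 3 * C.ng ≤ s ∧ (s - 3 * C.ng) % (3 * C.n) = 0)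
    else if j ≤ C.ng then decide (s = 3 * (j - 1))
    else if c = true then decide (C.okX s (j - C.ng - 1)) else decide (s = j - C.ng - 1)
  e0 j := decide (C.ng < j ∧ j - C.ng - 1 < 3 * C.ng ∧ C.tru C.ini ((j - C.ng - 1) / 3))

end CA

/-- The job system is well formed. -/
def JobWF : Prop := ∀ (C : CA) (k : ℕ), C.WF → 42 ≤ k → (C.toSys k).WF

/-- Soundness of the job system. -/
def JobSound : Prop := ∀ (C : CA) (k : ℕ), C.WF → (C.toSys k).WF → (C.toSys k).Accept → C.Acc

/-- Completeness of the job system. -/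
def JobCompl : Prop := ∀ (C : CA) (k : ℕ), C.WF → C.Acc → (C.toSys k).Accept

/-- The job system is computable in polynomial time. -/
def JobPoly : Prop := ∀ (C : List Bool → CA) (k : ℕ), PolyCA C → PolySys (fun x => (C x).toSys k)

/-! ### Soundness of the graph -/

/-- A win contains a good stretch, forwards or backwards. -/
def RevStmt : Prop :=
  ∀ S : Sys, S.WF → S.G.Win S.k → ∃ (Q : S.G.Play S.k) (a f : ℕ), S.Good Q a f

/-- A good stretch gives acceptance. -/
def SoundStmt : Prop :=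
  ∀ S : Sys, S.WF → ∀ (Q : S.G.Play S.k) (a f : ℕ), S.Good Q a f → S.Accept

/-- Ordering jobs by time. -/
def TilStmt : Prop :=
  ∀ (S : Sys) (c : Bool) (J : Finset ℕ) (τ : ℕ → ℕ), Set.InjOn τ J →
    (∀ j ∈ J, S.ok c (∑ i ∈ J.filter (fun i => τ i < τ j), S.sz i) j = true) →
    ∃ l : List ℕ, l.Nodup ∧ (∀ j, j ∈ l ↔ j ∈ J) ∧ S.Til c 0 l

/-! ### Completeness of the graph -/

/-- A description of the dirty vertices: an interval of each fuse, a final part of each rail,
and sets of control vertices. -/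
structure Cf where
  lo : Bool → ℕ
  hi : Bool → ℕ
  cl : Reg → ℕ
  e : Set VE
  o : Set VO

namespace Sys

variable (S : Sys)

/-- The dirty vertices of the first type. -/
def dE (C : Cf) : VE → Prop
  | .t c i => C.lo c ≤ i ∧ i < C.hi c
  | .r X i => C.cl X ≤ i ∧ i < S.len X
  | .gE X => S.vR X ∧ C.cl X = 0
  | .s c => VE.s c ∈ C.e
  | .lam c => VE.lam c ∈ C.e
  | .pT => VE.pT ∈ C.e
  | .uE => VE.uE ∈ C.e

/-- The dirty vertices of the second type. -/
def dO (C : Cf) : VO → Prop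
  | .gO X => S.vR X ∧ C.cl X = 0
  | .al j => j < S.N ∧ C.cl (.job j) ≤ (3 * j + 1) * S.h
  | .be c s y => S.busy c s y ∧ C.lo c ≤ S.sy s y ∧ S.sy s y + 3 * S.h ≤ C.hi c
  | .om c => VO.om c ∈ C.o
  | .p c => VO.p c ∈ C.o
  | .sg => VO.sg ∈ C.o
  | .pi => VO.pi ∈ C.o
  | .uO => VO.uO ∈ C.o

/-- The state. -/
def st (C : Cf) : Set VE × Set VO := ({v | S.dE C v}, {v | S.dO C v})

/-- The clean rails: the jobs of `D`, the latches with `a`, the precious rail if `b`. -/
def clD (D : Finset ℕ) (a : Bool → Bool) (b : Bool) : Reg → ℕ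
  | .job j => if j ∈ D then S.len (.job j) else 0
  | .lat c => if a c = true then S.r else 0
  | .P => if b = true then 20 * S.k else 0
  | .Om => 0

/-- During a phase: fuse `c` is burnt below `f`, the jobs of `D` are done. -/
def Ph (c : Bool) (f : ℕ) (D : Finset ℕ) : Cf :=
  ⟨fun _ => 0, fun d => if d = c then f else 0, S.clD D (fun _ => true) true, ∅, ∅⟩

/-- The same with latch `c` dirty. -/
def Pu (c : Bool) (f : ℕ) (D : Finset ℕ) : Cf :=
  ⟨fun _ => 0, fun d => if d = c then f else 0, S.clD D (fun d => d != c) true, {.lam c}, ∅⟩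

/-- In the preparation: fuse `false` is clean, fuse `true` is burnt, the jobs of `D` are done. -/
def Pr (D : Finset ℕ) : Cf :=
  ⟨fun _ => 0, fun d => if d = true then S.L true + 1 else 0, S.clD D (fun _ => false) false,
    {.lam false, .lam true}, {.om false, .p false, .p true, .sg, .pi}⟩

end Sys

/-- A job done at an allowed slot while the fuse burns. -/
def CJob : Prop :=
  ∀ S : Sys, S.WF → ∀ (c : Bool) (s j : ℕ) (D : Finset ℕ), j < S.N → j ∉ D →
    s + S.sz j ≤ S.ln c → S.ok c s j = true →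
    S.G.Reach S.k (S.st (S.Ph c (S.r + s * S.U) D))
      (S.st (S.Ph c (S.r + (s + S.sz j) * S.U) (insert j D)))

/-- A job done without fire. -/
def CJob0 : Prop :=
  ∀ S : Sys, S.WF → ∀ (c : Bool) (j : ℕ) (D : Finset ℕ), j < S.N → j ∉ D →
    S.G.Reach S.k (S.st (S.Ph c 0 D)) (S.st (S.Ph c 0 (insert j D)))

/-- Pushing the fire back. -/
def CPush : Prop :=
  ∀ S : Sys, S.WF → ∀ (c : Bool) (f : ℕ) (D : Finset ℕ), f ≤ S.L c → S.bank c ⊆ D →
    S.G.Reach S.k (S.st (S.Pu c f D)) (S.st (S.Pu c 0 D))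

/-- Cleaning the latch resets the bank and lights the other fuse. -/
def CLat : Prop :=
  ∀ S : Sys, S.WF → ∀ (c : Bool) (D : Finset ℕ),
    S.G.Reach S.k (S.st (S.Pu c 0 D)) (S.st (S.Ph (!c) S.r (D \ S.bank c)))

/-- Cleaning the latch when the accepting job is done. -/
def CLat0 : Prop :=
  ∀ S : Sys, S.WF → ∀ (c : Bool) (D : Finset ℕ), 0 ∈ D →
    S.G.Reach S.k (S.st (S.Pu c 0 D)) (S.st (S.Ph c 0 D))

/-- Cleaning the source rail. -/
def CEnd : Prop :=
  ∀ S : Sys, S.WF → ∀ (c : Bool) (D : Finset ℕ), Finset.range S.N ⊆ D →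
    S.G.Reach S.k (S.st (S.Ph c 0 D)) (∅, ∅)

/-- Preparation, first part. -/
def CPrep1 : Prop :=
  ∀ S : Sys, S.WF → S.G.Reach S.k (S.G.vE, S.G.vO) (S.st (S.Pr (S.bank true)))

/-- Preparation, second part. -/
def CPrep2 : Prop :=
  ∀ S : Sys, S.WF →
    S.G.Reach S.k (S.st (S.Pr (S.bank true))) (S.st (S.Pu true (S.L true) (S.bank true ∪ S.E0)))

/-- Acceptance gives a win. -/
def ComplStmt : Prop := ∀ S : Sys, S.WF → S.Accept → S.G.Win S.k

/-- The moves give completeness. -/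
def CGlue : Prop := CJob → CJob0 → CPush → CLat → CLat0 → CEnd → CPrep1 → CPrep2 → ComplStmt

end Pool.Agent.MP_9694c2_lc.PS
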