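import Pool.Agent.MP_9694c2_lc.PS.Align
import Pool.Agent.MP_9694c2_lc.PS.Spec

/-!
Cleaning a latch resets a bank and lights the other fuse; ordering jobs by time.
-/

set_option autoImplicit false

namespace Pool.Agent.MP_9694c2_lc.PS

namespace Sys

open Finset

variable {S : Sys} {Q : S.G.Play S.k}

theorem til_append (c : Bool) (l l' : List ℕ) (s : ℕ) :
    S.Til c s (l ++ l') ↔ S.Til c s l ∧ S.Til c (s + (l.map S.sz).sum) l' := by
  induction l generalizing s with
  | nil => simp [Til]
  | cons j l ih => simp [Til, ih, add_assoc, and_assoc]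

theorem til_of_time : TilStmt := by
  intro S c J τ
  induction J using Finset.induction_on_max_value τ with
  | empty => exact fun _ _ => ⟨[], List.nodup_nil, by simp, trivial⟩
  | insert j J hj hmax ih =>
    intro hinj hok
    have hlt : ∀ i ∈ J, τ i < τ j := fun i hi => lt_of_le_of_ne (hmax i hi) fun h =>
      hj (hinj (by simp [hi]) (by simp) h ▸ hi)
    obtain ⟨l, h1, h2, h3⟩ := ih (hinj.mono (by simp)) (fun i hi => by
      have := hok i (mem_insert_of_mem hi)
      rwa [filter_insert, if_neg (not_lt.2 (hlt i hi).le)] at this)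
    refine ⟨l ++ [j], ?_, fun i => by simp [h2, or_comm], (til_append c l [j] 0).2 ⟨h3, ?_, trivial⟩⟩
    · exact List.nodup_append.2 ⟨h1, List.nodup_singleton _, fun x hx y hy => by
        rintro rfl
        exact hj ((h2 _).1 (List.mem_singleton.1 hy ▸ hx))⟩
    · have := hok j (mem_insert_self _ _)
      rw [filter_insert, if_neg (lt_irrefl _), filter_true_of_mem hlt] at this
      rw [zero_add, ← List.sum_toFinset _ h1, show l.toFinset = J by ext i; simp [h2]]
      exact this

/-- Increments of a monotone function over disjoint intervals add up. -/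
theorem sum_incr (φ u w g : ℕ → ℕ) (e m T : ℕ) (hφ : ∀ x y, m ≤ x → x ≤ y → y ≤ T → φ x ≤ φ y)
    (J : Finset ℕ) (huw : ∀ j ∈ J, u j ≤ w j) (hg : ∀ j ∈ J, φ (u j) + g j ≤ φ (w j) + e)
    (hd : ∀ i ∈ J, ∀ j ∈ J, i ≠ j → w i < u j ∨ w j < u i) {x y : ℕ} (hx : m ≤ x) (hxy : x ≤ y)
    (hy : y ≤ T) (hJ : ∀ j ∈ J, x ≤ u j ∧ w j ≤ y) : φ x + ∑ j ∈ J, g j ≤ φ y + J.card * e := by
  induction J using Finset.induction_on_max_value u generalizing y with
  | empty => simpa using hφ x y hx hxy hy
  | insert j J hj hmax ih =>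
    have h1 := hJ j (mem_insert_self _ _)
    have h2 := huw j (mem_insert_self _ _)
    have h3 := hg j (mem_insert_self _ _)
    have h4 := ih (fun i hi => huw i (mem_insert_of_mem hi)) (fun i hi => hg i (mem_insert_of_mem hi))
      (fun i hi i' hi' => hd i (mem_insert_of_mem hi) i' (mem_insert_of_mem hi')) (y := u j) h1.1
      (by omega) (fun i hi => ⟨(hJ i (mem_insert_of_mem hi)).1, by
        have := hd i (mem_insert_of_mem hi) j (mem_insert_self _ _) (fun h => hj (h ▸ hi))
        have := hmax i hi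
        omega⟩)
    have h5 := hφ (w j) y (by omega) h1.2 hy
    rw [sum_insert hj, card_insert_of_notMem hj, Nat.succ_mul]
    omega

/-- The start of a phase. -/
structure Start (Q : S.G.Play S.k) (c : Bool) (m : ℕ) (E : Finset ℕ) : Prop where
  hF : S.r ≤ S.F (Q.A m) c + 4 * S.k
  nd : ∀ j < S.N, j ∉ E → S.cc (Q.A m) (.job j) ≤ S.k

namespace Good

variable {a f : ℕ} (hG : S.Good Q a f)
include hG

theorem reset (hS : S.WF) {c : Bool} {t : ℕ} {O : Finset ℕ} (h1 : a + 1 ≤ t) (h2 : t ≤ f)
    (hl : S.cc (Q.A t) (.lat c) ≤ S.k) (h0 : 0 ∉ O)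
    (hO : ∀ j < S.N, (j = 0 ∨ S.inb (!c) j) → j ∉ O → S.dirt (Q.A t) (.job j)) :
    ∃ m, t ≤ m ∧ m ≤ f ∧ Start Q (!c) m O := by
  have hlen := k_lt_lat hS c
  obtain ⟨u, v, htu, hvf, h, hdt⟩ := exists_sweep (by omega) h2 hl (hG.lat_end hS c)
  have hlong := h.long (n := 9) hlen
  obtain ⟨w, rfl⟩ : ∃ w, v = w + 3 := ⟨v - 3, by omega⟩
  have hX : work (.lat c) := trivial
  have hstay : ∀ i < S.N, S.dirt (Q.A t) (.job i) → ∀ j, t ≤ j → j ≤ w + 2 →
      S.dirt (Q.A j) (.job i) ∧ S.cc (Q.A (j + 1)) (.job i) ≤ S.k := by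
    intro i hi hd j hj hj'
    have key : ∀ j, t ≤ j → j ≤ w + 2 → S.dirt (Q.A j) (.job i) →
        S.cc (Q.A (j + 1)) (.job i) ≤ S.k := by
      intro j hj hj' hd
      obtain ⟨j, rfl⟩ : ∃ j', j = j' + 1 := ⟨j - 1, by omega⟩
      exact hG.blocked hS (by omega) (by omega) (hdt _ hj (by omega)) hd
    induction j, hj using Nat.le_induction with
    | base => exact ⟨hd, key t le_rfl hj' hd⟩
    | succ j hj ih =>
      have h3 : S.dirt (Q.A (j + 1)) (.job i) := dirt_of_cc (by
        have := (ih (by omega)).2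
        have := k_lt_job hS hi
        omega)
      exact ⟨h3, key _ (by omega) hj' h3⟩
  have hom : ∀ j, u ≤ j → j ≤ w → VO.om c ∈ Q.B (j + 1) := by
    intro j hj hj'
    refine apO_dirty (.oO c) (hG.hO _ (by omega) (by omega)) fun hc => ?_
    have hp : VO.p (!c) ∉ Q.Y (j + 1) := fun hp =>
      absurd (hG.pp hS (j := j + 1) (by omega) (by omega) (h.dt _ (by omega) (by omega)) hp)
        (not_le.2 (h.nn _ (by omega) (by omega)))
    have h3 : VO.om (!c) ∈ Q.Y j := by
      by_contra h3
      exact hG.notB (.pP (!c)) (j := j + 2) (by omega) (by omega) (Q.b1 _ _ _ hp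
        (apO_dirty (.oO (!c)) (hG.hO _ (by omega) (by omega)) h3) (.op (!c)))
    have h4 : VO.sg ∈ Q.Y j := by
      by_contra h4
      have h5 := nd_of_apO .gl (apO_dirty .gO (hG.hO _ (by omega) (by omega)) h4)
      cases c with
      | true => exact absurd h5 (not_le.2 (h.nn _ (by omega) (by omega)))
      | false =>
        have h6 := k_lt_lat hS true
        exact hp (hG.p_lat (c := true) (j := j + 1) (dirt_of_cc (by omega)) (by omega) (by omega))
    have h5 := h.dt (j + 1) (by omega) (by omega)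
    have := hG.bO hS (j := j) (by omega) (by omega)
      [.p c, .gO (.lat c), .pi, .om (!c), .sg, .om c] (by simp)
      (by simp [hc, h3, h4, hG.p_lat h5 (by omega) (by omega),
        forcedO (.g _) h5 (h.nn _ (by omega) (by omega)),
        hG.apO_shot .iP .i0 (hstay 0 hS.N_pos (hO 0 hS.N_pos (Or.inl rfl) h0) (j + 1) (by omega)
          (by omega)).1 (j := j) (by omega) (by omega)])
    simp [wO] at this
  have hE : ∀ j, u ≤ j → j ≤ w + 1 → VE.gE (.lat c) ∈ Q.X j ∧ VE.s (!c) ∈ Q.X j := fun j hj hj' =>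
    ⟨forcedE (.g _) (h.dt j hj (by omega)) (h.nn _ (by omega) (by omega)),
      hG.s_lat (h.dt j hj (by omega)) (by omega) (by omega)⟩
  have hT : ∀ j, u ≤ j → j ≤ w + 1 → ∀ i, VE.t (!c) i ∉ Q.X j := fun j hj hj' =>
    hG.noT hS hX (by omega) (by omega) (hE j hj hj').1 (hE j hj hj').2 _
  have hburn : ∀ n, u + 2 + n ≤ w + 2 → VE.t (!c) (min n (S.L (!c))) ∈ Q.A (u + 2 + n) := by
    intro n hn
    induction n with
    | zero =>
      exact Q.a3 (u + 1) _ _ (hT _ (by omega) (by omega) _) (hom u le_rfl (by omega))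
        (by rw [Nat.zero_min]; exact eo.om (!c) c (by simp))
    | succ n ih =>
      have h3 := ih (by omega)
      by_cases h4 : n < S.L (!c)
      · rw [min_eq_left h4.le] at h3
        rw [min_eq_left h4]
        exact Q.a1 (u + 2 + n) _ _ (hT _ (by omega) (by omega) _) h3 (ee.tt _ _ h4)
      · rw [min_eq_right (by omega)] at h3 ⊢
        exact Q.a0 (u + 2 + n) _ (hT _ (by omega) (by omega) _) h3
  have hspeed : ∀ n, u + 1 + n ≤ w + 2 →
      S.cc (Q.A (u + 1 + n)) (.lat c) ≤ S.cc (Q.A (u + 1)) (.lat c) + n := by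
    intro n hn
    induction n with
    | zero => simp
    | succ n ih =>
      have h3 := ih (by omega)
      have h4 := hE (u + 1 + n) (by omega) (by omega)
      have h5 := hG.sh_two hS hX (by omega) (by omega) h4.1 h4.2
      have h6 := cc_bd Q (u + 1 + n) (.lat c)
      have h7 := bd_pos (lt_of_le_of_lt (Nat.zero_le _) (h.nn (u + 1 + n) (by omega) (by omega)))
        (h.dt _ (by omega) (by omega))
      rw [← add_assoc]
      omega
  refine ⟨w + 2, by omega, by omega, ?_, fun j hj hj' => ?_⟩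
  · have h3 := hburn (w - u) (by omega)
    have h4 := hspeed (w + 1 - u) (by omega)
    rw [show u + 2 + (w - u) = w + 2 by omega] at h3
    rw [show u + 1 + (w + 1 - u) = w + 2 by omega] at h4
    have h5 := le_F (min_le_right _ _) h3
    have h6 : S.cc (Q.A (w + 3)) (.lat c) ≤ _ := cc_step Q (w + 2) (.lat c)
    rw [cc_of_not_dirt h.cl] at h6
    have h7 := h.first
    have h8 := L_ge (S := S) (!c)
    have h9 := hS.k_ge
    simp only [len] at h6
    omega
  · by_cases h3 : S.inb c j
    · exact nd_of_apO (.oj c j h3) (hom w (by omega) le_rfl)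
    · refine (hstay j hj (hO j hj ?_ hj') (w + 1) (by omega) (by omega)).2
      by_cases h4 : j = 0
      · exact Or.inl h4
      · refine Or.inr ⟨by omega, hj, ?_⟩
        have : S.bk j ≠ c := fun h5 => h3 ⟨by omega, hj, h5⟩
        cases c <;> simpa using this

theorem start (hS : S.WF) : ∃ m, a ≤ m ∧ m ≤ f ∧ Start Q false m S.E0 := by
  have h1 := hG.le
  have h2 : VO.sg ∈ Q.B (a + 1) := by
    refine apO_dirty .gO (hG.hO _ (by omega) (by omega)) fun hc => ?_
    have h3 := hG.hP (a + 2) (by omega) (by omega)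
    have := hG.bO hS (j := a) le_rfl (by omega) [.p false, .p true, .pi, .gO .P, .sg] (by simp)
      (by simp [hc, forcedO (.pP _) hG.hPd h3, forcedO .iP hG.hPd h3, forcedO (.g _) hG.hPd h3])
    simp [wO] at this
  obtain ⟨m, h3, h4, h5⟩ := hG.reset hS (c := true) (t := a + 2) (O := S.E0) (by omega) (by omega)
    (nd_of_apO .gl h2) (fun h => by
      have := (hS.e0_inb 0 hS.N_pos (mem_filter.1 h).2).1
      omega) (fun j hj hj' hE => dirt_of_cc (by
      have h6 : S.apO .sg (.job j) := by
        rcases hj' with rfl | hj'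
        · exact .g0
        · exact .gj j hj' (by simpa [E0, hj] using hE)
      have h7 : S.cc (Q.A (a + 2)) (.job j) ≤ S.k := nd_of_apO h6 h2
      have := k_lt_job hS hj
      omega))
  exact ⟨m, by omega, h4, h5⟩

end Good

end Sys

end Pool.Agent.MP_9694c2_lc.PS
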